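import Mathlib
import Pool.Agent.TFR.Sub
import Pool.Agent.TFR.TFree

/-!
# More on derivations: values on a normal subgroup, descent, primary modules
-/

set_option autoImplicit false

namespace Pool.TFN

open Cardinal Pool.TFR Polynomial

variable {Q M : Type} [Group Q] [AddCommGroup M] (D : Der Q M)

/-- the values on a subgroup acting trivially, as a homomorphism -/
def valH (N : Subgroup Q) (hN : ∀ c ∈ N, D.ρ c = 1) : Additive ↥N →+ M where
  toFun c := D.π (Additive.toMul c).1
  map_zero' := D.map_one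
  map_add' a b := by
    change D.π ((Additive.toMul a).1 * (Additive.toMul b).1) = _
    rw [D.map_mul, hN _ (Additive.toMul a).2]
    rfl

/-- the values on a subgroup acting trivially, as a submodule -/
def valN (N : Subgroup Q) (hN : ∀ c ∈ N, D.ρ c = 1) : Submodule ℤ M :=
  AddSubgroup.toIntSubmodule (valH D N hN).range

theorem mem_valN {N : Subgroup Q} {hN : ∀ c ∈ N, D.ρ c = 1} {m : M} :
    m ∈ valN D N hN ↔ ∃ c ∈ N, D.π c = m := by
  constructor
  · rintro ⟨c, hc⟩
    exact ⟨(Additive.toMul c).1, (Additive.toMul c).2, hc⟩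
  · rintro ⟨c, hc, rfl⟩
    exact ⟨Additive.ofMul ⟨c, hc⟩, rfl⟩

theorem inv_valN {N : Subgroup Q} (hN : ∀ c ∈ N, D.ρ c = 1) (hn : N.Normal) :
    D.Inv (valN D N hN) := by
  intro q m hm
  obtain ⟨c, hc, rfl⟩ := (mem_valN D).1 hm
  rw [mem_valN]
  refine ⟨q * c * q⁻¹, hn.conj_mem c hc q, ?_⟩
  rw [D.map_mul, D.map_mul, D.map_inv, _root_.map_mul, hN c hc, mul_one, map_neg, D.ρ_apply_inv]
  abel

/-- the rank of the values is at most the rank of the subgroup -/
theorem rank_valN_le {N : Subgroup Q} (hN : ∀ c ∈ N, D.ρ c = 1) [Group.IsSolvable Q] :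
    Module.rank ℤ (valN D N hN) ≤ r0 ↥N := by
  let f : ↥N →* Multiplicative ↥(valN D N hN) :=
    { toFun := fun c => Multiplicative.ofAdd ⟨D.π c.1, (mem_valN D).2 ⟨c.1, c.2, rfl⟩⟩
      map_one' := by
        refine Multiplicative.toAdd.injective (Subtype.ext ?_)
        exact D.map_one
      map_mul' := fun a b => by
        refine Multiplicative.toAdd.injective (Subtype.ext ?_)
        change D.π (a.1 * b.1) = D.π a.1 + D.π b.1
        rw [D.map_mul, hN _ a.2]
        rfl }
  have hf : Function.Surjective f := by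
    intro y
    obtain ⟨c, hc, h⟩ := (mem_valN D).1 (Multiplicative.toAdd y).2
    exact ⟨⟨c, hc⟩, Multiplicative.toAdd.injective (Subtype.ext h)⟩
  have h1 := r0_le_of_surjective f hf
  rw [r0_comm] at h1
  exact h1

/-- a derivation of a quotient group -/
noncomputable def desc {Λ : Type} [Group Λ] (f : Q →* Λ) (hf : Function.Surjective f)
    (h1 : ∀ g, f g = 1 → D.ρ g = 1) (h2 : ∀ g, f g = 1 → D.π g = 0) : Der Λ M :=
  have key : ∀ a b, f a = f b → D.ρ a = D.ρ b ∧ D.π a = D.π b := by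
    intro a b hab
    have hc : f (b⁻¹ * a) = 1 := by rw [map_mul, map_inv, hab, inv_mul_cancel]
    have e : a = b * (b⁻¹ * a) := (mul_inv_cancel_left b a).symm
    constructor
    · rw [e, map_mul, h1 _ hc, mul_one]
    · rw [e, D.map_mul, h2 _ hc, map_zero, add_zero]
  { ρ :=
      { toFun := fun x => D.ρ (Function.surjInv hf x)
        map_one' := by
          rw [← map_one D.ρ]
          exact (key _ _ (by rw [Function.surjInv_eq hf, map_one])).1
        map_mul' := fun a b => by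
          rw [← map_mul D.ρ]
          exact (key _ _ (by rw [map_mul, Function.surjInv_eq hf, Function.surjInv_eq hf,
            Function.surjInv_eq hf])).1 }
    π := fun x => D.π (Function.surjInv hf x)
    map_mul := fun a b => by
      have e := (key (Function.surjInv hf (a * b)) (Function.surjInv hf a * Function.surjInv hf b)
        (by rw [map_mul, Function.surjInv_eq hf, Function.surjInv_eq hf,
          Function.surjInv_eq hf])).2
      rw [e, D.map_mul]
      rfl }

variable {D}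

theorem desc_key {Λ : Type} [Group Λ] {f : Q →* Λ} {hf : Function.Surjective f}
    {h1 : ∀ g, f g = 1 → D.ρ g = 1} {h2 : ∀ g, f g = 1 → D.π g = 0} (a : Q) :
    (desc D f hf h1 h2).ρ (f a) = D.ρ a ∧ (desc D f hf h1 h2).π (f a) = D.π a := by
  have hc : f (a⁻¹ * Function.surjInv hf (f a)) = 1 := by
    rw [map_mul, map_inv, Function.surjInv_eq hf, inv_mul_cancel]
  have e : Function.surjInv hf (f a) = a * (a⁻¹ * Function.surjInv hf (f a)) :=
    (mul_inv_cancel_left a _).symm
  constructor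
  · change D.ρ (Function.surjInv hf (f a)) = _
    rw [e, map_mul, h1 _ hc, mul_one]
  · change D.π (Function.surjInv hf (f a)) = _
    rw [e, D.map_mul, h2 _ hc, map_zero, add_zero]

/-- the basic identity for commuting elements -/
theorem basic {a z : Q} (h : D.π (a * z) = D.π (z * a)) :
    D.ρ z (D.π a) - D.π a = D.ρ a (D.π z) - D.π z := by
  rw [D.map_mul, D.map_mul] at h
  have : D.ρ z (D.π a) = D.π a + D.ρ a (D.π z) - D.π z := by rw [h]; abel
  rw [this]; abel

theorem pi_pow (z : Q) (n : ℕ) : D.π (z ^ n) = ∑ i ∈ Finset.range n, (D.ρ z ^ i) (D.π z) := by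
  induction n with
  | zero => rw [pow_zero, D.map_one, Finset.range_zero, Finset.sum_empty]
  | succ n ih => rw [pow_succ, D.map_mul, ih, Finset.sum_range_succ, map_pow]

/-- In a `p`-primary module, the values become zero after raising to a power of `p`. -/
theorem pprim [Group.IsSolvable Q] (hr : r0 Q < ℵ₀) (hs : Function.Surjective D.π)
    (hc : ∀ a z, D.ρ a * D.ρ z = D.ρ z * D.ρ a ∧ D.π (a * z) = D.π (z * a)) {p : ℕ}
    (hp : p.Prime) (hM : ∀ m : M, ∃ e : ℕ, p ^ e • m = 0) (z : Q) :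
    ∃ n : ℕ, D.π (z ^ p ^ n) = 0 := by
  obtain ⟨e, he⟩ := hM (D.π z)
  obtain ⟨k, hk, hk0⟩ := D.torsion_z (P := ⊤) hr (fun a _ => hc a z) hs
    (n := p ^ e) (pow_pos hp.pos e) (by rw [natCast_zsmul]; exact he)
  obtain ⟨n, q, hq, rfl⟩ := Nat.exists_eq_pow_mul_and_not_dvd hk.ne' p hp.ne_one
  refine ⟨n, ?_⟩
  set h : Q := z ^ p ^ n with hh
  rw [pow_mul, ← hh, pi_pow] at hk0
  set y : M := D.π h with hy
  -- `q • y` is in the range of `h - 1`
  have h1 : ∀ m : ℕ, ∃ x : M, ∑ i ∈ Finset.range m, (D.ρ h ^ i) y = m • y + (D.ρ h x - x) := by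
    intro m
    have h2 : ∀ i : ℕ, ∃ x : M, (D.ρ h ^ i) y = y + (D.ρ h x - x) := by
      intro i
      induction i with
      | zero => exact ⟨0, by simp⟩
      | succ i ih =>
        obtain ⟨x, hx⟩ := ih
        refine ⟨x + (D.ρ h ^ i) y, ?_⟩
        rw [pow_succ', Module.End.mul_apply, map_add]
        have e1 : D.ρ h ((D.ρ h ^ i) y) = (D.ρ h ^ i) y + (D.ρ h ((D.ρ h ^ i) y) - (D.ρ h ^ i) y) :=
          by abel
        rw [e1]
        nth_rw 1 [hx]
        abel
    induction m with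
    | zero => exact ⟨0, by simp⟩
    | succ m ih =>
      obtain ⟨x, hx⟩ := ih
      obtain ⟨x', hx'⟩ := h2 m
      refine ⟨x + x', ?_⟩
      rw [Finset.sum_range_succ, hx, hx', map_add, succ_nsmul]
      abel
  obtain ⟨x, hx⟩ := h1 q
  rw [hk0] at hx
  have h2 : D.ρ h (-x) - (-x) = q • y := by
    rw [map_neg]
    have : q • y + (D.ρ h x - x) = 0 := hx.symm
    have e2 : q • y = -(D.ρ h x - x) := eq_neg_of_add_eq_zero_left this
    rw [e2]; abel
  obtain ⟨e', he'⟩ := hM y
  -- choose `n` with `1 + n q = 0` modulo `p ^ e'`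
  have hcop : Nat.Coprime q (p ^ e') := Nat.Coprime.pow_right _
    ((Nat.Prime.coprime_iff_not_dvd hp).2 hq).symm
  obtain ⟨m, hm⟩ : ∃ m : ℕ, p ^ e' ∣ 1 + m * q := by
    have h3 : IsUnit ((q : ℕ) : ZMod (p ^ e')) := (ZMod.isUnit_iff_coprime _ _).2 hcop
    obtain ⟨u, hu⟩ := h3
    have : NeZero (p ^ e') := ⟨pow_ne_zero _ hp.ne_zero⟩
    obtain ⟨m, hm⟩ := ZMod.natCast_zmod_surjective (-((u⁻¹ : (ZMod (p ^ e'))ˣ) : ZMod (p ^ e')))
    refine ⟨m, (ZMod.natCast_eq_zero_iff _ _).1 ?_⟩
    rw [Nat.cast_add, Nat.cast_mul, Nat.cast_one, hm, ← hu, neg_mul, Units.inv_mul]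
    ring
  obtain ⟨η, hη⟩ := hs (m • (-x))
  have h3 := basic (hc η h).2
  rw [hη, map_nsmul, ← smul_sub, h2] at h3
  have h4 : D.ρ η y = (1 + m * q) • y := by
    rw [add_smul, one_smul, mul_smul, h3]; abel
  have h5 : (1 + m * q) • y = 0 := by
    obtain ⟨c, hc'⟩ := hm
    rw [hc', mul_comm, mul_smul, he', smul_zero]
  rw [h5] at h4
  have h6 := congrArg (D.ρ η⁻¹) h4
  rwa [D.ρ_inv_apply, map_zero] at h6

end Pool.TFN
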