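import Mathlib
import Pool.Agent.TFN.DerX
import Pool.Agent.TFR.Line
import Pool.Agent.TFR.Thin

/-!
# A nilpotency lemma
-/

set_option autoImplicit false

namespace Pool.TFN

open Cardinal Pool.TFR Polynomial

/-- values of the reversed polynomial -/
theorem finite_eval {P : ℤ[X]} (hP : P ≠ 0) : {n : ℕ | P.eval (-(n : ℤ)) = 0}.Finite := by
  have h1 : (P.rootSet ℤ).Finite := P.rootSet_finite ℤ
  refine (h1.preimage (f := fun n : ℕ => -(n : ℤ)) ?_).subset (fun n hn => ?_)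
  · intro a _ b _ hab
    have : (a : ℤ) = b := neg_injective hab
    exact_mod_cast this
  · change -(n : ℤ) ∈ P.rootSet ℤ
    rw [mem_rootSet]
    refine ⟨hP, ?_⟩
    rw [coe_aeval_eq_eval]
    exact hn

theorem eval_large {F : ℤ[X]} (h0 : F.coeff 0 ≠ 0) (hdeg : 0 < F.natDegree) :
    ∃ N : ℕ, 0 < N ∧ ∀ n, N ≤ n → 2 ≤ (F.reverse.eval (-(n : ℤ))).natAbs := by
  have hd : 0 < F.reverse.natDegree := by
    rw [reverse_natDegree]
    have : F.natTrailingDegree = 0 := natTrailingDegree_eq_zero.2 (Or.inr h0)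
    omega
  have hne : ∀ c : ℤ, F.reverse - C c ≠ 0 := by
    intro c hc
    rw [sub_eq_zero] at hc
    rw [hc, natDegree_C] at hd
    exact lt_irrefl _ hd
  have hfin : ∀ c : ℤ, {n : ℕ | F.reverse.eval (-(n : ℤ)) = c}.Finite := by
    intro c
    refine (finite_eval (hne c)).subset (fun n hn => ?_)
    change (F.reverse - C c).eval (-(n : ℤ)) = 0
    rw [eval_sub, eval_C]
    exact sub_eq_zero.2 hn
  obtain ⟨N, hN⟩ := (((hfin 0).union (hfin 1)).union (hfin (-1))).bddAbove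
  refine ⟨N + 1, Nat.succ_pos _, fun n hn => ?_⟩
  by_contra hcon
  have h1 : F.reverse.eval (-(n : ℤ)) = 0 ∨ F.reverse.eval (-(n : ℤ)) = 1 ∨
      F.reverse.eval (-(n : ℤ)) = -1 := by omega
  have h2 : n ≤ N := by
    refine hN ?_
    rcases h1 with h | h | h
    · exact Or.inl (Or.inl h)
    · exact Or.inl (Or.inr h)
    · exact Or.inr h
  omega

theorem exists_seq {F : ℤ[X]} (hF : F.Monic) (h0 : F.coeff 0 ≠ 0) (hdeg : 0 < F.natDegree) :
    ∃ f : ℕ → ℕ, (∀ i, ∃ q : ℕ, q.Prime ∧ ¬ q ∣ f i ∧ (q : ℤ) ∣ F.reverse.eval (-(f i : ℤ))) ∧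
      ∀ i j, i < j → F.reverse.eval (-(f i : ℤ)) ∣ (f j : ℤ) := by
  obtain ⟨N, hN0, hN⟩ := eval_large h0 hdeg
  let f : ℕ → ℕ := fun i => Nat.rec (motive := fun _ => ℕ) N
    (fun _ x => x * (F.reverse.eval (-(x : ℤ))).natAbs) i
  have fs : ∀ i : ℕ, f (i + 1) = f i * (F.reverse.eval (-((f i : ℕ) : ℤ))).natAbs := by
    intro i
    rfl
  have hf : ∀ i, N ≤ f i := by
    intro i
    induction i with
    | zero => exact le_rfl
    | succ i ih =>
      rw [fs]
      have := hN _ ih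
      nlinarith
  refine ⟨f, fun i => ?_, fun i j hij => ?_⟩
  · have h2 := hN _ (hf i)
    obtain ⟨q, hq, hqd⟩ := Nat.exists_prime_and_dvd
      (n := (F.reverse.eval (-(f i : ℤ))).natAbs) (by omega)
    refine ⟨q, hq, fun hqn => ?_, Int.natCast_dvd.2 hqd⟩
    have h3 : (q : ℤ) ∣ F.reverse.eval (-(f i : ℤ)) := Int.natCast_dvd.2 hqd
    have h4 := Polynomial.sub_dvd_eval_sub (-(f i : ℤ)) 0 F.reverse
    have h5 : F.reverse.eval 0 = 1 := by
      rw [← coeff_zero_eq_eval_zero, coeff_zero_reverse]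
      exact hF
    rw [h5, sub_zero, neg_dvd] at h4
    have h6 : (q : ℤ) ∣ F.reverse.eval (-(f i : ℤ)) - 1 :=
      dvd_trans (by exact_mod_cast hqn) h4
    have h7 : (q : ℤ) ∣ 1 := by
      have := dvd_sub h3 h6
      rwa [sub_sub_cancel] at this
    exact hq.one_lt.ne' (by exact_mod_cast Int.eq_one_of_dvd_one (by positivity) h7)
  · obtain ⟨d, rfl⟩ : ∃ d, j = i + 1 + d := ⟨j - (i + 1), by omega⟩
    induction d with
    | zero =>
      rw [add_zero, fs]
      push_cast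
      exact dvd_mul_of_dvd_right ((dvd_abs _ _).2 dvd_rfl) _
    | succ d ih =>
      have : f (i + 1 + (d + 1)) = f (i + 1 + d) *
        (F.reverse.eval (-(f (i + 1 + d) : ℤ))).natAbs := fs _
      rw [this]
      push_cast
      exact Dvd.dvd.mul_right (ih (by omega)) _

theorem dvd_eval {k : Type} [CommRing k] {x : k} {F : ℤ[X]} (hx : aeval x F = 0) (n : ℕ) :
    1 + (n : k) * x ∣ ((F.reverse.eval (-(n : ℤ)) : ℤ) : k) := by
  rw [← Ideal.mem_span_singleton, ← Ideal.Quotient.eq_zero_iff_mem]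
  set I : Ideal k := Ideal.span {1 + (n : k) * x} with hI
  set y : k ⧸ I := Ideal.Quotient.mk I x with hy
  have h1 : (1 : k ⧸ I) + n * y = 0 := by
    have : Ideal.Quotient.mk I (1 + (n : k) * x) = 0 :=
      Ideal.Quotient.eq_zero_iff_mem.2 (Ideal.mem_span_singleton_self _)
    rwa [map_add, map_one, map_mul, map_natCast] at this
  let i1 : Invertible y :=
    { invOf := -(n : k ⧸ I)
      invOf_mul_self := by linear_combination (-1 : k ⧸ I) * h1
      mul_invOf_self := by linear_combination (-1 : k ⧸ I) * h1 }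
  have h2 := (eval₂_reverse_eq_zero_iff (Int.castRingHom (k ⧸ I)) y F).2 (by
    have h3 := congrArg (Ideal.Quotient.mk I) hx
    rw [map_zero, aeval_def, hom_eval₂] at h3
    rw [← h3]
    congr 1)
  have h3 : ⅟y = Int.castRingHom (k ⧸ I) (-(n : ℤ)) := by
    change -(n : k ⧸ I) = _
    rw [map_neg, map_natCast]
  rw [h3, eval₂_at_apply] at h2
  rw [map_intCast]
  exact h2

theorem not_unit {K : Type} [Field K] [CharZero K] {t : K} (ht : IsIntegral ℤ t) {n q : ℕ}
    (hq : q.Prime) (hqn : ¬ q ∣ n) (hd : (q : ℤ) ∣ (minpoly ℤ t).reverse.eval (-(n : ℤ)))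
    (g : ℤ[X]) : (1 + (n : K) * t) * aeval t g ≠ 1 := by
  intro hg
  have := Fact.mk hq
  have h1 : aeval t ((1 + C (n : ℤ) * X) * g - 1) = 0 := by
    rw [map_sub, map_mul, map_add, map_mul, map_one, aeval_C, aeval_X]
    have : (algebraMap ℤ K) (n : ℤ) = (n : K) := by simp
    rw [this, hg, sub_self]
  have h2 := minpoly.isIntegrallyClosed_dvd ht h1
  set y : ZMod q := -(n : ZMod q) with hy
  have hy0 : y ≠ 0 := by
    rw [hy, neg_ne_zero]
    intro h
    exact hqn ((ZMod.natCast_eq_zero_iff _ _).1 h)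
  have hx0 : y⁻¹ ≠ 0 := inv_ne_zero hy0
  let i1 : Invertible (y⁻¹) :=
    { invOf := y
      invOf_mul_self := mul_inv_cancel₀ hy0
      mul_invOf_self := inv_mul_cancel₀ hy0 }
  have h3 := (eval₂_reverse_eq_zero_iff (Int.castRingHom (ZMod q)) (y⁻¹) (minpoly ℤ t)).1 (by
    have h4 : ⅟(y⁻¹) = Int.castRingHom (ZMod q) (-(n : ℤ)) := by
      change y = _
      rw [map_neg, map_natCast]
    rw [h4, eval₂_at_apply]
    exact (ZMod.intCast_zmod_eq_zero_iff_dvd _ _).2 hd)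
  obtain ⟨c, hc⟩ := h2
  have h5 := congrArg (eval₂ (Int.castRingHom (ZMod q)) (y⁻¹)) hc
  rw [eval₂_mul, h3, zero_mul, eval₂_sub, eval₂_mul, eval₂_add, eval₂_mul, eval₂_one, eval₂_C,
    eval₂_X] at h5
  have h6 : (1 : ZMod q) + (Int.castRingHom (ZMod q)) (n : ℤ) * y⁻¹ = 0 := by
    rw [map_natCast]
    have : (n : ZMod q) = -y := by rw [hy, neg_neg]
    rw [this, neg_mul, mul_inv_cancel₀ hy0]
    ring
  rw [h6, zero_mul, zero_sub, neg_eq_zero] at h5
  exact one_ne_zero h5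

end Pool.TFN
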