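import Mathlib
import Pool.Agent.TFN.NilL

/-!
# The nilpotency lemma
-/

set_option autoImplicit false

namespace Pool.TFN

open Cardinal Pool.TFR Polynomial

theorem ringHom_eq_aeval {K : Type} [Field K] (φ : ℤ[X] →+* K) (s : ℤ[X]) :
    aeval (φ X) s = φ s := by
  have h : φ.toIntAlgHom = aeval (φ X) := by
    refine algHom_ext ?_
    rw [aeval_X]
    rfl
  exact (DFunLike.congr_fun h s).symm

theorem minpoly_coeff_ne {K : Type} [Field K] [CharZero K] {t : K} (ht : IsIntegral ℤ t)
    (h0 : t ≠ 0) : (minpoly ℤ t).coeff 0 ≠ 0 := by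
  intro h
  obtain ⟨G, hG⟩ := X_dvd_iff.2 h
  have h1 : aeval t G = 0 := by
    have := minpoly.aeval ℤ t
    rw [hG, map_mul, aeval_X] at this
    exact (mul_eq_zero.1 this).resolve_left h0
  obtain ⟨c, hc⟩ := minpoly.isIntegrallyClosed_dvd ht h1
  have hG0 : G ≠ 0 := by
    rintro rfl
    rw [mul_zero] at hG
    exact (minpoly.monic ht).ne_zero hG
  rw [hG] at hc
  have h2 : G * 1 = G * (X * c) := by rw [mul_one]; rw [← mul_assoc, mul_comm G X]; exact hc
  exact not_isUnit_X (IsUnit.of_mul_eq_one _ (mul_left_cancel₀ hG0 h2).symm)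

theorem coprime_aux (a b u v : ℚ) : (C a * (1 + C u * X) + C b * (1 + C v * X) : ℚ[X]) =
    C (a + b) + C (a * u + b * v) * X := by
  rw [C_add, C_add, C_mul, C_mul]; ring

theorem exists_hom {E : Type} [AddCommGroup E] (hE : TF E) (ε : Module.End ℤ E) (d : E)
    (hd : ∀ k : ℕ, (ε ^ k) d ≠ 0) :
    ∃ (K : Type) (_ : Field K) (_ : CharZero K) (β : K), β ≠ 0 ∧
      ∀ s : ℤ[X], aeval ε s d = 0 → aeval β s = 0 := by
  let I : Ideal ℤ[X] :=
    { carrier := {s | aeval ε s d = 0}
      add_mem' := by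
        intro a b ha hb
        change aeval ε (a + b) d = 0
        rw [map_add, LinearMap.add_apply]
        have ha' : aeval ε a d = 0 := ha
        have hb' : aeval ε b d = 0 := hb
        rw [ha', hb', add_zero]
      zero_mem' := by
        change aeval ε (0 : ℤ[X]) d = 0
        rw [map_zero]; rfl
      smul_mem' := by
        intro c a ha
        change aeval ε (c * a) d = 0
        have ha' : aeval ε a d = 0 := ha
        rw [map_mul, Module.End.mul_apply, ha', map_zero] }
  let S : Submonoid ℤ[X] :=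
    { carrier := {s | ∃ (n : ℤ) (k : ℕ), n ≠ 0 ∧ s = C n * X ^ k}
      one_mem' := ⟨1, 0, one_ne_zero, by simp⟩
      mul_mem' := by
        rintro _ _ ⟨n, k, hn, rfl⟩ ⟨n', k', hn', rfl⟩
        exact ⟨n * n', k + k', mul_ne_zero hn hn', by rw [C_mul, pow_add]; ring⟩ }
  obtain ⟨P, hP, hIP, hPS⟩ := Ideal.exists_le_prime_disjoint I S (by
    rw [Set.disjoint_left]
    rintro _ hs ⟨n, k, hn, rfl⟩
    have h1 : aeval ε (C n * X ^ k) d = 0 := hs
    rw [map_mul, map_pow, aeval_X, aeval_C, Module.End.mul_apply] at h1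
    have h2 : n • (ε ^ k) d = 0 := h1
    exact hd k (hE n hn _ h2))
  have hdom : IsDomain (ℤ[X] ⧸ P) := inferInstance
  let φ : ℤ[X] →+* FractionRing (ℤ[X] ⧸ P) :=
    (algebraMap (ℤ[X] ⧸ P) (FractionRing (ℤ[X] ⧸ P))).comp (Ideal.Quotient.mk P)
  have hφ : ∀ s, φ s = 0 → s ∈ P := by
    intro s hs
    have h1 : algebraMap (ℤ[X] ⧸ P) (FractionRing (ℤ[X] ⧸ P)) (Ideal.Quotient.mk P s) = 0 := hs
    rw [IsFractionRing.to_map_eq_zero_iff] at h1
    exact Ideal.Quotient.eq_zero_iff_mem.1 h1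
  have hS : ∀ (n : ℤ) (k : ℕ), n ≠ 0 → φ (C n * X ^ k) ≠ 0 := by
    intro n k hn h
    exact Set.disjoint_left.1 hPS (hφ _ h) ⟨n, k, hn, rfl⟩
  refine ⟨FractionRing (ℤ[X] ⧸ P), inferInstance, ?_, φ X, ?_, ?_⟩
  · refine charZero_of_inj_zero (fun n hn => ?_)
    by_contra hn0
    refine hS n 0 (by exact_mod_cast hn0) ?_
    rw [pow_zero, mul_one]
    have : (C (n : ℤ) : ℤ[X]) = ((n : ℕ) : ℤ[X]) := by simp
    rw [this, map_natCast, hn]
  · have := hS 1 1 one_ne_zero
    rwa [map_one, one_mul, pow_one] at this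
  · intro s hs
    rw [ringHom_eq_aeval]
    have h1 : s ∈ P := hIP hs
    change algebraMap (ℤ[X] ⧸ P) (FractionRing (ℤ[X] ⧸ P)) (Ideal.Quotient.mk P s) = 0
    rw [Ideal.Quotient.eq_zero_iff_mem.2 h1, map_zero]

theorem comm_aeval {E : Type} [AddCommGroup E] {a ε : Module.End ℤ E} (h : Commute a ε)
    (s : ℤ[X]) : a * aeval ε s = aeval ε s * a := by
  refine Polynomial.induction_on' s (fun p q hp hq => ?_) (fun n c => ?_)
  · rw [map_add, mul_add, add_mul, hp, hq]
  · rw [aeval_monomial]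
    have h1 : Commute a ((algebraMap ℤ (Module.End ℤ E)) c) := (Algebra.commutes c a).symm
    exact (h1.mul_right (h.pow_right n)).eq

/-- **The nilpotency lemma.** -/
theorem nilp {Λ E : Type} [CommGroup Λ] [AddCommGroup E] (hr : ra Λ < ℵ₀) (hE : TF E)
    (ρ : Λ →* Module.End ℤ E) (ε : Module.End ℤ E) (hc : ∀ a, Commute (ρ a) ε) (d : E)
    (h : ∀ n : ℕ, ∃ a, ρ a d = d + n • ε d) : ∃ k : ℕ, (ε ^ k) d = 0 := by
  by_contra hcon
  push Not at hcon
  obtain ⟨K, _, _, β, hβ0, hβ⟩ := exists_hom hE ε d hcon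
  choose a ha using h
  have hr' : r0 Λ < ℵ₀ := by rw [r0_comm]; exact hr
  have haev : ∀ (n : ℕ) (η : Module.End ℤ E), aeval η (1 + C (n : ℤ) * X) d = d + n • η d := by
    intro n η
    rw [map_add, map_mul, map_one, aeval_X, aeval_C, LinearMap.add_apply, Module.End.mul_apply]
    congr 1
    change ((n : ℤ) • (η d)) = _
    rw [natCast_zsmul]
  by_cases htr : Transcendental ℤ β
  · -- the transcendental case
    rw [transcendental_iff] at htr
    have hmap : ∀ n : ℕ, (mapRingHom (Int.castRingHom ℚ)) (1 + C ((n + 1 : ℕ) : ℤ) * X) =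
        1 + C ((n : ℚ) + 1) * X := by
      intro n
      rw [coe_mapRingHom, Polynomial.map_add, Polynomial.map_mul, Polynomial.map_one, map_C,
        map_X]
      congr 3
      simp
    have hdeg : ∀ n : ℕ, (1 + C ((n : ℚ) + 1) * X).natDegree = 1 := by
      intro n
      rw [add_comm, ← C_1]
      exact natDegree_linear (by positivity)
    refine line_trick (κ := mapRingHom (Int.castRingHom ℚ))
      (ψ := ((aeval ε : ℤ[X] →ₐ[ℤ] Module.End ℤ E) : ℤ[X] →+* Module.End ℤ E)) (ρ := ρ) (P := ⊤)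
      (v := d) hr' (fun q _ r => comm_aeval (hc q) r) (fun s hs => ?_) 1
      (fun n => 1 + C ((n + 1 : ℕ) : ℤ) * X) (fun n => a (n + 1)) (fun _ => trivial) (fun n => ?_)
      ?_ ?_ ?_ ?_ ?_
    · rw [htr s (hβ s hs), map_zero]
    · change ρ (a (n + 1)) (aeval ε (1 : ℤ[X]) d) = aeval ε (1 + C ((n + 1 : ℕ) : ℤ) * X) d
      rw [haev, map_one]
      exact ha _
    · rw [map_one]; exact one_ne_zero
    · intro n
      rw [hmap]
      intro h0
      have := hdeg n
      rw [h0, natDegree_zero] at this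
      exact zero_ne_one this
    · intro n
      rw [map_one]
      exact isCoprime_one_right
    · intro i j hij
      rw [hmap, hmap]
      have hne : (j : ℚ) - i ≠ 0 := by
        rw [sub_ne_zero]
        exact_mod_cast hij.symm
      refine ⟨C (((j : ℚ) + 1) / (j - i)), C (-((i : ℚ) + 1) / (j - i)), ?_⟩
      have e2 : ((j : ℚ) + 1) / (j - i) + -((i : ℚ) + 1) / (j - i) = 1 := by
        field_simp; ring
      have e3 : ((j : ℚ) + 1) / (j - i) * ((i : ℚ) + 1) +
            -((i : ℚ) + 1) / (j - i) * ((j : ℚ) + 1) = 0 := by ring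
      rw [coprime_aux, e2, e3, C_0, C_1, zero_mul, add_zero]
    · intro n
      rw [hmap]
      exact Polynomial.not_isUnit_of_natDegree_pos _ (by rw [hdeg]; exact one_pos)
  · -- the algebraic case
    have halg : IsAlgebraic ℤ β := not_not.1 htr
    obtain ⟨l, hl, hint⟩ : ∃ l : ℕ, l ≠ 0 ∧ IsIntegral ℤ ((l : K) * β) := by
      obtain ⟨y, hy, hint⟩ := halg.exists_integral_multiple
      refine ⟨y.natAbs, Int.natAbs_ne_zero.2 hy, ?_⟩
      rcases Int.natAbs_eq y with h1 | h1
      · rw [h1, zsmul_eq_mul] at hint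
        simpa using hint
      · rw [h1, zsmul_eq_mul] at hint
        have := hint.neg
        simpa using this
    set t : K := (l : K) * β with ht
    have ht0 : t ≠ 0 := mul_ne_zero (by exact_mod_cast hl) hβ0
    obtain ⟨f, hf1, hf2⟩ := exists_seq (minpoly.monic hint)
      (minpoly_coeff_ne hint ht0) (minpoly.natDegree_pos hint)
    let κ : ℤ[X] →+* ↥(aeval t : ℤ[X] →ₐ[ℤ] K).range := (aeval t : ℤ[X] →ₐ[ℤ] K).rangeRestrict
    have hκ : ∀ s, ((κ s : ↥(aeval t : ℤ[X] →ₐ[ℤ] K).range) : K) = aeval t s := fun s => rfl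
    have hκg : ∀ i, κ (1 + C (f i : ℤ) * X) = 1 + (f i : ↥(aeval t : ℤ[X] →ₐ[ℤ] K).range) * κ X := by
      intro i
      rw [map_add, map_mul, map_one]
      congr 2
      exact map_natCast (κ.comp C) (f i)
    have hnu : ∀ i, ¬ IsUnit (κ (1 + C (f i : ℤ) * X)) := by
      intro i hu
      obtain ⟨q, hq, hqn, hd⟩ := hf1 i
      obtain ⟨⟨w, g, hg⟩, hw⟩ := hu.exists_right_inv
      refine not_unit hint hq hqn hd g ?_
      have h1 := congrArg Subtype.val hw
      have h2 : (aeval t (1 + C (f i : ℤ) * X) : K) * w = 1 := h1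
      have hg' : aeval t g = w := hg
      rw [map_add, map_mul, map_one, aeval_X, aeval_C] at h2
      have : (algebraMap ℤ K) (f i : ℤ) = (f i : K) := by simp
      rw [hg', ← this]
      exact h2
    refine line_trick (κ := κ)
      (ψ := ((aeval ((l : ℤ) • ε) : ℤ[X] →ₐ[ℤ] Module.End ℤ E) : ℤ[X] →+* Module.End ℤ E))
      (ρ := ρ) (P := ⊤) (v := d) hr'
      (fun q _ r => comm_aeval ((hc q).smul_right _) r) (fun s hs => ?_) 1
      (fun n => 1 + C (f n : ℤ) * X) (fun n => a (f n * l)) (fun _ => trivial) (fun n => ?_)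
      ?_ ?_ ?_ ?_ hnu
    · have h1 : aeval ε (s.comp (C (l : ℤ) * X)) d = 0 := by
        rw [aeval_comp]
        have : aeval ε (C (l : ℤ) * X) = (l : ℤ) • ε := by
          rw [map_mul, aeval_X, aeval_C]
          rfl
        rw [this]
        exact hs
      have h2 := hβ _ h1
      rw [aeval_comp] at h2
      have h3 : aeval β (C (l : ℤ) * X) = t := by
        rw [map_mul, aeval_X, aeval_C, ht]
        simp
      rw [h3] at h2
      exact Subtype.ext h2
    · change ρ (a (f n * l)) (aeval ((l : ℤ) • ε) (1 : ℤ[X]) d) =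
        aeval ((l : ℤ) • ε) (1 + C (f n : ℤ) * X) d
      rw [haev, map_one]
      change ρ (a (f n * l)) d = _
      rw [ha, mul_smul, LinearMap.smul_apply, natCast_zsmul]
    · rw [map_one]; exact one_ne_zero
    · intro i h0
      -- zero is excluded by the divisibility
      have hd := dvd_eval (x := t) (F := minpoly ℤ t) (minpoly.aeval ℤ t) (f i)
      have h1 : (1 : K) + (f i : K) * t = 0 := by
        have := congrArg Subtype.val h0
        have h2 : (aeval t (1 + C (f i : ℤ) * X) : K) = 0 := this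
        rw [map_add, map_mul, map_one, aeval_X, aeval_C] at h2
        simpa using h2
      rw [h1, zero_dvd_iff] at hd
      have h3 : (minpoly ℤ t).reverse.eval (-(f i : ℤ)) = 0 := by exact_mod_cast hd
      have h4 := hf2 i (i + 1) (Nat.lt_succ_self i)
      rw [h3, zero_dvd_iff] at h4
      obtain ⟨q, hq, hqn, -⟩ := hf1 (i + 1)
      exact hqn (by
        have : f (i + 1) = 0 := by exact_mod_cast h4
        rw [this]; exact dvd_zero _)
    · intro n
      rw [map_one]
      exact isCoprime_one_right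
    · have core : ∀ i j, i < j → IsCoprime (κ (1 + C (f i : ℤ) * X)) (κ (1 + C (f j : ℤ) * X)) := by
        intro i j hij
        rw [hκg, hκg]
        have hx : aeval (κ X) (minpoly ℤ t) = 0 := by
          refine Subtype.ext ?_
          have h1 : ((aeval (κ X) (minpoly ℤ t) : ↥(aeval t : ℤ[X] →ₐ[ℤ] K).range) : K) =
              aeval (((κ X : ↥(aeval t : ℤ[X] →ₐ[ℤ] K).range) : K)) (minpoly ℤ t) :=
            (Polynomial.aeval_algHom_apply (aeval t : ℤ[X] →ₐ[ℤ] K).range.val (κ X) _).symm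
          rw [h1, hκ, aeval_X, minpoly.aeval]
          rfl
        obtain ⟨w, hw⟩ := dvd_eval hx (f i)
        obtain ⟨c, hc'⟩ := hf2 i j hij
        have h2 : (f j : ↥(aeval t : ℤ[X] →ₐ[ℤ] K).range) =
            (1 + (f i : ↥(aeval t : ℤ[X] →ₐ[ℤ] K).range) * κ X) * w * c := by
          rw [← hw, ← Int.cast_mul, ← hc', Int.cast_natCast]
        refine ⟨-(w * c * κ X), 1, ?_⟩
        rw [h2]; ring
      intro i j hij
      rcases Nat.lt_or_gt_of_ne hij with h1 | h1
      · exact core i j h1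
      · exact (core j i h1).symm

end Pool.TFN
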