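import Mathlib
import Pool.Agent.TFN.Nilp

/-!
# Derivations of commutative groups whose values contain a generating submonoid
-/

set_option autoImplicit false

namespace Pool.TFN

open Cardinal Pool.TFR Polynomial

theorem rank_nilp (k : ℕ) : ∀ (W : Type) [AddCommGroup W] (f : Module.End ℤ W), f ^ k = 0 →
    Module.rank ℤ W ≤ k * Module.rank ℤ (W ⧸ LinearMap.range f) := by
  induction k with
  | zero =>
    intro W _ f hf
    have hsub : Subsingleton W := ⟨fun a b => by
      have h1 : ∀ x : W, x = 0 := fun x => by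
        have := LinearMap.congr_fun hf x
        rwa [pow_zero] at this
      rw [h1 a, h1 b]⟩
    rw [rank_subsingleton']
    exact zero_le
  | succ k ih =>
    intro W _ f hf
    let f1 : Module.End ℤ ↥(LinearMap.range f) := f.restrict (fun x _ => ⟨x, rfl⟩)
    have h1 : ∀ (n : ℕ) (x : ↥(LinearMap.range f)), ((f1 ^ n) x : W) = (f ^ n) x.1 := by
      intro n
      induction n with
      | zero => intro x; rfl
      | succ n ihn =>
        intro x
        rw [pow_succ, pow_succ, Module.End.mul_apply, Module.End.mul_apply, ihn]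
        rfl
    have h2 : f1 ^ k = 0 := by
      refine LinearMap.ext (fun x => Subtype.ext ?_)
      rw [h1]
      obtain ⟨x, w, rfl⟩ := x
      have := LinearMap.congr_fun hf w
      rw [pow_succ, Module.End.mul_apply] at this
      exact this
    have h3 := ih _ f1 h2
    let g : W →ₗ[ℤ] ↥(LinearMap.range f) ⧸ LinearMap.range f1 :=
      (LinearMap.range f1).mkQ.comp f.rangeRestrict
    have hg : LinearMap.range f ≤ LinearMap.ker g := by
      rintro _ ⟨w, rfl⟩
      rw [LinearMap.mem_ker]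
      change Submodule.Quotient.mk _ = _
      rw [Submodule.Quotient.mk_eq_zero]
      exact ⟨f.rangeRestrict w, rfl⟩
    have hgs : Function.Surjective ((LinearMap.range f).liftQ g hg) := by
      intro y
      obtain ⟨⟨x, w, rfl⟩, rfl⟩ := Submodule.Quotient.mk_surjective _ y
      exact ⟨Submodule.Quotient.mk w, rfl⟩
    have h4 := LinearMap.rank_le_of_surjective _ hgs
    have h5 := rank_quotient_add_rank_of_isDomain (LinearMap.range f)
    rw [← h5]
    push_cast
    rw [add_mul, one_mul, add_comm]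
    exact add_le_add (h3.trans (mul_le_mul_right h4 _)) le_rfl

/-- a generating submonoid of values -/
structure PreD {Λ E : Type} [Group Λ] [AddCommGroup E] (D : Der Λ E) (S : AddSubmonoid E) :
    Prop where
  inv : ∀ a, ∀ d ∈ S, D.ρ a d ∈ S
  val : ∀ d ∈ S, ∃ a, D.π a = d
  gen : ∀ x, ∃ d ∈ S, ∃ d' ∈ S, x = d - d'

theorem PreD.quot {Λ E : Type} [Group Λ] [AddCommGroup E] {D : Der Λ E} {S : AddSubmonoid E}
    (h : PreD D S) {W : Submodule ℤ E} (hW : D.Inv W) :
    PreD (D.quot hW) (S.map (W.mkQ : E →+ E ⧸ W)) where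
  inv a := by
    rintro _ ⟨d, hd, rfl⟩
    exact ⟨D.ρ a d, h.inv a d hd, rfl⟩
  val := by
    rintro _ ⟨d, hd, rfl⟩
    obtain ⟨a, rfl⟩ := h.val d hd
    exact ⟨a, rfl⟩
  gen x := by
    obtain ⟨x, rfl⟩ := Submodule.Quotient.mk_surjective _ x
    obtain ⟨d, hd, d', hd', rfl⟩ := h.gen x
    exact ⟨_, ⟨d, hd, rfl⟩, _, ⟨d', hd', rfl⟩, rfl⟩

theorem PreD.desc {Λ Λ' E : Type} [Group Λ] [Group Λ'] [AddCommGroup E] {D : Der Λ E}
    {S : AddSubmonoid E} (h : PreD D S) (f : Λ →* Λ') (hf : Function.Surjective f)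
    (h1 : ∀ g, f g = 1 → D.ρ g = 1) (h2 : ∀ g, f g = 1 → D.π g = 0) :
    PreD (TFN.desc D f hf h1 h2) S where
  inv a d hd := by
    obtain ⟨a, rfl⟩ := hf a
    rw [(desc_key a).1]
    exact h.inv a d hd
  val d hd := by
    obtain ⟨a, rfl⟩ := h.val d hd
    exact ⟨f a, (desc_key a).2⟩
  gen := h.gen

theorem tf_quot (M : Type) [AddCommGroup M] : TF (M ⧸ Der.tors M) := by
  intro n hn x hx
  obtain ⟨m, rfl⟩ := Submodule.Quotient.mk_surjective _ x
  rw [← Submodule.Quotient.mk_smul, Submodule.Quotient.mk_eq_zero] at hx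
  obtain ⟨k, hk, hkm⟩ := hx
  rw [Submodule.Quotient.mk_eq_zero]
  refine ⟨k * n.natAbs, Nat.mul_pos hk (Int.natAbs_pos.2 hn), ?_⟩
  rcases Int.natAbs_eq n with h1 | h1
  · rw [Nat.cast_mul, ← h1, mul_smul]; exact hkm
  · have : ((n.natAbs : ℕ) : ℤ) = -n := by omega
    rw [Nat.cast_mul, this, mul_smul, neg_smul, smul_neg, hkm, neg_zero]

section Orbit

variable {Λ E : Type} [CommGroup Λ] [AddCommGroup E] (D : Der Λ E)

/-- the submodule generated by an orbit -/
def orb (d : E) : Submodule ℤ E := Submodule.span ℤ (Set.range (fun a => D.ρ a d))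

theorem mem_orb (d : E) : d ∈ orb D d := by
  refine Submodule.subset_span ⟨1, ?_⟩
  change D.ρ 1 d = d
  rw [map_one]; rfl

theorem ρ_comm (a b : Λ) (x : E) : D.ρ a (D.ρ b x) = D.ρ b (D.ρ a x) := by
  rw [← Module.End.mul_apply, ← Module.End.mul_apply, ← map_mul, ← map_mul, mul_comm]

theorem inv_orb (d : E) : D.Inv (orb D d) := by
  intro a m hm
  refine Submodule.span_induction (p := fun m _ => D.ρ a m ∈ orb D d) ?_ ?_ ?_ ?_ hm
  · rintro _ ⟨b, rfl⟩
    refine Submodule.subset_span ⟨a * b, ?_⟩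
    change D.ρ (a * b) d = D.ρ a (D.ρ b d)
    rw [map_mul]; rfl
  · rw [map_zero]; exact Submodule.zero_mem _
  · intro x y _ _ hx hy
    rw [map_add]; exact Submodule.add_mem _ hx hy
  · intro c x _ hx
    rw [map_smul]; exact Submodule.smul_mem _ _ hx

theorem trivial_mod {S : AddSubmonoid E} (h : PreD D S) {W : Submodule ℤ E} (hW : D.Inv W)
    {a : Λ} (ha : D.π a ∈ W) (x : E) : D.ρ a x - x ∈ W := by
  have key : ∀ d ∈ S, D.ρ a d - d ∈ W := by
    intro d hd
    obtain ⟨b, rfl⟩ := h.val d hd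
    rw [basic (show D.π (b * a) = D.π (a * b) by rw [mul_comm])]
    exact W.sub_mem (hW _ _ ha) ha
  obtain ⟨d, hd, d', hd', rfl⟩ := h.gen x
  have e : D.ρ a (d - d') - (d - d') = (D.ρ a d - d) - (D.ρ a d' - d') := by
    rw [map_sub]; abel
  rw [e]
  exact W.sub_mem (key d hd) (key d' hd')

theorem orb_rank {S : AddSubmonoid E} (h : PreD D S) (hr : ra Λ < ℵ₀) (hE : TF E) {d : E}
    (hd : d ∈ S) (hd0 : d ≠ 0) :
    Module.rank ℤ (orb D d) < ℵ₀ ∧ ra ↥(D.stab (inv_orb D d)) ≠ 0 := by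
  obtain ⟨γ, rfl⟩ := h.val d hd
  set d : E := D.π γ with hdef
  set ε : Module.End ℤ E := D.ρ γ - 1 with hε
  have hεa : ∀ x, ε x = D.ρ γ x - x := fun x => rfl
  have hcm : ∀ a, Commute (D.ρ a) ε := by
    intro a
    have h1 : Commute (D.ρ a) (D.ρ γ) := by
      change D.ρ a * D.ρ γ = D.ρ γ * D.ρ a
      rw [← map_mul, ← map_mul, mul_comm]
    exact h1.sub_right (Commute.one_right _)
  obtain ⟨k, hk⟩ := nilp hr hE D.ρ ε hcm d (fun n => by
    obtain ⟨a, ha⟩ := h.val (n • d) (S.nsmul_mem hd n)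
    refine ⟨a, ?_⟩
    have h1 := basic (show D.π (a * γ) = D.π (γ * a) by rw [mul_comm])
    rw [ha, ← hdef] at h1
    have h2 : n • ε d = D.ρ γ (n • d) - n • d := by
      rw [hεa, map_nsmul, smul_sub]
    rw [h2, h1]; abel)
  set W := orb D d with hWdef
  have hW : D.Inv W := inv_orb D d
  have hεW : ∀ x ∈ W, ε x ∈ W := fun x hx => W.sub_mem (hW _ _ hx) hx
  let f : Module.End ℤ ↥W := ε.restrict hεW
  have hfa : ∀ x : ↥W, ((f x : ↥W) : E) = ε x.1 := fun x => rfl
  have hfp : ∀ (n : ℕ) (x : ↥W), (((f ^ n) x : ↥W) : E) = (ε ^ n) x.1 := by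
    intro n
    induction n with
    | zero => intro x; rfl
    | succ n ihn =>
      intro x
      rw [pow_succ, pow_succ, Module.End.mul_apply, Module.End.mul_apply, ihn, hfa]
  have hfk : f ^ k = 0 := by
    refine LinearMap.ext (fun x => Subtype.ext ?_)
    rw [hfp]
    change (ε ^ k) x.1 = 0
    refine Submodule.span_induction (p := fun m _ => (ε ^ k) m = 0) ?_ ?_ ?_ ?_ x.2
    · rintro _ ⟨a, rfl⟩
      have h1 : D.ρ a * ε ^ k = ε ^ k * D.ρ a := ((hcm a).pow_right k).eq
      change (ε ^ k) (D.ρ a d) = 0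
      rw [← Module.End.mul_apply, ← h1, Module.End.mul_apply, hk, map_zero]
    · exact map_zero _
    · intro x y _ _ hx hy
      rw [map_add, hx, hy, add_zero]
    · intro c x _ hx
      rw [map_smul, hx, smul_zero]
  have hinv : (D.sub hW).Inv (LinearMap.range f) := by
    rintro q _ ⟨w, rfl⟩
    refine ⟨(D.sub hW).ρ q w, Subtype.ext ?_⟩
    change ε (D.ρ q.1 w.1) = D.ρ q.1 (ε w.1)
    rw [← Module.End.mul_apply, ← (hcm q.1).eq, Module.End.mul_apply]
  have hrk := rank_nilp k ↥W f hfk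
  -- the derivation with values in the quotient
  let D1 := (D.sub hW).quot hinv
  have hN : ∀ c ∈ D1.ρ.ker, D1.ρ c = 1 := fun c hc => MonoidHom.mem_ker.1 hc
  have htop : valN D1 D1.ρ.ker hN = ⊤ := by
    rw [eq_top_iff]
    intro y _
    obtain ⟨w, rfl⟩ := Submodule.Quotient.mk_surjective _ y
    obtain ⟨w, hw⟩ := w
    refine Submodule.span_induction (p := fun m hm => Submodule.Quotient.mk (⟨m, hm⟩ : ↥W) ∈
      valN D1 D1.ρ.ker hN) ?_ ?_ ?_ ?_ hw
    · rintro _ ⟨b, rfl⟩
      change Submodule.Quotient.mk (⟨D.ρ b d, _⟩ : ↥W) ∈ _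
      obtain ⟨a, ha⟩ := h.val (D.ρ b d) (h.inv b d hd)
      have haW : D.π a ∈ W := by rw [ha]; exact hW _ _ (mem_orb D d)
      rw [mem_valN]
      refine ⟨⟨a, haW⟩, ?_, ?_⟩
      · rw [MonoidHom.mem_ker]
        refine LinearMap.ext (fun y => ?_)
        obtain ⟨w, rfl⟩ := Submodule.Quotient.mk_surjective _ y
        change Submodule.Quotient.mk _ = Submodule.Quotient.mk _
        rw [Submodule.Quotient.eq]
        -- `a - 1` maps `W` into `ε W`
        obtain ⟨w, hw'⟩ := w
        refine Submodule.span_induction (p := fun m hm =>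
          (D.sub hW).ρ ⟨a, haW⟩ (⟨m, hm⟩ : ↥W) - (⟨m, hm⟩ : ↥W) ∈ LinearMap.range f)
          ?_ ?_ ?_ ?_ hw'
        · rintro _ ⟨c, rfl⟩
          refine ⟨⟨D.ρ c (D.ρ b d), hW _ _ (hW _ _ (mem_orb D d))⟩, Subtype.ext ?_⟩
          change ε (D.ρ c (D.ρ b d)) = D.ρ a (D.ρ c d) - D.ρ c d
          have h1 := basic (show D.π (a * γ) = D.π (γ * a) by rw [mul_comm])
          rw [ha, ← hdef] at h1
          rw [ρ_comm D a c, ← map_sub, ← h1, map_sub, hεa, ρ_comm D γ c]
        · have e : (⟨0, W.zero_mem⟩ : ↥W) = 0 := rfl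
          rw [e, map_zero, sub_zero]
          exact Submodule.zero_mem _
        · intro x y hx hy h1 h2
          have := Submodule.add_mem _ h1 h2
          have e : (D.sub hW).ρ ⟨a, haW⟩ (⟨x + y, W.add_mem hx hy⟩ : ↥W) -
              (⟨x + y, W.add_mem hx hy⟩ : ↥W) =
              ((D.sub hW).ρ ⟨a, haW⟩ (⟨x, hx⟩ : ↥W) - (⟨x, hx⟩ : ↥W)) +
              ((D.sub hW).ρ ⟨a, haW⟩ (⟨y, hy⟩ : ↥W) - (⟨y, hy⟩ : ↥W)) := by
            have e1 : (⟨x + y, W.add_mem hx hy⟩ : ↥W) = ⟨x, hx⟩ + ⟨y, hy⟩ := rfl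
            rw [e1, map_add]; abel
          rw [e]; exact this
        · intro c x hx h1
          have := Submodule.smul_mem _ c h1
          have e : (D.sub hW).ρ ⟨a, haW⟩ (⟨c • x, W.smul_mem c hx⟩ : ↥W) -
              (⟨c • x, W.smul_mem c hx⟩ : ↥W) =
              c • ((D.sub hW).ρ ⟨a, haW⟩ (⟨x, hx⟩ : ↥W) - (⟨x, hx⟩ : ↥W)) := by
            have e1 : (⟨c • x, W.smul_mem c hx⟩ : ↥W) = c • ⟨x, hx⟩ := rfl
            rw [e1, map_smul, smul_sub]
          rw [e]; exact this
      · change Submodule.Quotient.mk _ = Submodule.Quotient.mk _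
        congr 1
        exact Subtype.ext ha
    · exact Submodule.zero_mem _
    · intro x y hx hy h1 h2
      exact Submodule.add_mem _ h1 h2
    · intro c x hx h1
      exact Submodule.smul_mem _ c h1
  have h1 : Module.rank ℤ (↥W ⧸ LinearMap.range f) ≤ ra ↥(D.stab hW) := by
    have h2 := rank_valN_le D1 hN
    rw [htop, rank_top] at h2
    rw [← r0_comm]
    exact h2.trans (r0_subgroup_le _)
  have h2 : ra ↥(D.stab hW) < ℵ₀ :=
    lt_of_le_of_lt (ra_le_of_injective (D.stab hW).subtype (Subgroup.subtype_injective _)) hr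
  have h3 : Module.rank ℤ ↥W ≤ k * ra ↥(D.stab hW) := hrk.trans (mul_le_mul_right h1 _)
  refine ⟨lt_of_le_of_lt h3 (Cardinal.mul_lt_aleph0 (Cardinal.natCast_lt_aleph0) h2), ?_⟩
  intro h0
  rw [h0, mul_zero, nonpos_iff_eq_zero, rank_eq_zero_iff] at h3
  obtain ⟨c, hc, hcd⟩ := h3 ⟨d, mem_orb D d⟩
  exact hd0 (hE c hc d (congrArg Subtype.val hcd))

end Orbit

/-- **The rank of the module is finite.** -/
theorem rank_X (n : ℕ) : ∀ (Λ E : Type) [CommGroup Λ] [AddCommGroup E] (D : Der Λ E)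
    (S : AddSubmonoid E), PreD D S → ra Λ < n → Module.rank ℤ E < ℵ₀ := by
  induction n with
  | zero =>
    intro Λ E _ _ D S _ h
    rw [Nat.cast_zero] at h
    exact absurd h (not_lt_of_ge zero_le)
  | succ n ih =>
    -- reduction to the torsion-free case
    suffices hTF : ∀ (Λ E : Type) [CommGroup Λ] [AddCommGroup E] (D : Der Λ E)
        (S : AddSubmonoid E), PreD D S → ra Λ < (n + 1 : ℕ) → TF E → Module.rank ℤ E < ℵ₀ by
      intro Λ E _ _ D S h hr
      have h1 := hTF Λ _ (D.quot D.inv_tors) _ (h.quot D.inv_tors) hr (tf_quot E)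
      have hsum := rank_quotient_add_rank_of_isDomain (Der.tors E)
      rw [Der.rank_tors, add_zero] at hsum
      rwa [← hsum]
    intro Λ E _ _ D S h hr hE
    have hr' : ra Λ < ℵ₀ := hr.trans (Cardinal.natCast_lt_aleph0)
    by_cases hS : ∃ d ∈ S, d ≠ 0
    · obtain ⟨d, hd, hd0⟩ := hS
      obtain ⟨h1, h2⟩ := orb_rank D h hr' hE hd hd0
      have hW := inv_orb D d
      have h3 : Module.rank ℤ (E ⧸ orb D d) < ℵ₀ := by
        let f : Λ →* Λ ⧸ D.stab hW := QuotientGroup.mk' _
        have hf : ∀ g, f g = 1 → D.π g ∈ orb D d := fun g hg => (QuotientGroup.eq_one_iff _).1 hg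
        refine ih (Λ ⧸ D.stab hW) _ _ _ ((h.quot hW).desc f (QuotientGroup.mk'_surjective _)
          (fun g hg => ?_) (fun g hg => ?_)) ?_
        · refine LinearMap.ext (fun y => ?_)
          obtain ⟨x, rfl⟩ := Submodule.Quotient.mk_surjective _ y
          change Submodule.Quotient.mk (D.ρ g x) = Submodule.Quotient.mk x
          rw [Submodule.Quotient.eq]
          exact trivial_mod D h hW (hf g hg) x
        · change Submodule.Quotient.mk (D.π g) = 0
          rw [Submodule.Quotient.mk_eq_zero]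
          exact hf g hg
        · have h4 := ra_add f (QuotientGroup.mk'_surjective _)
          rw [QuotientGroup.ker_mk'] at h4
          rw [h4] at hr hr'
          obtain ⟨a, ha⟩ := Cardinal.lt_aleph0.1 (lt_of_le_of_lt (self_le_add_right _ _) hr')
          obtain ⟨b, hb⟩ := Cardinal.lt_aleph0.1 (lt_of_le_of_lt (self_le_add_left _ _) hr')
          rw [ha, hb] at hr
          rw [ha] at h2
          rw [hb]
          have h5 : a + b < n + 1 := by exact_mod_cast hr
          have h6 : a ≠ 0 := by exact_mod_cast h2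
          have h7 : b < n := by omega
          exact_mod_cast h7
      have h4 := rank_quotient_add_rank_of_isDomain (orb D d)
      rw [← h4]
      exact Cardinal.add_lt_aleph0 h3 h1
    · push Not at hS
      have hsub : Subsingleton E := ⟨fun a b => by
        have h1 : ∀ x : E, x = 0 := fun x => by
          obtain ⟨d, hd, d', hd', rfl⟩ := h.gen x
          rw [hS d hd, hS d' hd', sub_zero]
        rw [h1 a, h1 b]⟩
      rw [rank_subsingleton']
      exact Cardinal.aleph0_pos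

end Pool.TFN
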