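import Mathlib
import Pool.Agent.TFM.Ord
import Pool.Agent.TFR.Irr

/-!
# Finite index, chain conditions and finite torsion-free rank in abelian groups
-/

set_option autoImplicit false

namespace Pool.TFN

open Cardinal Pool.TFR Pool.TFM
open scoped Pointwise

section FinCos

variable {G : Type} [CommGroup G]

/-- relatively finite index -/
def FinCos (S' S : Subgroup G) : Prop :=
  ∃ F : Set G, F.Finite ∧ F ⊆ S ∧ ∀ s ∈ S, ∃ f ∈ F, f⁻¹ * s ∈ S'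

theorem FinCos.refl (S : Subgroup G) : FinCos S S :=
  ⟨{1}, Set.finite_singleton _, by simp [S.one_mem], fun s hs => ⟨1, rfl, by simpa using hs⟩⟩

theorem FinCos.trans {S1 S2 S3 : Subgroup G} (h : FinCos S1 S2) (h' : FinCos S2 S3)
    (h23 : S2 ≤ S3) : FinCos S1 S3 := by
  obtain ⟨F, hF, hF1, hF2⟩ := h
  obtain ⟨F', hF', hF1', hF2'⟩ := h'
  refine ⟨F' * F, hF'.mul hF, ?_, ?_⟩
  · rintro _ ⟨a, ha, b, hb, rfl⟩
    exact S3.mul_mem (hF1' ha) (h23 (hF1 hb))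
  · intro s hs
    obtain ⟨f', hf', h1⟩ := hF2' s hs
    obtain ⟨f, hf, h2⟩ := hF2 _ h1
    refine ⟨f' * f, ⟨f', hf', f, hf, rfl⟩, ?_⟩
    rwa [mul_inv_rev, mul_assoc]

theorem FinCos.mono {S1 S2 S3 : Subgroup G} (h : FinCos S1 S3) (h12 : S1 ≤ S2) :
    FinCos S2 S3 := by
  obtain ⟨F, hF, hF1, hF2⟩ := h
  refine ⟨F, hF, hF1, fun s hs => ?_⟩
  obtain ⟨f, hf, h1⟩ := hF2 s hs
  exact ⟨f, hf, h12 h1⟩

theorem FinCos.restrict {S1 S2 S3 : Subgroup G} (h : FinCos S1 S3)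
    (h23 : S2 ≤ S3) : FinCos S1 S2 := by
  classical
  obtain ⟨F, hF, hF1, hF2⟩ := h
  let t : G → G := fun f => if hf : ∃ s ∈ S2, f⁻¹ * s ∈ S1 then hf.choose else 1
  refine ⟨t '' F, hF.image t, ?_, ?_⟩
  · rintro _ ⟨f, -, rfl⟩
    by_cases hf : ∃ s ∈ S2, f⁻¹ * s ∈ S1
    · have : t f = hf.choose := dif_pos hf
      rw [this]; exact hf.choose_spec.1
    · have : t f = 1 := dif_neg hf
      rw [this]; exact S2.one_mem
  · intro s hs
    obtain ⟨f, hf, h1⟩ := hF2 s (h23 hs)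
    have hex : ∃ s ∈ S2, f⁻¹ * s ∈ S1 := ⟨s, hs, h1⟩
    have ht : t f = hex.choose := dif_pos hex
    refine ⟨t f, ⟨f, hf, rfl⟩, ?_⟩
    have h2 := hex.choose_spec.2
    rw [← ht] at h2
    have h3 := S1.mul_mem (S1.inv_mem h2) h1
    have e : (f⁻¹ * t f)⁻¹ * (f⁻¹ * s) = (t f)⁻¹ * s := by group
    rwa [e] at h3

theorem FinCos.finite {S1 S2 : Subgroup G} (h : FinCos S1 S2) (h1 : (S1 : Set G).Finite) :
    (S2 : Set G).Finite := by
  obtain ⟨F, hF, hF1, hF2⟩ := h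
  refine (hF.mul h1).subset (fun s hs => ?_)
  obtain ⟨f, hf, h2⟩ := hF2 s hs
  exact ⟨f, hf, _, h2, by group⟩

/-- a uniform exponent -/
theorem FinCos.exists_pow {S1 S2 : Subgroup G} (h : FinCos S1 S2) :
    ∃ m : ℕ, 0 < m ∧ ∀ s ∈ S2, s ^ m ∈ S1 := by
  classical
  obtain ⟨F, hF, hF1, hF2⟩ := h
  refine ⟨hF.toFinset.card.factorial, Nat.factorial_pos _, fun s hs => ?_⟩
  choose! f hf1 hf2 using hF2
  have hcard : hF.toFinset.card < (Finset.range (hF.toFinset.card + 1)).card := by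
    rw [Finset.card_range]; omega
  obtain ⟨i, hi, j, hj, hij, hsij⟩ := Finset.exists_ne_map_eq_of_card_lt_of_maps_to hcard
    (f := fun i => f (s ^ i)) (fun i _ => by
      rw [Finset.mem_coe, hF.mem_toFinset]
      exact hf1 _ (S2.pow_mem hs i))
  rw [Finset.mem_range] at hi hj
  have key : ∀ i j : ℕ, i < j → j ≤ hF.toFinset.card → f (s ^ i) = f (s ^ j) →
      s ^ hF.toFinset.card.factorial ∈ S1 := by
    intro i j hij hj h
    have h1 := S1.mul_mem (S1.inv_mem (hf2 _ (S2.pow_mem hs i))) (hf2 _ (S2.pow_mem hs j))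
    rw [h, mul_inv_rev, inv_inv, mul_assoc, mul_inv_cancel_left] at h1
    have h2 : (s ^ i)⁻¹ * s ^ j = s ^ (j - i) := by
      rw [inv_mul_eq_iff_eq_mul, ← pow_add]; congr 1; omega
    rw [h2] at h1
    obtain ⟨c, hc⟩ := Nat.dvd_factorial (show 0 < j - i by omega)
      (show j - i ≤ hF.toFinset.card by omega)
    rw [hc, pow_mul]
    exact S1.pow_mem h1 c
  rcases Nat.lt_or_gt_of_ne hij with h1 | h1
  · exact key i j h1 (by omega) hsij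
  · exact key j i h1 (by omega) hsij.symm

end FinCos


/-- Minimal condition for the subgroups in the `p`-torsion sections. -/
def DCC (p : ℕ) (G : Type) [CommGroup G] : Prop :=
  ∀ (W : Subgroup G) (F : Set (Subgroup G)), F.Nonempty →
    (∀ S ∈ F, W ≤ S ∧ ∀ x ∈ S, ∃ e : ℕ, x ^ p ^ e ∈ W) →
    ∃ S ∈ F, ∀ S' ∈ F, S' ≤ S → S' = S

theorem DCC.of_injective {p : ℕ} {G G' : Type} [CommGroup G] [CommGroup G'] (f : G →* G')
    (hf : Function.Injective f) (h : DCC p G') : DCC p G := by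
  intro W F hF hS
  obtain ⟨_, ⟨S, hSF, rfl⟩, hmin⟩ := h (W.map f) ((fun S => S.map f) '' F) (hF.image _) (by
    rintro _ ⟨S, hSF, rfl⟩
    obtain ⟨h1, h2⟩ := hS S hSF
    refine ⟨Subgroup.map_mono h1, ?_⟩
    rintro _ ⟨x, hx, rfl⟩
    obtain ⟨e, he⟩ := h2 x hx
    exact ⟨e, _, he, map_pow f x _⟩)
  refine ⟨S, hSF, fun S' hS' hle => ?_⟩
  have := hmin _ ⟨S', hS', rfl⟩ (Subgroup.map_mono hle)
  exact Subgroup.map_injective hf this

theorem DCC.of_surjective {p : ℕ} {G G' : Type} [CommGroup G] [CommGroup G'] (f : G →* G')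
    (hf : Function.Surjective f) (h : DCC p G) : DCC p G' := by
  intro W F hF hS
  obtain ⟨_, ⟨S, hSF, rfl⟩, hmin⟩ := h (W.comap f) ((fun S => S.comap f) '' F) (hF.image _) (by
    rintro _ ⟨S, hSF, rfl⟩
    obtain ⟨h1, h2⟩ := hS S hSF
    refine ⟨Subgroup.comap_mono h1, ?_⟩
    intro x hx
    obtain ⟨e, he⟩ := h2 (f x) hx
    exact ⟨e, by rw [Subgroup.mem_comap, map_pow]; exact he⟩)
  refine ⟨S, hSF, fun S' hS' hle => ?_⟩
  have := hmin _ ⟨S', hS', rfl⟩ (Subgroup.comap_mono hle)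
  exact Subgroup.comap_injective hf this

/-- finite torsion-free rank -/
def FR (G : Type) [CommGroup G] : Prop :=
  ∃ G0 : Subgroup G, G0.FG ∧ ∀ g, ∃ m : ℕ, 0 < m ∧ g ^ m ∈ G0

theorem fg_map {G G' : Type} [CommGroup G] [CommGroup G'] (f : G →* G') {S : Subgroup G}
    (h : S.FG) : (S.map f).FG := by
  classical
  obtain ⟨T, hT⟩ := h
  refine ⟨T.image f, ?_⟩
  rw [← hT, MonoidHom.map_closure, Finset.coe_image]

theorem fg_of_le_fg {G : Type} [CommGroup G] {S S' : Subgroup G} (h : S.FG) (hle : S' ≤ S) :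
    S'.FG := by
  have h1 : Group.FG ↥S := (Group.fg_iff_subgroup_fg S).2 h
  have h2 := fg_map S.subtype (fg_of_le (S'.subgroupOf S))
  rwa [Subgroup.subgroupOf_map_subtype, inf_eq_left.2 hle] at h2

theorem FR.sub {G : Type} [CommGroup G] (h : FR G) (S : Subgroup G) :
    ∃ S0 : Subgroup G, S0 ≤ S ∧ S0.FG ∧ ∀ g ∈ S, ∃ m : ℕ, 0 < m ∧ g ^ m ∈ S0 := by
  obtain ⟨G0, hG0, h⟩ := h
  refine ⟨G0 ⊓ S, inf_le_right, fg_of_le_fg hG0 inf_le_left, fun g hg => ?_⟩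
  obtain ⟨m, hm, h1⟩ := h g
  exact ⟨m, hm, h1, S.pow_mem hg m⟩

theorem FR.of_surjective {G G' : Type} [CommGroup G] [CommGroup G'] (f : G →* G')
    (hf : Function.Surjective f) (h : FR G) : FR G' := by
  obtain ⟨G0, hG0, h⟩ := h
  refine ⟨G0.map f, fg_map f hG0, fun g => ?_⟩
  obtain ⟨x, rfl⟩ := hf g
  obtain ⟨m, hm, h1⟩ := h x
  exact ⟨m, hm, _, h1, map_pow f x m⟩

theorem FR.subgroup {G : Type} [CommGroup G] (h : FR G) (S : Subgroup G) : FR ↥S := by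
  obtain ⟨S0, hle, hfg, h1⟩ := h.sub S
  refine ⟨S0.subgroupOf S, ?_, fun g => ?_⟩
  · have h2 : Group.FG ↥S0 := (Group.fg_iff_subgroup_fg S0).2 hfg
    have h3 : Group.FG ↥(S0.subgroupOf S) :=
      Group.fg_of_surjective (f := (Subgroup.subgroupOfEquivOfLe hle).symm.toMonoidHom)
        (Subgroup.subgroupOfEquivOfLe hle).symm.surjective
    exact (Group.fg_iff_subgroup_fg _).1 h3
  · obtain ⟨m, hm, h2⟩ := h1 g.1 g.2
    exact ⟨m, hm, h2⟩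

/-- a subgroup of finite index if finitely generated and torsion modulo it -/
theorem finCos_of_torsion {G : Type} [CommGroup G] {S T : Subgroup G} (hfg : T.FG)
    (h : ∀ x ∈ T, ∃ m : ℕ, 0 < m ∧ x ^ m ∈ S) :
    ∃ F : Set G, F.Finite ∧ F ⊆ T ∧ ∀ t ∈ T, ∃ f ∈ F, f⁻¹ * t ∈ S := by
  classical
  have h1 : Group.FG ↥T := (Group.fg_iff_subgroup_fg T).2 hfg
  have h3 : Finite (↥T ⧸ S.subgroupOf T) := by
    refine CommGroup.finite_of_fg_isMulTorsion _ (fun x => ?_)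
    obtain ⟨y, rfl⟩ := QuotientGroup.mk_surjective x
    obtain ⟨m, hm, hy⟩ := h y.1 y.2
    refine isOfFinOrder_iff_pow_eq_one.2 ⟨m, hm, ?_⟩
    rw [← QuotientGroup.mk_pow, QuotientGroup.eq_one_iff]
    exact hy
  refine ⟨Set.range (fun x : ↥T ⧸ S.subgroupOf T => (x.out : G)), Set.finite_range _, ?_, ?_⟩
  · rintro _ ⟨x, rfl⟩
    exact x.out.2
  · intro t ht
    refine ⟨_, ⟨(QuotientGroup.mk (⟨t, ht⟩ : ↥T) : ↥T ⧸ S.subgroupOf T), rfl⟩, ?_⟩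
    have h4 := QuotientGroup.out_eq' (QuotientGroup.mk (⟨t, ht⟩ : ↥T) : ↥T ⧸ S.subgroupOf T)
    rw [QuotientGroup.eq] at h4
    exact h4

/-- Eventually the indices in a descending chain with `p`-group factors are finite. -/
theorem chainA {p : ℕ} (hp : p.Prime) {G : Type} [CommGroup G] (hD : DCC p G)
    (S : ℕ → Subgroup G) (hS : Antitone S) (Γ0 : Subgroup G) (hΓ : Γ0 ≤ S 0) (hfg : Γ0.FG)
    (htor : ∀ x ∈ S 0, ∃ m : ℕ, 0 < m ∧ x ^ m ∈ Γ0)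
    (hpg : ∀ j, ∀ x ∈ S 0, ∃ e : ℕ, x ^ p ^ e ∈ S j) :
    ∃ i, ∀ j, i ≤ j → FinCos (S j) (S i) := by
  have hne : ∀ {a b : ℕ}, ¬ p ∣ a → ¬ p ∣ b → ¬ p ∣ a * b := fun ha hb h =>
    (hp.dvd_mul.1 h).elim ha hb
  let W : Subgroup G :=
    { carrier := {x | x ∈ S 0 ∧ ∃ k : ℕ, ¬ p ∣ k ∧ x ^ k ∈ Γ0}
      mul_mem' := by
        rintro a b ⟨ha, k, hk, hk'⟩ ⟨hb, l, hl, hl'⟩
        refine ⟨(S 0).mul_mem ha hb, k * l, hne hk hl, ?_⟩
        rw [mul_pow, pow_mul, mul_comm k l, pow_mul]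
        exact Γ0.mul_mem (Γ0.pow_mem hk' l) (Γ0.pow_mem hl' k)
      one_mem' := ⟨(S 0).one_mem, 1, hp.one_lt.not_ge ∘ Nat.le_of_dvd one_pos,
        by rw [one_pow]; exact Γ0.one_mem⟩
      inv_mem' := by
        rintro a ⟨ha, k, hk, hk'⟩
        exact ⟨(S 0).inv_mem ha, k, hk, by rw [inv_pow]; exact Γ0.inv_mem hk'⟩ }
  have hW0 : W ≤ S 0 := fun x hx => hx.1
  obtain ⟨_, ⟨i, rfl⟩, hmin⟩ := hD W (Set.range (fun j => S j ⊔ W)) (Set.range_nonempty _) (by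
    rintro _ ⟨j, rfl⟩
    refine ⟨le_sup_right, fun x hx => ?_⟩
    have hx0 : x ∈ S 0 := (sup_le (hS (Nat.zero_le j)) hW0) hx
    obtain ⟨m, hm, hxm⟩ := htor x hx0
    obtain ⟨e, k, hk, rfl⟩ := Nat.exists_eq_pow_mul_and_not_dvd hm.ne' p hp.ne_one
    exact ⟨e, (S 0).pow_mem hx0 _, k, hk, by rw [← pow_mul]; exact hxm⟩)
  refine ⟨i, fun j hij => ?_⟩
  have heq : S j ⊔ W = S i ⊔ W := hmin _ ⟨j, rfl⟩ (sup_le_sup_right (hS hij) W)
  have htor2 : ∀ x ∈ Γ0 ⊓ S i, ∃ m : ℕ, 0 < m ∧ x ^ m ∈ S j := by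
    intro x hx
    obtain ⟨e, he⟩ := hpg j x (hΓ hx.1)
    exact ⟨p ^ e, pow_pos hp.pos e, he⟩
  obtain ⟨F, hF, hF1, hF2⟩ := finCos_of_torsion (fg_of_le_fg hfg inf_le_left) htor2
  refine ⟨F, hF, fun f hf => (hF1 hf).2, fun s hs => ?_⟩
  -- `s = t * w`
  have hs' : s ∈ S j ⊔ W := by rw [heq]; exact Subgroup.mem_sup_left hs
  obtain ⟨t, ht, w, hw, rfl⟩ := Subgroup.mem_sup.1 hs'
  have hwi : w ∈ S i := by
    have h1 := (S i).mul_mem ((S i).inv_mem (hS hij ht)) hs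
    rwa [inv_mul_cancel_left] at h1
  obtain ⟨hw0, k, hk, hwk⟩ := hw
  obtain ⟨e, he⟩ := hpg j w hw0
  have hcop : IsCoprime (k : ℤ) ((p ^ e : ℕ) : ℤ) := by
    rw [Nat.isCoprime_iff_coprime]
    exact Nat.Coprime.pow_right _ (hp.coprime_iff_not_dvd.2 hk).symm
  obtain ⟨a, b, hab⟩ := hcop
  have hg1 : (w ^ k) ^ a * (w ^ p ^ e) ^ b = w := by
    rw [← zpow_natCast, ← zpow_natCast, ← zpow_mul, ← zpow_mul, ← zpow_add, mul_comm _ a,
      mul_comm _ b, hab, zpow_one]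
  obtain ⟨f, hf, h2⟩ := hF2 ((w ^ k) ^ a) ⟨Γ0.zpow_mem hwk a,
    (S i).zpow_mem ((S i).pow_mem hwi k) a⟩
  refine ⟨f, hf, ?_⟩
  have h3 : f⁻¹ * (t * w) = t * (f⁻¹ * (w ^ k) ^ a) * (w ^ p ^ e) ^ b := by
    calc f⁻¹ * (t * w) = f⁻¹ * (t * ((w ^ k) ^ a * (w ^ p ^ e) ^ b)) := by rw [hg1]
      _ = t * (f⁻¹ * (w ^ k) ^ a) * (w ^ p ^ e) ^ b := by
        rw [mul_left_comm f⁻¹ t, ← mul_assoc f⁻¹, ← mul_assoc t]
  rw [h3]
  exact (S j).mul_mem ((S j).mul_mem ht h2) ((S j).zpow_mem he b)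



/-- the generalised heights -/
noncomputable def hgt {Y : Type} [CommGroup Y] (p : ℕ) (S : Subgroup Y) (e : Y) : ℕ∞ :=
  ⨆ (n : ℕ) (_ : ∃ s ∈ S, s ^ p ^ n = e), ((n : ℕ∞) + 1)

theorem lt_hgt {Y : Type} [CommGroup Y] {p : ℕ} {S : Subgroup Y} {e : Y} {n : ℕ} :
    (n : ℕ∞) < hgt p S e ↔ ∃ s ∈ S, s ^ p ^ n = e := by
  unfold hgt
  rw [lt_iSup_iff]
  constructor
  · rintro ⟨m, h1⟩
    rw [lt_iSup_iff] at h1
    obtain ⟨⟨s, hs, rfl⟩, h2⟩ := h1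
    have h3 : n < m + 1 := by exact_mod_cast h2
    refine ⟨s ^ p ^ (m - n), S.pow_mem hs _, ?_⟩
    rw [← pow_mul, ← pow_add]
    congr 2
    omega
  · intro h
    refine ⟨n, ?_⟩
    rw [lt_iSup_iff]
    refine ⟨h, ?_⟩
    exact_mod_cast Nat.lt_succ_self n

theorem hgt_mono {Y : Type} [CommGroup Y] {p : ℕ} {S S' : Subgroup Y} (h : S' ≤ S) (e : Y) :
    hgt p S' e ≤ hgt p S e := by
  refine iSup₂_le (fun n hn => ?_)
  obtain ⟨s, hs, rfl⟩ := hn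
  exact le_iSup₂_of_le n ⟨s, h hs, rfl⟩ le_rfl

/-- minimal condition for `p`-groups with finite socle -/
theorem minp {Y : Type} [CommGroup Y] {p : ℕ} (hfin : {y : Y | y ^ p = 1}.Finite)
    (F : Set (Subgroup Y)) (hF : F.Nonempty)
    (hS : ∀ S ∈ F, ∀ x ∈ S, ∃ e : ℕ, x ^ p ^ e = 1) :
    ∃ S ∈ F, ∀ S' ∈ F, S' ≤ S → S' = S := by
  classical
  have hE : Finite {y : Y | y ^ p = 1} := hfin.to_subtype
  let H : Subgroup Y → ({y : Y | y ^ p = 1} → ℕ∞) := fun S e => hgt p S e.1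
  have hwf : WellFounded (fun a b : ({y : Y | y ^ p = 1} → ℕ∞) => a < b) := wellFounded_lt
  obtain ⟨_, ⟨S, hSF, rfl⟩, hmin⟩ := hwf.has_min (H '' F) (hF.image H)
  refine ⟨S, hSF, fun S' hS' hle => ?_⟩
  have h1 : H S' ≤ H S := fun e => hgt_mono hle e.1
  have h2 : H S' = H S := by
    by_contra hne
    exact hmin _ ⟨S', hS', rfl⟩ (lt_of_le_of_ne h1 hne)
  refine le_antisymm hle ?_
  have key : ∀ k : ℕ, ∀ x ∈ S, x ^ p ^ k = 1 → x ∈ S' := by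
    intro k
    induction k with
    | zero =>
      intro x _ hx
      rw [pow_zero, pow_one] at hx
      rw [hx]; exact S'.one_mem
    | succ k ih =>
      intro x hx hxk
      have h3 : (x ^ p ^ k) ^ p = 1 := by rw [← pow_mul, ← pow_succ]; exact hxk
      have h4 : (k : ℕ∞) < H S ⟨x ^ p ^ k, h3⟩ := lt_hgt.2 ⟨x, hx, rfl⟩
      rw [← h2] at h4
      obtain ⟨y, hy, hyx⟩ := lt_hgt.1 h4
      have h5 : (x * y⁻¹) ^ p ^ k = 1 := by
        rw [mul_pow, inv_pow, hyx, mul_inv_cancel]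
      have h6 := ih _ (S.mul_mem hx (S.inv_mem (hle hy))) h5
      have h7 := S'.mul_mem h6 hy
      rwa [inv_mul_cancel_right] at h7
  intro x hx
  obtain ⟨e, he⟩ := hS S hSF x hx
  exact key e x hx he

/-- minimal condition in torsion groups with finite `p`-socle -/
theorem dcc_torsion {Y : Type} [CommGroup Y] {p : ℕ} (hp : p.Prime)
    (htor : ∀ y : Y, ∃ m : ℕ, 0 < m ∧ y ^ m = 1) (hfin : {y : Y | y ^ p = 1}.Finite) :
    DCC p Y := by
  classical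
  intro W F hF hS
  let pp : Subgroup Y → Subgroup Y := fun S =>
    { carrier := {x | x ∈ S ∧ ∃ e : ℕ, x ^ p ^ e = 1}
      mul_mem' := by
        rintro a b ⟨ha, k, hk⟩ ⟨hb, l, hl⟩
        refine ⟨S.mul_mem ha hb, k + l, ?_⟩
        rw [mul_pow, pow_add, pow_mul, hk, one_pow, mul_comm (p ^ k), pow_mul, hl, one_pow,
          one_mul]
      one_mem' := ⟨S.one_mem, 0, one_pow _⟩
      inv_mem' := by
        rintro a ⟨ha, k, hk⟩
        exact ⟨S.inv_mem ha, k, by rw [inv_pow, hk, inv_one]⟩ }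
  obtain ⟨_, ⟨S, hSF, rfl⟩, hmin⟩ := minp hfin (pp '' F) (hF.image pp) (by
    rintro _ ⟨S, -, rfl⟩ x hx
    exact hx.2)
  refine ⟨S, hSF, fun S' hS' hle => le_antisymm hle ?_⟩
  have h1 : pp S' = pp S := hmin _ ⟨S', hS', rfl⟩ (fun x hx => ⟨hle hx.1, hx.2⟩)
  intro s hs
  obtain ⟨e, he⟩ := (hS S hSF).2 s hs
  obtain ⟨m, hm, hsm⟩ := htor s
  obtain ⟨a, k, hk, rfl⟩ := Nat.exists_eq_pow_mul_and_not_dvd hm.ne' p hp.ne_one
  have hcop : IsCoprime (k : ℤ) ((p ^ (a + e) : ℕ) : ℤ) := by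
    rw [Nat.isCoprime_iff_coprime]
    exact Nat.Coprime.pow_right _ (hp.coprime_iff_not_dvd.2 hk).symm
  obtain ⟨u, v, huv⟩ := hcop
  have hg1 : (s ^ k) ^ u * (s ^ p ^ (a + e)) ^ v = s := by
    rw [← zpow_natCast, ← zpow_natCast, ← zpow_mul, ← zpow_mul, ← zpow_add, mul_comm _ u,
      mul_comm _ v, huv, zpow_one]
  rw [← hg1]
  refine S'.mul_mem ?_ ?_
  · have h2 : (s ^ k) ^ u ∈ pp S := by
      refine ⟨S.zpow_mem (S.pow_mem hs k) u, a, ?_⟩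
      rw [← zpow_natCast, ← zpow_mul, mul_comm, zpow_mul, zpow_natCast, ← pow_mul, mul_comm k,
        hsm, one_zpow]
    rw [← h1] at h2
    exact h2.1
  · refine S'.zpow_mem ?_ v
    refine (hS S' hS').1 ?_
    rw [pow_add, mul_comm, pow_mul]
    exact W.pow_mem he _

theorem dcc_of {Γ : Type} [CommGroup Γ] (hFR : FR Γ) {p : ℕ} (hp : p.Prime)
    (hfin : {y : Γ | y ^ p = 1}.Finite) : DCC p Γ := by
  classical
  obtain ⟨Γ0, hΓ0, htor⟩ := hFR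
  let f : Γ →* Γ ⧸ Γ0 := QuotientGroup.mk' Γ0
  have hf : Function.Surjective f := QuotientGroup.mk'_surjective Γ0
  have hker : ∀ x, f x = 1 ↔ x ∈ Γ0 := fun x => QuotientGroup.eq_one_iff x
  have htorY : ∀ y : Γ ⧸ Γ0, ∃ m : ℕ, 0 < m ∧ y ^ m = 1 := by
    intro y
    obtain ⟨x, rfl⟩ := hf y
    obtain ⟨m, hm, h⟩ := htor x
    exact ⟨m, hm, by rw [← map_pow]; exact (hker _).2 h⟩
  -- the socle of the quotient is finite
  have hfinY : {y : Γ ⧸ Γ0 | y ^ p = 1}.Finite := by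
    let S1 : Subgroup Γ := Γ0.map (powMonoidHom p)
    obtain ⟨F, hF, hF1, hF2⟩ := finCos_of_torsion (S := S1) hΓ0 (fun x hx =>
      ⟨p, hp.pos, x, hx, rfl⟩)
    -- choose roots
    let t : Γ → Γ := fun c => if h : ∃ x, x ^ p ∈ Γ0 ∧ c⁻¹ * x ^ p ∈ S1 then h.choose else 1
    refine ((hF.image t).mul hfin |>.image f).subset ?_
    intro y hy
    obtain ⟨x, rfl⟩ := hf y
    have hx : x ^ p ∈ Γ0 := by
      rw [← hker, map_pow]; exact hy
    obtain ⟨c, hc, h1⟩ := hF2 _ hx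
    have hex : ∃ x, x ^ p ∈ Γ0 ∧ c⁻¹ * x ^ p ∈ S1 := ⟨x, hx, h1⟩
    have ht : t c = hex.choose := dif_pos hex
    obtain ⟨h2, h3⟩ := hex.choose_spec
    rw [← ht] at h2 h3
    have h4 := S1.mul_mem (S1.inv_mem h3) h1
    have h5 : (c⁻¹ * t c ^ p)⁻¹ * (c⁻¹ * x ^ p) = ((t c)⁻¹ * x) ^ p := by
      rw [mul_pow, inv_pow]; group
    rw [h5] at h4
    obtain ⟨z, hz, hzp⟩ := h4
    have hzp' : z ^ p = ((t c)⁻¹ * x) ^ p := hzp
    refine ⟨t c * ((t c)⁻¹ * x * z⁻¹), ⟨t c, ⟨c, hc, rfl⟩, _, ?_, rfl⟩, ?_⟩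
    · change ((t c)⁻¹ * x * z⁻¹) ^ p = 1
      rw [mul_pow, ← hzp', inv_pow, mul_inv_cancel]
    · rw [mul_assoc (t c)⁻¹, mul_inv_cancel_left, map_mul, map_inv, (hker z).2 hz, inv_one,
        mul_one]
  have hD := dcc_torsion hp htorY hfinY
  intro W F hF hS
  obtain ⟨_, ⟨S1, hS1F, rfl⟩, hmin1⟩ := hD (W.map f) ((fun S => S.map f) '' F) (hF.image _) (by
    rintro _ ⟨S, hSF, rfl⟩
    obtain ⟨h1, h2⟩ := hS S hSF
    refine ⟨Subgroup.map_mono h1, ?_⟩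
    rintro _ ⟨x, hx, rfl⟩
    obtain ⟨e, he⟩ := h2 x hx
    exact ⟨e, _, he, map_pow f x _⟩)
  -- the intersection with the finitely generated subgroup
  let X : Subgroup Γ :=
    { carrier := {x | x ∈ Γ0 ∧ ∃ e : ℕ, x ^ p ^ e ∈ W}
      mul_mem' := by
        rintro a b ⟨ha, k, hk⟩ ⟨hb, l, hl⟩
        refine ⟨Γ0.mul_mem ha hb, k + l, ?_⟩
        rw [mul_pow]
        refine W.mul_mem ?_ ?_
        · rw [pow_add, pow_mul]; exact W.pow_mem hk _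
        · rw [pow_add, mul_comm, pow_mul]; exact W.pow_mem hl _
      one_mem' := ⟨Γ0.one_mem, 0, by rw [one_pow]; exact W.one_mem⟩
      inv_mem' := by
        rintro a ⟨ha, k, hk⟩
        exact ⟨Γ0.inv_mem ha, k, by rw [inv_pow]; exact W.inv_mem hk⟩ }
  have hXle : X ≤ Γ0 := fun x hx => hx.1
  obtain ⟨C, hC, hC1, hC2⟩ := finCos_of_torsion (S := W) (fg_of_le_fg hΓ0 hXle) (fun x hx => by
    obtain ⟨e, he⟩ := hx.2
    exact ⟨p ^ e, pow_pos hp.pos e, he⟩)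
  let N : Subgroup Γ → ℕ := fun S => (hC.toFinset.filter (fun c => c ∈ S)).card
  have hex : ∃ n, ∃ S ∈ F, S.map f = S1.map f ∧ N S = n := ⟨_, S1, hS1F, rfl, rfl⟩
  obtain ⟨S, hSF, hSmap, hSN⟩ := Nat.find_spec hex
  refine ⟨S, hSF, fun S' hS' hle => le_antisymm hle ?_⟩
  have hmap : S'.map f = S.map f := by
    rw [hSmap]
    exact hmin1 _ ⟨S', hS', rfl⟩ (by
      change S'.map f ≤ S1.map f
      rw [← hSmap]; exact Subgroup.map_mono hle)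
  have hcard : N S ≤ N S' := by
    rw [hSN]
    exact Nat.find_min' hex ⟨S', hS', hmap.trans hSmap, rfl⟩
  have hsub : hC.toFinset.filter (fun c => c ∈ S') ⊆ hC.toFinset.filter (fun c => c ∈ S) := by
    intro c hc
    rw [Finset.mem_filter] at hc ⊢
    exact ⟨hc.1, hle hc.2⟩
  have heq := Finset.eq_of_subset_of_card_le hsub hcard
  intro x hx
  have h1 : f x ∈ S'.map f := by rw [hmap]; exact ⟨x, hx, rfl⟩
  obtain ⟨y, hy, hyx⟩ := h1
  have h2 : y⁻¹ * x ∈ Γ0 := by rw [← hker, map_mul, map_inv, hyx, inv_mul_cancel]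
  have h3 : y⁻¹ * x ∈ S := S.mul_mem (S.inv_mem (hle hy)) hx
  have h4 : y⁻¹ * x ∈ X := ⟨h2, (hS S hSF).2 _ h3⟩
  obtain ⟨c, hc, hc'⟩ := hC2 _ h4
  have h5 : c ∈ S := by
    have h6 := S.mul_mem h3 (S.inv_mem ((hS S hSF).1 hc'))
    rwa [mul_inv_rev, inv_inv, mul_inv_cancel_left] at h6
  have h6 : c ∈ S' := by
    have h7 : c ∈ hC.toFinset.filter (fun c => c ∈ S) :=
      Finset.mem_filter.2 ⟨hC.mem_toFinset.2 hc, h5⟩
    rw [← heq] at h7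
    exact (Finset.mem_filter.1 h7).2
  have h7 := S'.mul_mem h6 ((hS S' hS').1 hc')
  rw [mul_inv_cancel_left] at h7
  have h8 := S'.mul_mem hy h7
  rwa [mul_inv_cancel_left] at h8

/-- groups of finite torsion-free rank -/
theorem FR_of_ra {Γ : Type} [CommGroup Γ] (h : ra Γ < ℵ₀) : FR Γ := by
  classical
  obtain ⟨ι, hι, v, hv⟩ := exists_family (M := Additive Γ) h
  refine ⟨Subgroup.closure (Set.range (fun i => (v i).toMul)), ⟨Finset.univ.image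
    (fun i => (v i).toMul), by simp⟩, fun g => ?_⟩
  obtain ⟨n, hn, hm⟩ := hv (Additive.ofMul g)
  have key : ∀ x ∈ Submodule.span ℤ (Set.range v),
      x.toMul ∈ Subgroup.closure (Set.range (fun i => (v i).toMul)) := by
    intro x hx
    refine Submodule.span_induction (p := fun x _ => x.toMul ∈
      Subgroup.closure (Set.range (fun i => (v i).toMul))) ?_ ?_ ?_ ?_ hx
    · rintro _ ⟨i, rfl⟩
      exact Subgroup.subset_closure ⟨i, rfl⟩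
    · exact Subgroup.one_mem _
    · intro x y _ _ hx hy
      exact Subgroup.mul_mem _ hx hy
    · intro a x _ hx
      exact Subgroup.zpow_mem _ hx a
  have h1 : g ^ n ∈ Subgroup.closure (Set.range (fun i => (v i).toMul)) := key _ hm
  refine ⟨n.natAbs, Int.natAbs_pos.2 hn, ?_⟩
  rcases Int.natAbs_eq n with h4 | h4
  · rw [← zpow_natCast, ← h4]; exact h1
  · rw [← zpow_natCast]
    have : ((n.natAbs : ℕ) : ℤ) = -n := by omega
    rw [this, zpow_neg]; exact Subgroup.inv_mem _ h1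

end Pool.TFN
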