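import Mathlib
import Pool.Agent.TFN.Blk

/-!
# Valuations of blocks
-/

set_option autoImplicit false

namespace Pool.TFN

open Pool.TFM

/-- A block together with a homomorphism of its group onto a nontrivial linearly ordered group
such that the line through the base point is not in the span of the lines of positive value. -/
structure VD {p : ℕ} [Fact p.Prime] {H G R V : Type} [Group H] [CommGroup G] [CommRing R]
    [AddCommGroup V] [Module R V] (A : Amb p H G R V) (B : Submodule R V) (Λ : Type)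
    [CommGroup Λ] [LinearOrder Λ] [IsOrderedMonoid Λ] where
  hB : A.IsBlock B
  lv : ↥(Amb.GB hB) →* Λ
  surj : Function.Surjective lv
  no : ¬ A.line 1 ≤ ⨆ g : ↥(Amb.GB hB), ⨆ (_ : 1 < lv g), A.line g.1
  pos : ∃ a : Λ, 1 < a

namespace VD

open Amb

variable {p : ℕ} [Fact p.Prime] {H G R V : Type} [Group H] [CommGroup G] [CommRing R]
  [AddCommGroup V] [Module R V] {A : Amb p H G R V} {B : Submodule R V} {Λ : Type}
  [CommGroup Λ] [LinearOrder Λ] [IsOrderedMonoid Λ] (D : VD A B Λ)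

/-- the group of the block -/
abbrev Gam : Type := ↥(GB D.hB)

/-- span of the lines of value at least `a` -/
noncomputable def Vge (a : Λ) : Submodule R V := ⨆ g : D.Gam, ⨆ (_ : a ≤ D.lv g), A.line g.1

/-- span of the lines of value greater than `a` -/
noncomputable def Vgt (a : Λ) : Submodule R V := ⨆ g : D.Gam, ⨆ (_ : a < D.lv g), A.line g.1

theorem line_le_Vge {a : Λ} {g : D.Gam} (h : a ≤ D.lv g) : A.line g.1 ≤ D.Vge a :=
  le_iSup₂_of_le g h le_rfl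

theorem line_le_Vgt {a : Λ} {g : D.Gam} (h : a < D.lv g) : A.line g.1 ≤ D.Vgt a :=
  le_iSup₂_of_le g h le_rfl

theorem e_mem_Vge {a : Λ} {g : D.Gam} (h : a ≤ D.lv g) : A.e g.1 ∈ D.Vge a :=
  D.line_le_Vge h (A.e_mem_line _)

theorem e_mem_Vgt {a : Λ} {g : D.Gam} (h : a < D.lv g) : A.e g.1 ∈ D.Vgt a :=
  D.line_le_Vgt h (A.e_mem_line _)

theorem Vgt_le_Vge (a : Λ) : D.Vgt a ≤ D.Vge a :=
  iSup₂_le (fun _ h => D.line_le_Vge h.le)

theorem Vge_le_Vgt {a b : Λ} (h : a < b) : D.Vge b ≤ D.Vgt a :=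
  iSup₂_le (fun _ h' => D.line_le_Vgt (lt_of_lt_of_le h h'))

theorem Vge_mono {a b : Λ} (h : a ≤ b) : D.Vge b ≤ D.Vge a :=
  iSup₂_le (fun _ h' => D.line_le_Vge (h.trans h'))

theorem Vgt_mono {a b : Λ} (h : a ≤ b) : D.Vgt b ≤ D.Vgt a :=
  iSup₂_le (fun _ h' => D.line_le_Vgt (lt_of_le_of_lt h h'))

theorem Vge_le_B (a : Λ) : D.Vge a ≤ B := iSup₂_le (fun g _ => g.2)

theorem Vgt_le_B (a : Λ) : D.Vgt a ≤ B := (D.Vgt_le_Vge a).trans (D.Vge_le_B a)

/-- an element of `H` whose image is in the group of the block, as an element of it -/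
def elt (h : H) (hh : A.q h ∈ GB D.hB) : D.Gam := ⟨A.q h, hh⟩

theorem tr_Vge_le (g : D.Gam) (h : H) (hg : A.q h = g.1) (a : Λ) :
    A.tr h (D.Vge a) ≤ D.Vge (D.lv g * a) := by
  unfold Vge
  rw [A.tr_iSup]
  refine iSup_le (fun x => ?_)
  rw [A.tr_iSup]
  refine iSup_le (fun hx => ?_)
  rw [A.tr_line, hg]
  refine le_iSup₂_of_le (g * x) ?_ le_rfl
  rw [map_mul]
  exact mul_le_mul_right hx _

theorem tr_Vgt_le (g : D.Gam) (h : H) (hg : A.q h = g.1) (a : Λ) :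
    A.tr h (D.Vgt a) ≤ D.Vgt (D.lv g * a) := by
  unfold Vgt
  rw [A.tr_iSup]
  refine iSup_le (fun x => ?_)
  rw [A.tr_iSup]
  refine iSup_le (fun hx => ?_)
  rw [A.tr_line, hg]
  refine le_iSup₂_of_le (g * x) ?_ le_rfl
  rw [map_mul]
  exact mul_lt_mul_right hx _

theorem tr_Vge (g : D.Gam) (h : H) (hg : A.q h = g.1) (a : Λ) :
    A.tr h (D.Vge a) = D.Vge (D.lv g * a) := by
  refine le_antisymm (D.tr_Vge_le g h hg a) ?_
  have h1 := D.tr_Vge_le g⁻¹ h⁻¹ (by rw [map_inv, hg]; rfl) (D.lv g * a)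
  rw [map_inv, inv_mul_cancel_left] at h1
  have h2 := A.tr_mono h h1
  rwa [A.tr_tr_inv] at h2

theorem tr_Vgt (g : D.Gam) (h : H) (hg : A.q h = g.1) (a : Λ) :
    A.tr h (D.Vgt a) = D.Vgt (D.lv g * a) := by
  refine le_antisymm (D.tr_Vgt_le g h hg a) ?_
  have h1 := D.tr_Vgt_le g⁻¹ h⁻¹ (by rw [map_inv, hg]; rfl) (D.lv g * a)
  rw [map_inv, inv_mul_cancel_left] at h1
  have h2 := A.tr_mono h h1
  rwa [A.tr_tr_inv] at h2

theorem line_not_le (g : D.Gam) : ¬ A.line g.1 ≤ D.Vgt (D.lv g) := by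
  intro h
  have h1 := A.tr_mono (A.s g.1)⁻¹ h
  rw [D.tr_Vgt g⁻¹ (A.s g.1)⁻¹ (by rw [map_inv, A.q_s]; rfl), map_inv, inv_mul_cancel,
    A.tr_line, map_inv, A.q_s, inv_mul_cancel] at h1
  exact D.no h1

theorem line_le_Vgt_iff {a : Λ} {g : D.Gam} : A.line g.1 ≤ D.Vgt a ↔ a < D.lv g := by
  refine ⟨fun h => ?_, D.line_le_Vgt⟩
  by_contra hcon
  exact D.line_not_le g (h.trans (D.Vgt_mono (not_lt.1 hcon)))

theorem line_le_Vge_iff {a : Λ} {g : D.Gam} : A.line g.1 ≤ D.Vge a ↔ a ≤ D.lv g := by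
  refine ⟨fun h => ?_, D.line_le_Vge⟩
  by_contra hcon
  exact D.line_not_le g (h.trans (D.Vge_le_Vgt (not_le.1 hcon)))

theorem e_mem_Vgt_iff {a : Λ} {g : D.Gam} : A.e g.1 ∈ D.Vgt a ↔ a < D.lv g := by
  rw [← A.line_le]; exact D.line_le_Vgt_iff

theorem e_mem_Vge_iff {a : Λ} {g : D.Gam} : A.e g.1 ∈ D.Vge a ↔ a ≤ D.lv g := by
  rw [← A.line_le]; exact D.line_le_Vge_iff

/-- the state of an element of augmentation one -/
theorem state {x : V} (hx : x ∈ B) (h1 : A.eps x = 1) :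
    ∃ g : D.Gam, A.line g.1 = Submodule.span R {x} := by
  obtain ⟨g, hg, h⟩ := D.hB.exists_line hx h1
  exact ⟨⟨g, hg⟩, h⟩

theorem state_mem {x : V} {g : D.Gam} (h : A.line g.1 = Submodule.span R {x})
    {N : Submodule R V} : A.line g.1 ≤ N ↔ x ∈ N := by
  rw [h, Submodule.span_singleton_le_iff_mem]

theorem e_mem_B (g : D.Gam) : A.e g.1 ∈ B := A.line_le.1 g.2

theorem exists_gt (a : Λ) : ∃ g : D.Gam, a < D.lv g := by
  obtain ⟨b, hb⟩ := D.pos
  obtain ⟨g, hg⟩ := D.surj (a * b)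
  exact ⟨g, by rw [hg]; exact lt_mul_of_one_lt_right' a hb⟩

theorem exists_lt (a : Λ) : ∃ g : D.Gam, D.lv g < a := by
  obtain ⟨g, hg⟩ := D.exists_gt a⁻¹
  exact ⟨g⁻¹, by rw [map_inv]; exact inv_lt_of_inv_lt' hg⟩

/-- the intersection of the filtration -/
noncomputable def Z : Submodule R V := ⨅ a, D.Vgt a

theorem Z_le_Vgt (a : Λ) : D.Z ≤ D.Vgt a := iInf_le _ a

theorem Z_le_Vge (a : Λ) : D.Z ≤ D.Vge a := (D.Z_le_Vgt a).trans (D.Vgt_le_Vge a)

theorem Z_le_B : D.Z ≤ B := (D.Z_le_Vgt 1).trans (D.Vgt_le_B 1)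

theorem mem_Z_of {x : V} (h : ∀ a, ∃ b, a < b ∧ x ∈ D.Vge b) : x ∈ D.Z := by
  refine (Submodule.mem_iInf _).2 (fun a => ?_)
  obtain ⟨b, hb, hx⟩ := h a
  exact D.Vge_le_Vgt hb hx

theorem exists_notMem {x : V} (h : x ∉ D.Z) : ∃ a, x ∉ D.Vge a := by
  by_contra hcon
  push Not at hcon
  refine h (D.mem_Z_of (fun a => ?_))
  obtain ⟨g, hg⟩ := D.exists_gt a
  exact ⟨_, hg, hcon _⟩

theorem tr_Z (g : D.Gam) (h : H) (hg : A.q h = g.1) : A.tr h D.Z = D.Z := by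
  have key : ∀ (g : D.Gam) (h : H), A.q h = g.1 → A.tr h D.Z ≤ D.Z := by
    intro g h hg
    refine le_iInf (fun a => ?_)
    have h1 : D.Z ≤ D.Vgt ((D.lv g)⁻¹ * a) := D.Z_le_Vgt _
    have h2 := A.tr_mono h h1
    rwa [D.tr_Vgt g h hg, mul_inv_cancel_left] at h2
  refine le_antisymm (key g h hg) ?_
  have h1 := A.tr_mono h (key g⁻¹ h⁻¹ (by rw [map_inv, hg]; rfl))
  rwa [A.tr_tr_inv] at h1

theorem Z_le_M : D.Z ≤ A.M := by
  intro x hx
  rw [A.mem_M]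
  by_contra hne
  obtain ⟨n, hn⟩ := ZMod.natCast_zmod_surjective (A.eps x)⁻¹
  have h1 : A.eps (n • x) = 1 := by
    rw [map_nsmul, nsmul_eq_mul, hn, inv_mul_cancel₀ hne]
  have h2 : n • x ∈ D.Z := D.Z.smul_of_tower_mem n hx
  obtain ⟨g, hg⟩ := D.state (D.Z_le_B h2) h1
  have h3 := D.Z_le_Vgt (D.lv g) h2
  rw [← D.state_mem hg, D.line_le_Vgt_iff] at h3
  exact lt_irrefl _ h3

/-- every element of the block has a value -/
theorem exists_mem_Vge {x : V} (hx : x ∈ B) : ∃ a, x ∈ D.Vge a := by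
  obtain ⟨n, hn⟩ := exists_shift A x (A.e ((1 : D.Gam) : G)) (A.eps_e _)
  have h1 : A.e ((1 : D.Gam) : G) ∈ B := D.e_mem_B 1
  obtain ⟨g, hg⟩ := D.state (B.add_mem hx (B.smul_of_tower_mem n h1)) hn
  refine ⟨min 1 (D.lv g), ?_⟩
  have h2 : x + n • A.e ((1 : D.Gam) : G) ∈ D.Vge (min 1 (D.lv g)) := by
    rw [← D.state_mem hg]
    exact D.line_le_Vge (min_le_right _ _)
  have h3 : A.e ((1 : D.Gam) : G) ∈ D.Vge (min 1 (D.lv g)) := by
    refine D.e_mem_Vge ?_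
    rw [map_one]
    exact min_le_left _ _
  have h4 := (D.Vge _).sub_mem h2 ((D.Vge _).smul_of_tower_mem n h3)
  rwa [add_sub_cancel_right] at h4

/-- level lemma -/
theorem level {y : V} (hy : y ∈ B) (hyM : y ∈ A.M) {ν : D.Gam} (hν : y ∉ D.Vge (D.lv ν)) :
    ∃ τ : D.Gam, A.line τ.1 = Submodule.span R {y + A.e ν.1} ∧ D.lv τ < D.lv ν ∧
      y ∈ D.Vge (D.lv τ) ∧ y ∉ D.Vgt (D.lv τ) := by
  obtain ⟨τ, hτ⟩ := D.state (x := y + A.e ν.1) (B.add_mem hy (D.e_mem_B ν))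
    (by rw [map_add, A.mem_M.1 hyM, A.eps_e, zero_add])
  have h1 : D.lv τ < D.lv ν := by
    by_contra hcon
    have h2 := D.line_le_Vge (not_lt.1 hcon)
    rw [D.state_mem hτ] at h2
    have h3 := (D.Vge _).sub_mem h2 (D.e_mem_Vge (le_refl (D.lv ν)))
    rw [add_sub_cancel_right] at h3
    exact hν h3
  refine ⟨τ, hτ, h1, ?_, ?_⟩
  · have h2 := D.line_le_Vge (le_refl (D.lv τ))
    rw [D.state_mem hτ] at h2
    have h3 := (D.Vge _).sub_mem h2 (D.e_mem_Vge h1.le)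
    rwa [add_sub_cancel_right] at h3
  · intro h2
    refine D.line_not_le τ ?_
    rw [D.state_mem hτ]
    exact (D.Vgt _).add_mem h2 (D.e_mem_Vgt h1)

omit [Fact p.Prime] in
/-- the representative is a multiple of any element spanning the line -/
theorem e_eq {x : V} {g : G} (h : A.line g = Submodule.span R {x}) : ∃ u : R, A.e g = u • x := by
  have h1 := A.e_mem_line g
  rw [h] at h1
  obtain ⟨u, hu⟩ := Submodule.mem_span_singleton.1 h1
  exact ⟨u, hu.symm⟩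

end VD

end Pool.TFN
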