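import Mathlib
import Pool.Agent.TFN.Val

/-!
# The augmentation ideal kills the quotient by the intersection of the filtration
-/

set_option autoImplicit false

namespace Pool.TFN

open Pool.TFM

namespace VD

open Amb

variable {p : ℕ} [Fact p.Prime] {H G R V : Type} [Group H] [CommGroup G] [CommRing R]
  [AddCommGroup V] [Module R V] {A : Amb p H G R V} {B : Submodule R V} {Λ : Type}
  [CommGroup Λ] [LinearOrder Λ] [IsOrderedMonoid Λ] (D : VD A B Λ)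

/-- the blocks given by the far elements are eventually constant -/
def Stab (a0 : Λ) : Prop :=
  ∀ a, A.M ⊓ D.Vge a0 ≤ A.line 1 ⊔ (A.M ⊓ D.Vge a)

theorem Stab.tr {D : VD A B Λ} {a0 : Λ} (h : D.Stab a0) (g : D.Gam) (a : Λ) :
    A.M ⊓ D.Vge (D.lv g * a0) ≤ A.line g.1 ⊔ (A.M ⊓ D.Vge a) := by
  have h1 := A.tr_mono (A.s g.1) (h ((D.lv g)⁻¹ * a))
  rw [A.tr_sup, A.tr_inf, A.tr_inf, A.tr_M, D.tr_Vge g _ (A.q_s _), D.tr_Vge g _ (A.q_s _),
    A.tr_line, A.q_s, mul_one, mul_inv_cancel_left] at h1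
  exact h1

theorem smul_mem_M {r : R} (hr : r ∈ A.J) (x : V) : r • x ∈ A.M := by
  rw [A.mem_M, A.eps_smul, A.mem_J.1 hr, zero_mul]

theorem smul_mem_of_lines {r : R} {d : Λ} {N : Submodule R V}
    (h : ∀ ω : D.Gam, d < D.lv ω → r • A.e ω.1 ∈ N) : ∀ x ∈ D.Vgt d, r • x ∈ N := by
  have h1 : D.Vgt d ≤ N.comap (LinearMap.lsmul R V r) := by
    refine iSup₂_le (fun g hg => ?_)
    rw [A.line_le]
    exact h g hg
  exact fun x hx => h1 hx


/-- one state approximates all far translates -/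
theorem cof {a0 : Λ} (hS : D.Stab a0) {y : V} (hy : y ∈ B) (hyM : y ∈ A.M) (hyZ : y ∉ D.Z) :
    ∃ τ : D.Gam, (y ∈ D.Vge (D.lv τ) ∧ y ∉ D.Vgt (D.lv τ)) ∧
      ∀ b, ∃ ν : D.Gam, b < D.lv ν ∧
        A.e τ.1 ∈ Submodule.span R {y + A.e ν.1} ⊔ (A.M ⊓ D.Vge b) := by
  obtain ⟨a, ha⟩ := D.exists_notMem hyZ
  obtain ⟨ν1, hν1⟩ := D.exists_gt a
  obtain ⟨τ1, -, -, h3, h4⟩ := D.level hy hyM (ν := ν1) (fun h => ha (D.Vge_mono hν1.le h))
  obtain ⟨ν0, hν0⟩ := D.exists_gt (max a (D.lv τ1 * a0))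
  obtain ⟨τ, h1, -, h5, h6⟩ := D.level hy hyM (ν := ν0)
    (fun h => ha (D.Vge_mono (lt_of_le_of_lt (le_max_left _ _) hν0).le h))
  have hlev : D.lv τ = D.lv τ1 := by
    refine le_antisymm ?_ ?_
    · by_contra hcon
      exact h4 (D.Vge_le_Vgt (not_le.1 hcon) h5)
    · by_contra hcon
      exact h6 (D.Vge_le_Vgt (not_le.1 hcon) h3)
  refine ⟨τ, ⟨h5, h6⟩, fun b => ?_⟩
  obtain ⟨ν, hν⟩ := D.exists_gt (max b (D.lv ν0))
  refine ⟨ν, lt_of_le_of_lt (le_max_left _ _) hν, ?_⟩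
  have hνν0 : D.lv ν0 < D.lv ν := lt_of_le_of_lt (le_max_right _ _) hν
  have hm : A.e ν.1 - A.e ν0.1 ∈ A.M ⊓ D.Vge (D.lv τ * a0) := by
    refine ⟨?_, ?_⟩
    · change A.eps (A.e ν.1 - A.e ν0.1) = 0
      rw [map_sub, A.eps_e, A.eps_e, sub_self]
    · rw [hlev]
      have h7 : D.lv τ1 * a0 ≤ D.lv ν0 := (lt_of_le_of_lt (le_max_right _ _) hν0).le
      exact (D.Vge _).sub_mem (D.e_mem_Vge (h7.trans hνν0.le)) (D.e_mem_Vge h7)
  have h8 : y + A.e ν.1 ∈ A.line τ.1 ⊔ (A.M ⊓ D.Vge b) := by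
    have e1 : y + A.e ν.1 = (y + A.e ν0.1) + (A.e ν.1 - A.e ν0.1) := by abel
    rw [e1]
    refine Submodule.add_mem _ (Submodule.mem_sup_left ?_) (hS.tr τ b hm)
    rw [h1]
    exact Submodule.mem_span_singleton_self _
  obtain ⟨x, hx, m, hm', hxm⟩ := Submodule.mem_sup.1 h8
  have hx1 : A.eps x = 1 := by
    have h9 := congrArg A.eps hxm
    rw [map_add, A.mem_M.1 hm'.1, add_zero, map_add, A.mem_M.1 hyM, A.eps_e, zero_add] at h9
    exact h9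
  have h10 := A.span_eq_of_mem (by rw [hx1]; exact one_ne_zero) hx
  have h11 : A.e τ.1 ∈ Submodule.span R {x} := by
    rw [h10]; exact Submodule.mem_span_singleton_self _
  obtain ⟨u, hu⟩ := Submodule.mem_span_singleton.1 h11
  have h12 : A.e τ.1 = u • (y + A.e ν.1) - u • m := by
    rw [← hu, ← hxm, smul_add, add_sub_cancel_right]
  rw [h12]
  exact Submodule.sub_mem _ (Submodule.mem_sup_left (Submodule.smul_mem _ _
    (Submodule.mem_span_singleton_self _))) (Submodule.mem_sup_right (Submodule.smul_mem _ _ hm'))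

theorem kill_one {a0 : Λ} (hS : D.Stab a0) {r : R} (hr : r ∈ A.J) :
    ∃ σ : D.Gam, r • A.e σ.1 ∈ D.Z := by
  classical
  by_contra hcon
  push Not at hcon
  obtain ⟨k, hk⟩ := A.lnil r (A.mem_J.1 hr) (A.e ((1 : D.Gam) : G))
  have hex : ∃ k : ℕ, r ^ k • A.e ((1 : D.Gam) : G) ∈ D.Z := by
    refine ⟨k, ?_⟩
    rw [hk]
    exact D.Z.zero_mem
  have hfind := Nat.find_spec hex
  have hmin := fun m (hm : m < Nat.find hex) => Nat.find_min hex hm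
  rcases h : Nat.find hex with _ | _ | m
  · rw [h, pow_zero, one_smul] at hfind
    have h1 := D.Z_le_M hfind
    rw [A.mem_M, A.eps_e] at h1
    exact one_ne_zero h1
  · rw [h, zero_add, pow_one] at hfind
    exact hcon 1 hfind
  · rw [h] at hfind hmin
    set x : V := r ^ (m + 1) • A.e ((1 : D.Gam) : G) with hx
    have hxZ : x ∉ D.Z := hmin (m + 1) (by omega)
    have hrx : r • x ∈ D.Z := by
      rw [hx, smul_smul, ← pow_succ']
      exact hfind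
    have hxM : x ∈ A.M := smul_mem_M (by rw [pow_succ']; exact A.J.mul_mem_right _ hr) _
    have hxB : x ∈ B := B.smul_mem _ (D.e_mem_B 1)
    obtain ⟨τ, -, hτ⟩ := D.cof hS hxB hxM hxZ
    refine hcon τ (D.mem_Z_of (fun a => ?_))
    obtain ⟨b0, hb0⟩ := D.exists_gt a
    obtain ⟨ν, hν, hl⟩ := hτ (D.lv b0)
    obtain ⟨z, hz, m', hm', hzm⟩ := Submodule.mem_sup.1 hl
    obtain ⟨u, rfl⟩ := Submodule.mem_span_singleton.1 hz
    refine ⟨D.lv b0, hb0, ?_⟩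
    rw [← hzm, smul_add, smul_comm, smul_add]
    refine (D.Vge _).add_mem ((D.Vge _).smul_mem _ ((D.Vge _).add_mem (D.Z_le_Vge _ hrx) ?_))
      ((D.Vge _).smul_mem _ hm'.2)
    exact (D.Vge _).smul_mem _ (D.e_mem_Vge hν.le)

/-- if `r` kills one state then it kills the far elements of augmentation zero -/
theorem killM {a0 : Λ} (hS : D.Stab a0) {r : R} {σ : D.Gam} (hσ : r • A.e σ.1 ∈ D.Z) :
    ∀ m ∈ A.M ⊓ D.Vge (D.lv σ * a0), r • m ∈ D.Z := by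
  intro m hm
  refine D.mem_Z_of (fun a => ?_)
  obtain ⟨b0, hb0⟩ := D.exists_gt a
  refine ⟨D.lv b0, hb0, ?_⟩
  obtain ⟨z, hz, m', hm', hzm⟩ := Submodule.mem_sup.1 (hS.tr σ (D.lv b0) hm)
  obtain ⟨u, rfl⟩ := Submodule.mem_span_singleton.1 hz
  rw [← hzm, smul_add, smul_comm]
  exact (D.Vge _).add_mem ((D.Vge _).smul_mem _ (D.Z_le_Vge _ hσ)) ((D.Vge _).smul_mem _ hm'.2)

theorem kill_far {a0 : Λ} (hS : D.Stab a0) {r : R} (hr : r ∈ A.J) :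
    ∃ d : Λ, ∀ x ∈ D.Vgt d, r • x ∈ D.Z := by
  obtain ⟨σ, hσ⟩ := D.kill_one hS hr
  refine ⟨D.lv σ * a0, D.smul_mem_of_lines (fun ω hω => D.mem_Z_of (fun a => ?_))⟩
  obtain ⟨ω', hω'⟩ := D.exists_gt (max a (D.lv σ * a0))
  refine ⟨D.lv ω', lt_of_le_of_lt (le_max_left _ _) hω', ?_⟩
  have h1 : A.e ω.1 - A.e ω'.1 ∈ A.M ⊓ D.Vge (D.lv σ * a0) := by
    refine ⟨?_, (D.Vge _).sub_mem (D.e_mem_Vge hω.le)
      (D.e_mem_Vge (lt_of_le_of_lt (le_max_right _ _) hω').le)⟩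
    change A.eps (A.e ω.1 - A.e ω'.1) = 0
    rw [map_sub, A.eps_e, A.eps_e, sub_self]
  have h2 := D.killM hS hσ _ h1
  have h3 : r • A.e ω.1 = r • (A.e ω.1 - A.e ω'.1) + r • A.e ω'.1 := by
    rw [smul_sub, sub_add_cancel]
  rw [h3]
  exact (D.Vge _).add_mem (D.Z_le_Vge _ h2) ((D.Vge _).smul_mem _ (D.e_mem_Vge le_rfl))

theorem unbdd {r : R} {d : Λ} (hd : ∀ x ∈ D.Vgt d, r • x ∈ D.Z) {ω0 : D.Gam}
    (h0 : r • A.e ω0.1 ∉ D.Z) (b : Λ) : ∃ ω : D.Gam, D.lv ω < b ∧ r • A.e ω.1 ∉ D.Z := by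
  obtain ⟨ω1, h1⟩ := D.exists_gt d
  obtain ⟨ω, hω⟩ := D.exists_lt (min b (min (D.lv ω0) (D.lv ω1)))
  have hb : D.lv ω < b := lt_of_lt_of_le hω (min_le_left _ _)
  have hω0 : D.lv ω < D.lv ω0 := lt_of_lt_of_le hω ((min_le_right _ _).trans (min_le_left _ _))
  have hω1 : D.lv ω < D.lv ω1 := lt_of_lt_of_le hω ((min_le_right _ _).trans (min_le_right _ _))
  by_cases hc : r • A.e ω.1 ∈ D.Z
  · set x : V := A.e ω.1 + (A.e ω0.1 - A.e ω1.1) with hx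
    have hxB : x ∈ B := B.add_mem (D.e_mem_B _) (B.sub_mem (D.e_mem_B _) (D.e_mem_B _))
    have hx1 : A.eps x = 1 := by
      rw [hx, map_add, map_sub, A.eps_e, A.eps_e, A.eps_e, sub_self, add_zero]
    obtain ⟨τ, hτ⟩ := D.state hxB hx1
    have h2 : A.e ω0.1 - A.e ω1.1 ∈ D.Vgt (D.lv ω) :=
      (D.Vgt _).sub_mem (D.e_mem_Vgt hω0) (D.e_mem_Vgt hω1)
    have h3 : D.lv τ ≤ D.lv ω := by
      by_contra hcon
      have h4 := D.line_le_Vgt (not_le.1 hcon)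
      rw [D.state_mem hτ] at h4
      have h5 := (D.Vgt _).sub_mem h4 h2
      rw [hx, add_sub_cancel_right] at h5
      exact lt_irrefl _ (D.e_mem_Vgt_iff.1 h5)
    refine ⟨τ, lt_of_le_of_lt h3 hb, fun h4 => h0 ?_⟩
    have h5 : r • x ∈ D.Z := by
      have h6 : x ∈ A.line τ.1 := by rw [hτ]; exact Submodule.mem_span_singleton_self _
      obtain ⟨u, hu⟩ := Submodule.mem_span_singleton.1 h6
      rw [← hu, smul_comm]
      exact D.Z.smul_mem _ h4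
    have h6 : r • A.e ω0.1 = r • x - r • A.e ω.1 + r • A.e ω1.1 := by
      rw [← smul_sub, ← smul_add, hx]
      congr 1
      abel
    rw [h6]
    exact D.Z.add_mem (D.Z.sub_mem h5 hc) (hd _ (D.e_mem_Vgt h1))
  · exact ⟨ω, hb, hc⟩

/-- the key commutation argument -/
theorem star {a0 : Λ} (hS : D.Stab a0)
    (hJ : ∀ r ∈ A.J, ∀ g : D.Gam, r • A.e g.1 ∈ D.Vgt (D.lv g)) {r : R} (hr : r ∈ A.J) {d : Λ}
    (hd : ∀ x ∈ D.Vgt d, r • x ∈ D.Z) {η : D.Gam} (hη : r • A.e η.1 ∉ D.Z) :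
    ∃ k : D.Gam, D.lv k < 1 ∧ ∀ ω : D.Gam, r • A.e ω.1 ∉ D.Z →
      r • A.e (ω * k).1 ∉ D.Vgt (D.lv (ω * k) * ((D.lv η)⁻¹ * d)) := by
  set y : V := r • A.e η.1 with hy
  have hyB : y ∈ B := B.smul_mem _ (D.e_mem_B _)
  obtain ⟨τ, ⟨hτ1, hτ2⟩, hτ⟩ := D.cof hS hyB (smul_mem_M hr _) hη
  have hlt : D.lv η < D.lv τ := by
    by_contra hcon
    exact hτ2 (D.Vgt_mono (not_lt.1 hcon) (hJ r hr η))
  refine ⟨τ⁻¹ * η, ?_, ?_⟩
  · rw [map_mul, map_inv]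
    exact inv_mul_lt_one_iff.2 hlt
  intro ω hω hcon
  set γ : D.Gam := ω * τ⁻¹ with hγ
  set h : H := A.s γ.1 with hh
  have hq : A.q h = γ.1 := A.q_s _
  obtain ⟨r', -, hr'⟩ := A.exists_conj h r
  -- a far point
  obtain ⟨b0, hb0⟩ := D.exists_gt ((D.lv γ)⁻¹ * d)
  obtain ⟨ν, hν, hl⟩ := hτ (D.lv b0)
  have hν' : d < D.lv (γ * ν) := by
    rw [map_mul]
    exact inv_mul_lt_iff_lt_mul.1 (hb0.trans hν)
  have hb0' : d < D.lv γ * D.lv b0 := inv_mul_lt_iff_lt_mul.1 hb0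
  have h1 : A.e ω.1 ∈ A.tr h (Submodule.span R {y + A.e ν.1} ⊔ (A.M ⊓ D.Vge (D.lv b0))) := by
    have h2 := A.tr_mono h (A.line_le.2 hl)
    rw [A.tr_line, hq] at h2
    have h3 : γ.1 * τ.1 = ω.1 := by
      change ((γ * τ : D.Gam) : G) = (ω : G)
      rw [hγ, inv_mul_cancel_right]
    rw [h3, A.line_le] at h2
    exact h2
  rw [A.tr_sup, A.tr_inf, A.tr_M, A.tr_span, D.tr_Vge γ h hq] at h1
  obtain ⟨z, hz, m', hm', hzm⟩ := Submodule.mem_sup.1 h1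
  obtain ⟨u, rfl⟩ := Submodule.mem_span_singleton.1 hz
  have hfar : r • A.act h (A.e ν.1) ∈ D.Z := by
    refine hd _ ?_
    refine D.line_le_Vgt hν' ?_
    change A.act h (A.e ν.1) ∈ A.line (γ.1 * ν.1)
    rw [← hq, ← A.tr_line]
    exact A.act_mem_tr.2 (A.e_mem_line _)
  have hfar' : r • m' ∈ D.Z := hd _ (D.Vge_le_Vgt hb0' hm'.2)
  have h2 : r • A.act h y ∉ D.Z := by
    intro h3
    refine hω ?_
    rw [← hzm, smul_add, smul_comm, map_add, smul_add]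
    exact D.Z.add_mem (D.Z.smul_mem _ (D.Z.add_mem h3 hfar)) hfar'
  refine h2 ?_
  set w : V := r • A.act h (A.e η.1) with hw
  have h3 : r • A.act h y = r' • w := by
    rw [hy, hr', smul_comm]
  rw [h3]
  -- `w` has large value
  have h4 : w ∈ D.Vgt (D.lv γ * d) := by
    have e1 : ω * (τ⁻¹ * η) = γ * η := by rw [hγ, mul_assoc]
    have e2 : D.lv (ω * (τ⁻¹ * η)) * ((D.lv η)⁻¹ * d) = D.lv γ * d := by
      rw [e1, map_mul]; group
    rw [e2, e1] at hcon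
    have h5 : A.act h (A.e η.1) ∈ A.line (γ * η).1 := by
      change A.act h (A.e η.1) ∈ A.line (γ.1 * η.1)
      rw [← hq, ← A.tr_line]
      exact A.act_mem_tr.2 (A.e_mem_line _)
    obtain ⟨t, ht⟩ := Submodule.mem_span_singleton.1 h5
    rw [hw, ← ht, smul_comm]
    exact (D.Vgt _).smul_mem _ hcon
  have h5 : A.act h⁻¹ w ∈ D.Vgt d := by
    rw [← A.mem_tr, D.tr_Vgt γ h hq]
    exact h4
  have h6 := hd _ h5
  have h7 : A.act h (r • A.act h⁻¹ w) ∈ D.Z := by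
    rw [← D.tr_Z γ h hq]
    exact A.act_mem_tr.2 h6
  rwa [hr', A.act_act_inv] at h7

/-- iteration -/
theorem iterate {r : R} (hr : r ∈ A.J) {d : Λ}
    (hd : ∀ x ∈ D.Vgt d, r • x ∈ D.Z) {b C : Λ} (hC : 1 ≤ C)
    (h : ∀ τ : D.Gam, D.lv τ < b → r • A.e τ.1 ∉ D.Vgt (D.lv τ * C)) (i : ℕ) :
    ∀ g : D.Gam, D.lv g * C ^ (i + 1) < b → r ^ (i + 1) • A.e g.1 ∉ D.Vgt (D.lv g * C ^ (i + 1)) := by
  induction i with
  | zero =>
    intro g hg
    rw [zero_add, pow_one] at hg ⊢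
    rw [pow_one]
    exact h g (lt_of_le_of_lt (le_mul_of_one_le_right' hC) hg)
  | succ i ih =>
    intro g hg
    have hle : D.lv g * C ^ (i + 1) ≤ D.lv g * C ^ (i + 1 + 1) := by
      rw [pow_succ C (i + 1), ← mul_assoc]
      exact le_mul_of_one_le_right' hC
    have h1 := ih g (lt_of_le_of_lt hle hg)
    set y : V := r ^ (i + 1) • A.e g.1 with hy
    have hyM : y ∈ A.M := smul_mem_M (by rw [pow_succ']; exact A.J.mul_mem_right _ hr) _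
    have hyB : y ∈ B := B.smul_mem _ (D.e_mem_B _)
    obtain ⟨ν, hν⟩ := D.exists_gt (max d (D.lv g * C ^ (i + 1)))
    have hν1 : d < D.lv ν := lt_of_le_of_lt (le_max_left _ _) hν
    have hν2 : D.lv g * C ^ (i + 1) < D.lv ν := lt_of_le_of_lt (le_max_right _ _) hν
    obtain ⟨τ, h2, -, h3, h4⟩ := D.level hyB hyM (ν := ν) (fun h5 => h1 (D.Vge_le_Vgt hν2 h5))
    have h5 : D.lv τ ≤ D.lv g * C ^ (i + 1) := by
      by_contra hcon
      exact h1 (D.Vge_le_Vgt (not_le.1 hcon) h3)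
    have h6 := h τ (lt_of_le_of_lt (h5.trans hle) hg)
    intro h7
    refine h6 ?_
    obtain ⟨u, hu⟩ := e_eq h2
    rw [hu, smul_comm, smul_add]
    refine (D.Vgt _).smul_mem _ ((D.Vgt _).add_mem ?_ (D.Z_le_Vgt _ (hd _ (D.e_mem_Vgt hν1))))
    rw [hy, smul_smul, ← pow_succ']
    refine D.Vgt_mono ?_ h7
    rw [pow_succ C (i + 1), ← mul_assoc]
    exact mul_le_mul_left h5 C

theorem J_kills {a0 : Λ} (hS : D.Stab a0)
    (hJ : ∀ r ∈ A.J, ∀ g : D.Gam, r • A.e g.1 ∈ D.Vgt (D.lv g)) {r : R}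
    (hr : r ∈ A.J) (hnil : IsNilpotent r) (η : D.Gam) : r • A.e η.1 ∈ D.Z := by
  classical
  by_contra hη
  obtain ⟨d, hd⟩ := D.kill_far hS hr
  obtain ⟨k, hk, hst⟩ := D.star hS hJ hr hd hη
  set C : Λ := (D.lv η)⁻¹ * d with hC
  by_cases hcase : ∀ b, ∃ σ : D.Gam, D.lv σ < b ∧ r • A.e σ.1 ∈ D.Z
  · obtain ⟨ω1, h1⟩ := D.exists_gt d
    obtain ⟨σ, h2, h3⟩ := hcase (min (D.lv η) (D.lv ω1) * a0⁻¹)
    have h4 : D.lv σ * a0 < min (D.lv η) (D.lv ω1) := lt_mul_inv_iff_mul_lt.1 h2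
    have h5 : A.e η.1 - A.e ω1.1 ∈ A.M ⊓ D.Vge (D.lv σ * a0) := by
      refine ⟨?_, (D.Vge _).sub_mem (D.e_mem_Vge (h4.le.trans (min_le_left _ _)))
        (D.e_mem_Vge (h4.le.trans (min_le_right _ _)))⟩
      change A.eps (A.e η.1 - A.e ω1.1) = 0
      rw [map_sub, A.eps_e, A.eps_e, sub_self]
    have h6 := D.killM hS h3 _ h5
    have h7 : r • A.e η.1 = r • (A.e η.1 - A.e ω1.1) + r • A.e ω1.1 := by
      rw [smul_sub, sub_add_cancel]
    refine hη ?_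
    rw [h7]
    exact D.Z.add_mem h6 (hd _ (D.e_mem_Vgt h1))
  · push Not at hcase
    obtain ⟨b, hb⟩ := hcase
    have h1 : ∀ τ : D.Gam, D.lv τ < b * D.lv k → r • A.e τ.1 ∉ D.Vgt (D.lv τ * max 1 C) := by
      intro τ hτ h2
      have h3 : r • A.e (τ * k⁻¹).1 ∉ D.Z := by
        refine hb _ ?_
        rw [map_mul, map_inv]
        exact mul_inv_lt_iff_lt_mul.2 hτ
      have h4 := hst _ h3
      rw [inv_mul_cancel_right] at h4
      exact h4 (D.Vgt_mono (mul_le_mul_right (le_max_right _ _) _) h2)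
    obtain ⟨m, hm⟩ := hnil
    obtain ⟨g, hg⟩ := D.exists_lt (b * D.lv k * (max 1 C ^ (m + 1))⁻¹)
    refine D.iterate hr hd (le_max_left 1 C) h1 m g (lt_mul_inv_iff_mul_lt.1 hg) ?_
    rw [pow_succ r m, hm, zero_mul, zero_smul]
    exact (D.Vgt _).zero_mem

end VD

end Pool.TFN
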