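import Mathlib
import Pool.Agent.TFN.Kill
import Pool.Agent.TFN.CaseI

/-!
# Semilinear actions with an abelian kernel of finite torsion-free rank
-/

set_option autoImplicit false

namespace Pool.TFN

open Cardinal Pool.TFR Pool.TFM

/-- Additional data: a homomorphism to a commutative group whose kernel acts by scalars. -/
structure KD {p : ℕ} {H G R V : Type} [Group H] [CommGroup G] [CommRing R]
    [AddCommGroup V] [Module R V] (A : Amb p H G R V) (Γ : Type) [CommGroup Γ] where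
  κ : H →* Γ
  K_act : ∀ k, κ k = 1 → ∃ u : R, ∀ v : V, A.act k v = u • v
  faith : ∀ r : R, (∀ v : V, r • v = 0) → r = 0
  charp : (p : R) = 0
  ptor : ∀ h, A.q h = 1 → ∃ (n : ℕ) (h' : H), A.act h' A.c = A.c ∧ κ h ^ p ^ n = κ h'
  dcc : DCC p Γ

namespace KD

variable {p : ℕ} {H G R V Γ : Type} [Group H] [CommGroup G] [CommRing R]
  [AddCommGroup V] [Module R V] [CommGroup Γ] {A : Amb p H G R V} (X : KD A Γ)

include X in
theorem eq_of_smul {a b : R} (h : ∀ v : V, a • v = b • v) : a = b := by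
  rw [← sub_eq_zero]
  exact X.faith _ (fun v => by rw [sub_smul, h v, sub_self])

/-- the scalar of an element of the kernel -/
noncomputable def sc (k : ↥X.κ.ker) : R := (X.K_act k.1 k.2).choose

theorem sc_spec (k : ↥X.κ.ker) (v : V) : A.act k.1 v = X.sc k • v :=
  (X.K_act k.1 k.2).choose_spec v

theorem sc_one : X.sc 1 = 1 := X.eq_of_smul (fun v => by
  rw [← X.sc_spec, one_smul]; exact A.act_one v)

theorem sc_mul (a b : ↥X.κ.ker) : X.sc (a * b) = X.sc a * X.sc b := X.eq_of_smul (fun v => by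
  rw [← X.sc_spec, mul_smul, ← X.sc_spec, ← X.sc_spec]; exact A.act_mul _ _ v)

/-- the scalars as units -/
noncomputable def j : ↥X.κ.ker →* Rˣ where
  toFun k := ⟨X.sc k, X.sc k⁻¹, by rw [← X.sc_mul, mul_inv_cancel, X.sc_one],
    by rw [← X.sc_mul, inv_mul_cancel, X.sc_one]⟩
  map_one' := Units.ext X.sc_one
  map_mul' a b := Units.ext (X.sc_mul a b)

theorem coe_j (k : ↥X.κ.ker) : ((X.j k : Rˣ) : R) = X.sc k := rfl

theorem sc_pow (k : ↥X.κ.ker) (n : ℕ) : X.sc (k ^ n) = X.sc k ^ n := by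
  rw [← coe_j, ← coe_j, map_pow, Units.val_pow_eq_pow_val]

theorem aug_sc (k : ↥X.κ.ker) : A.aug (X.sc k) = 1 := by
  have h := congrArg A.eps (X.sc_spec k A.c)
  rw [A.eps_act, A.eps_smul, A.eps_c, mul_one] at h
  exact h.symm

include X in
theorem exists_charP [hp : Fact p.Prime] : CharP R p := by
  have : Nontrivial R := A.aug.domain_nontrivial
  exact (CharP.charP_iff_prime_eq_zero hp.out).2 X.charp

/-- torsion scalars are unipotent -/
theorem nil_of_torsion [hp : Fact p.Prime] (k : ↥X.κ.ker) {m : ℕ} (hm : 0 < m)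
    (h : X.sc k ^ m = 1) : IsNilpotent (X.sc k - 1) := by
  have := X.exists_charP
  obtain ⟨a, q, hq, rfl⟩ := Nat.exists_eq_pow_mul_and_not_dvd hm.ne' p hp.out.ne_one
  set w : R := X.sc k ^ p ^ a with hw
  have hw1 : w ^ q = 1 := by rw [hw, ← pow_mul]; exact h
  have hwa : A.aug w = 1 := by rw [hw, map_pow, X.aug_sc, one_pow]
  have h1 : (w - 1) * ∑ i ∈ Finset.range q, w ^ i = 0 := by
    rw [mul_geom_sum, hw1, sub_self]
  have h2 : A.aug (∑ i ∈ Finset.range q, w ^ i) ≠ 0 := by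
    rw [map_sum, Finset.sum_congr rfl (fun i _ => by rw [map_pow, hwa, one_pow]),
      Finset.sum_const, Finset.card_range, nsmul_eq_mul, mul_one]
    intro h0
    exact hq ((ZMod.natCast_eq_zero_iff q p).1 h0)
  obtain ⟨y, hy⟩ := A.isUnit_of_aug h2
  rw [← hy] at h1
  have h3 : w - 1 = 0 := (Units.mul_left_eq_zero y).1 h1
  refine ⟨p ^ a, ?_⟩
  rw [sub_pow_char_pow, one_pow]
  exact h3

/-- the group of scalars modulo torsion -/
abbrev Tq : Type := ↥X.j.range ⧸ CommGroup.torsion ↥X.j.range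

/-- the map to the group of scalars modulo torsion -/
noncomputable def φ : ↥X.κ.ker →* X.Tq := (QuotientGroup.mk' _).comp X.j.rangeRestrict

theorem φ_surj : Function.Surjective X.φ :=
  (QuotientGroup.mk'_surjective _).comp X.j.rangeRestrict_surjective

theorem φ_eq_one {k : ↥X.κ.ker} (h : X.φ k = 1) : ∃ m : ℕ, 0 < m ∧ X.sc k ^ m = 1 := by
  have h1 : X.j.rangeRestrict k ∈ CommGroup.torsion ↥X.j.range := (QuotientGroup.eq_one_iff _).1 h
  obtain ⟨m, hm, h2⟩ := isOfFinOrder_iff_pow_eq_one.1 h1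
  refine ⟨m, hm, ?_⟩
  have h3 : X.j k ^ m = 1 := congrArg Subtype.val h2
  rw [← X.coe_j, ← Units.val_pow_eq_pow_val, h3, Units.val_one]

theorem dccT [hp : Fact p.Prime] [Group.IsSolvable H] (hr : r0 H < ℵ₀) : DCC p X.Tq := by
  have h1 : ra X.Tq < ℵ₀ := by
    rw [← r0_comm]
    exact lt_of_le_of_lt ((r0_le_of_surjective X.φ X.φ_surj).trans (r0_subgroup_le _)) hr
  refine dcc_of (FR_of_ra h1) hp.out ?_
  refine (Set.finite_singleton (1 : X.Tq)).subset (fun y hy => ?_)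
  obtain ⟨x, rfl⟩ := QuotientGroup.mk_surjective y
  have h2 : x ^ p ∈ CommGroup.torsion ↥X.j.range := (QuotientGroup.eq_one_iff _).1 hy
  rw [Set.mem_singleton_iff, QuotientGroup.eq_one_iff]
  obtain ⟨m, hm, h3⟩ := isOfFinOrder_iff_pow_eq_one.1 h2
  exact isOfFinOrder_iff_pow_eq_one.2 ⟨p * m, Nat.mul_pos hp.out.pos hm, by rw [pow_mul]; exact h3⟩

/-- minimal condition for subgroups of the kernel -/
theorem K_dcc [hp : Fact p.Prime] [Group.IsSolvable H] (hr : r0 H < ℵ₀) (Kinf : Subgroup H)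
    (F : Set (Subgroup H)) (hF : F.Nonempty)
    (hle : ∀ S ∈ F, Kinf ≤ S ∧ S ≤ X.κ.ker ∧ ∀ x ∈ S, ∃ e : ℕ, x ^ p ^ e ∈ Kinf)
    (htor : ∀ k : ↥X.κ.ker, (∃ m : ℕ, 0 < m ∧ X.sc k ^ m = 1) → k.1 ∈ Kinf) :
    ∃ S ∈ F, ∀ S' ∈ F, S' ≤ S → S' = S := by
  obtain ⟨_, ⟨S, hSF, rfl⟩, hmin⟩ := X.dccT hr ((Kinf.subgroupOf X.κ.ker).map X.φ)
    ((fun S => (S.subgroupOf X.κ.ker).map X.φ) '' F) (hF.image _) (by
    rintro _ ⟨S, hSF, rfl⟩
    obtain ⟨h1, h2, h3⟩ := hle S hSF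
    refine ⟨Subgroup.map_mono (fun x hx => h1 hx), ?_⟩
    rintro _ ⟨x, hx, rfl⟩
    obtain ⟨e, he⟩ := h3 x.1 hx
    exact ⟨e, x ^ p ^ e, he, map_pow _ _ _⟩)
  refine ⟨S, hSF, fun S' hS' hS'S => le_antisymm hS'S ?_⟩
  have h4 := hmin _ ⟨S', hS', rfl⟩ (Subgroup.map_mono (fun x hx => hS'S hx))
  intro x hx
  have hxk := (hle S hSF).2.1 hx
  have h5 : X.φ ⟨x, hxk⟩ ∈ (S'.subgroupOf X.κ.ker).map X.φ := by
    change X.φ ⟨x, hxk⟩ ∈ (fun S => (S.subgroupOf X.κ.ker).map X.φ) S'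
    rw [h4]
    exact ⟨⟨x, hxk⟩, hx, rfl⟩
  obtain ⟨y, hy, hyx⟩ := h5
  have h6 : X.φ (y⁻¹ * ⟨x, hxk⟩) = 1 := by rw [map_mul, map_inv, hyx, inv_mul_cancel]
  have h7 := htor _ (X.φ_eq_one h6)
  have h8 : y.1 * (y.1⁻¹ * x) ∈ S' := S'.mul_mem hy ((hle S' hS').1 h7)
  rwa [mul_inv_cancel_left] at h8

end KD

namespace VD

open Amb

variable {p : ℕ} [Fact p.Prime] {H G R V Γ : Type} [Group H] [CommGroup G] [CommRing R]
  [AddCommGroup V] [Module R V] [CommGroup Γ] {A : Amb p H G R V} {B : Submodule R V} {Λ : Type}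
  [CommGroup Λ] [LinearOrder Λ] [IsOrderedMonoid Λ] (D : VD A B Λ) (X : KD A Γ)

/-- elements of the stabiliser of the line moving the base point by an element of an invariant
submodule -/
def HN (N : Submodule R V) (hN : ∀ h, A.q h = 1 → A.tr h N = N) : Subgroup H where
  carrier := {h | A.q h = 1 ∧ A.act h A.c - A.c ∈ N}
  mul_mem' := by
    rintro a b ⟨ha, ha'⟩ ⟨hb, hb'⟩
    refine ⟨by rw [map_mul, ha, hb, mul_one], ?_⟩
    have e : A.act (a * b) A.c - A.c = A.act a (A.act b A.c - A.c) + (A.act a A.c - A.c) := by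
      rw [A.act_mul, map_sub]; abel
    rw [e]
    refine N.add_mem ?_ ha'
    have h1 : A.act a (A.act b A.c - A.c) ∈ A.tr a N := A.act_mem_tr.2 hb'
    rwa [hN a ha] at h1
  one_mem' := by
    refine ⟨map_one _, ?_⟩
    rw [A.act_one, sub_self]
    exact N.zero_mem
  inv_mem' := by
    rintro a ⟨ha, ha'⟩
    have ha2 : A.q a⁻¹ = 1 := by rw [map_inv, ha, inv_one]
    refine ⟨ha2, ?_⟩
    have h1 : A.act a⁻¹ (A.act a A.c - A.c) ∈ A.tr a⁻¹ N := A.act_mem_tr.2 ha'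
    rw [hN _ ha2, map_sub, A.act_inv_act] at h1
    have := N.neg_mem h1
    rwa [neg_sub] at this

theorem trVge1 (b : Λ) (h : H) (hh : A.q h = 1) : A.tr h (D.Vge b) = D.Vge b := by
  rw [D.tr_Vge 1 h (by rw [hh]; rfl), map_one, one_mul]

theorem trZ1 (h : H) (hh : A.q h = 1) : A.tr h D.Z = D.Z := D.tr_Z 1 h (by rw [hh]; rfl)

/-- the filtration of the stabiliser of the line -/
noncomputable def Hb (b : Λ) : Subgroup H := HN (D.Vge b) (D.trVge1 b)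

/-- its limit -/
noncomputable def Hinf : Subgroup H := HN D.Z D.trZ1

theorem Hinf_le (b : Λ) : D.Hinf ≤ D.Hb b := fun _ hh => ⟨hh.1, D.Z_le_Vge b hh.2⟩

theorem Hb_mono {b b' : Λ} (h : b ≤ b') : D.Hb b' ≤ D.Hb b := fun _ hh => ⟨hh.1, D.Vge_mono h hh.2⟩

/-- the filtration does not stop -/
theorem Hb_strict {a0 : Λ} (hS : D.Stab a0) (b : Λ) :
    ∃ b1 b2, b ≤ b1 ∧ b1 ≤ b2 ∧ D.Hb b1 ≠ D.Hb b2 := by
  obtain ⟨g1, h1⟩ := D.exists_gt (max b a0)
  obtain ⟨g2, h2⟩ := D.exists_gt (D.lv g1)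
  have hb : b ≤ D.lv g1 := (lt_of_le_of_lt (le_max_left _ _) h1).le
  have ha : a0 ≤ D.lv g1 := (lt_of_le_of_lt (le_max_right _ _) h1).le
  refine ⟨D.lv g1, D.lv g2, hb, h2.le, ?_⟩
  have h3 : A.e g1.1 - A.e g2.1 ∈ A.M ⊓ D.Vge a0 := by
    refine ⟨?_, (D.Vge _).sub_mem (D.e_mem_Vge ha) (D.e_mem_Vge (ha.trans h2.le))⟩
    change A.eps (A.e g1.1 - A.e g2.1) = 0
    rw [map_sub, A.eps_e, A.eps_e, sub_self]
  obtain ⟨z, hz, m, hm, hzm⟩ := Submodule.mem_sup.1 (hS (D.lv g2) h3)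
  rw [A.line_one] at hz
  obtain ⟨t, rfl⟩ := Submodule.mem_span_singleton.1 hz
  have h4 : A.aug t = 0 := by
    have h5 := congrArg A.eps hzm
    rw [map_add, A.mem_M.1 hm.1, add_zero, A.eps_smul, A.eps_c, mul_one, map_sub, A.eps_e,
      A.eps_e, sub_self] at h5
    exact h5
  obtain ⟨h, hh⟩ := A.trans ((1 + t) • A.c) (by
    rw [A.eps_smul, map_add, map_one, h4, add_zero, A.eps_c, mul_one])
  have hq : A.q h = 1 := by
    rw [A.ker_q, hh]
    exact Submodule.smul_mem _ _ (Submodule.mem_span_singleton_self _)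
  have hd : A.act h A.c - A.c = t • A.c := by
    rw [hh, add_smul, one_smul, add_sub_cancel_left]
  have ht : t • A.c = A.e g1.1 - A.e g2.1 - m := by rw [← hzm, add_sub_cancel_right]
  intro heq
  have h5 : h ∈ D.Hb (D.lv g1) := by
    refine ⟨hq, ?_⟩
    rw [hd, ht]
    exact (D.Vge _).sub_mem ((D.Vge _).sub_mem (D.e_mem_Vge le_rfl) (D.e_mem_Vge h2.le))
      (D.Vge_mono h2.le hm.2)
  rw [heq] at h5
  have h6 := h5.2
  rw [hd, ht] at h6
  have h7 : A.e g1.1 ∈ D.Vge (D.lv g2) := by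
    have e : A.e g1.1 = A.e g1.1 - A.e g2.1 - m + m + A.e g2.1 := by abel
    rw [e]
    exact (D.Vge _).add_mem ((D.Vge _).add_mem h6 hm.2) (D.e_mem_Vge le_rfl)
  rw [D.e_mem_Vge_iff] at h7
  exact absurd h7 (not_le_of_gt h2)

include X in
/-- locally nil scalars are unipotent up to a power of `p` -/
theorem pow_mem_c (k : ↥X.κ.ker) : ∃ n : ℕ, A.act ((k : H) ^ p ^ n) A.c = A.c := by
  have := X.exists_charP
  have h1 : A.aug (X.sc k - 1) = 0 := by rw [map_sub, X.aug_sc, map_one, sub_self]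
  obtain ⟨m, hm⟩ := A.lnil _ h1 A.c
  obtain ⟨n, hn⟩ : ∃ n, m ≤ p ^ n := ⟨m, (Nat.lt_pow_self (Fact.out : p.Prime).one_lt).le⟩
  refine ⟨n, ?_⟩
  have h2 : (X.sc k - 1) ^ p ^ n • A.c = 0 := by
    obtain ⟨d, hd⟩ := Nat.exists_eq_add_of_le hn
    rw [hd, pow_add, mul_comm, mul_smul, hm, smul_zero]
  rw [sub_pow_char_pow, one_pow, sub_smul, one_smul, sub_eq_zero] at h2
  have h3 := X.sc_spec (k ^ p ^ n) A.c
  rw [X.sc_pow, h2] at h3
  exact h3

include X in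
/-- **No valuations.** -/
theorem false_of_stab [Group.IsSolvable H] (hr : r0 H < ℵ₀) {a0 : Λ} (hS : D.Stab a0)
    (hJ : ∀ r ∈ A.J, ∀ g : D.Gam, r • A.e g.1 ∈ D.Vgt (D.lv g)) : False := by
  have hkq : ∀ k : ↥X.κ.ker, A.q k.1 = 1 := by
    intro k
    rw [A.ker_q, X.sc_spec]
    exact Submodule.smul_mem _ _ (Submodule.mem_span_singleton_self _)
  -- the part in the kernel
  have hK : ∃ b1, ∀ b, b1 ≤ b → D.Hb b ⊓ X.κ.ker = D.Hb b1 ⊓ X.κ.ker := by
    obtain ⟨_, ⟨b1, rfl⟩, hmin⟩ := X.K_dcc hr (D.Hinf ⊓ X.κ.ker)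
      (Set.range (fun b => D.Hb b ⊓ X.κ.ker)) (Set.range_nonempty _) (by
        rintro _ ⟨b, rfl⟩
        refine ⟨inf_le_inf_right _ (D.Hinf_le b), inf_le_right, fun x hx => ?_⟩
        obtain ⟨n, hn⟩ := pow_mem_c X ⟨x, hx.2⟩
        refine ⟨n, ⟨?_, ?_⟩, X.κ.ker.pow_mem hx.2 _⟩
        · rw [map_pow, hkq ⟨x, hx.2⟩, one_pow]
        · have hn' : A.act (x ^ p ^ n) A.c = A.c := hn
          rw [hn', sub_self]
          exact D.Z.zero_mem) (by
        rintro k ⟨m, hm, hkm⟩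
        refine ⟨⟨hkq k, ?_⟩, k.2⟩
        have h1 : X.sc k - 1 ∈ A.J := by
          rw [A.mem_J, map_sub, X.aug_sc, map_one, sub_self]
        have h2 := D.J_kills hS hJ h1 (X.nil_of_torsion k hm hkm) 1
        have h3 : A.c ∈ A.line 1 := by rw [A.line_one]; exact Submodule.mem_span_singleton_self _
        obtain ⟨u, hu⟩ := Submodule.mem_span_singleton.1 h3
        have h4 : A.act k.1 A.c - A.c = u • (X.sc k - 1) • A.e ((1 : D.Gam) : G) := by
          rw [X.sc_spec, smul_comm]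
          change _ = (X.sc k - 1) • u • A.e 1
          rw [hu, sub_smul, one_smul]
        rw [h4]
        exact D.Z.smul_mem _ h2)
    exact ⟨b1, fun b hb => hmin _ ⟨b, rfl⟩ (inf_le_inf_right _ (D.Hb_mono hb))⟩
  -- the part in the quotient
  have hΓ : ∃ b2, ∀ b, b2 ≤ b → (D.Hb b).map X.κ = (D.Hb b2).map X.κ := by
    obtain ⟨_, ⟨b2, rfl⟩, hmin⟩ := X.dcc (D.Hinf.map X.κ)
      (Set.range (fun b => (D.Hb b).map X.κ)) (Set.range_nonempty _) (by
        rintro _ ⟨b, rfl⟩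
        refine ⟨Subgroup.map_mono (D.Hinf_le b), ?_⟩
        rintro _ ⟨x, hx, rfl⟩
        obtain ⟨n, h', h1, h2⟩ := X.ptor x hx.1
        refine ⟨n, h', ⟨?_, ?_⟩, h2.symm⟩
        · rw [A.ker_q, h1]; exact Submodule.mem_span_singleton_self _
        · rw [h1, sub_self]
          exact D.Z.zero_mem)
    exact ⟨b2, fun b hb => hmin _ ⟨b, rfl⟩ (Subgroup.map_mono (D.Hb_mono hb))⟩
  obtain ⟨b1, hb1⟩ := hK
  obtain ⟨b2, hb2⟩ := hΓ
  obtain ⟨c1, c2, h1, h2, hne⟩ := D.Hb_strict hS (max b1 b2)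
  apply hne
  have e1 : D.Hb c1 ⊓ X.κ.ker = D.Hb c2 ⊓ X.κ.ker :=
    (hb1 c1 ((le_max_left _ _).trans h1)).trans
      (hb1 c2 ((le_max_left _ _).trans (h1.trans h2))).symm
  have e2 : (D.Hb c1).map X.κ = (D.Hb c2).map X.κ :=
    (hb2 c1 ((le_max_right _ _).trans h1)).trans
      (hb2 c2 ((le_max_right _ _).trans (h1.trans h2))).symm
  refine le_antisymm (fun x hx => ?_) (D.Hb_mono h2)
  have h3 : X.κ x ∈ (D.Hb c2).map X.κ := by rw [← e2]; exact ⟨x, hx, rfl⟩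
  obtain ⟨y, hy, hyx⟩ := h3
  have h4 : y⁻¹ * x ∈ D.Hb c1 ⊓ X.κ.ker := by
    refine ⟨(D.Hb c1).mul_mem ((D.Hb c1).inv_mem (D.Hb_mono h2 hy)) hx, ?_⟩
    change X.κ (y⁻¹ * x) = 1
    rw [map_mul, map_inv, hyx, inv_mul_cancel]
  rw [e1] at h4
  have h5 := (D.Hb c2).mul_mem hy h4.1
  rwa [mul_inv_cancel_left] at h5

end VD

end Pool.TFN
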