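import Mathlib
import Pool.Agent.TFN.Ring
import Pool.Agent.TFN.RankX

/-!
# The group of fractions of the scalars of augmentation one
-/

set_option autoImplicit false

namespace Pool.TFN

open Cardinal Pool.TFR Pool.TFM

namespace TrS

variable {p : ℕ} {Q Γ R V : Type} [Group Q] [CommGroup Γ] [CommRing R]
  [AddCommGroup V] [Module R V] (T : TrS p Q Γ R V)

/-- the scalars of augmentation one -/
def Dm : Submonoid R where
  carrier := {u | T.aug u = 1}
  mul_mem' := by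
    intro a b ha hb
    change T.aug (a * b) = 1
    have ha' : T.aug a = 1 := ha
    have hb' : T.aug b = 1 := hb
    rw [map_mul, ha', hb', mul_one]
  one_mem' := map_one _

theorem aug_Dm (u : ↥T.Dm) : T.aug (u : R) = 1 := u.2

/-- the congruence of equality on the base point -/
def cn : Con ↥T.Dm where
  r u v := ∃ w : ↥T.Dm, ((w * u : ↥T.Dm) : R) • T.c = ((w * v : ↥T.Dm) : R) • T.c
  iseqv := by
    refine ⟨fun u => ⟨1, rfl⟩, fun ⟨w, h⟩ => ⟨w, h.symm⟩, ?_⟩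
    rintro u v x ⟨w, h⟩ ⟨w', h'⟩
    refine ⟨w' * w, ?_⟩
    simp only [Submonoid.coe_mul, mul_smul] at h h' ⊢
    rw [h, smul_comm (w' : R), h', smul_comm (w : R)]
  mul' := by
    rintro u v u' v' ⟨w, h⟩ ⟨w', h'⟩
    refine ⟨w * w', ?_⟩
    simp only [Submonoid.coe_mul, mul_smul] at h h' ⊢
    have e1 : (w : R) • (w' : R) • (u : R) • (u' : R) • T.c =
        (w' : R) • (u' : R) • ((w : R) • (u : R) • T.c) := by module
    have e2 : (w : R) • (w' : R) • (v : R) • (v' : R) • T.c =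
        (w : R) • (v : R) • ((w' : R) • (v' : R) • T.c) := by module
    rw [e1, h, e2, ← h']
    module

theorem cn_iff {u v : ↥T.Dm} : T.cn u v ↔
    ∃ w : ↥T.Dm, ((w : R) * (u : R)) • T.c = ((w : R) * (v : R)) • T.c := Iff.rfl

/-- the group of fractions -/
abbrev EE : Type := Additive (Algebra.GrothendieckGroup T.cn.Quotient)

/-- the class of a scalar of augmentation one -/
noncomputable def ι (u : ↥T.Dm) : T.EE :=
  Additive.ofMul (Algebra.GrothendieckGroup.of ((u : T.cn.Quotient)))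

theorem ι_mul (u v : ↥T.Dm) : T.ι (u * v) = T.ι u + T.ι v := by
  unfold ι
  rw [← ofMul_mul, ← map_mul]
  rfl

theorem ι_one : T.ι 1 = 0 := by
  have h := T.ι_mul 1 1
  rw [mul_one] at h
  exact (left_eq_add.1 h)

theorem ι_eq {u v : ↥T.Dm} : T.ι u = T.ι v ↔ T.cn u v := by
  constructor
  · intro h
    have h1 : (Algebra.GrothendieckGroup.of ((u : T.cn.Quotient))) =
        Algebra.GrothendieckGroup.of ((v : T.cn.Quotient)) := Additive.ofMul.injective h
    obtain ⟨c, hc⟩ := ((Localization.monoidOf (⊤ : Submonoid T.cn.Quotient)).eq_iff_exists).1 h1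
    obtain ⟨w, hw⟩ := Con.mk'_surjective c.1
    rw [← hw] at hc
    have h2 : ((w * u : ↥T.Dm) : T.cn.Quotient) = ((w * v : ↥T.Dm) : T.cn.Quotient) := hc
    obtain ⟨x, hx⟩ := (T.cn.eq).1 h2
    refine ⟨x * w, ?_⟩
    rw [mul_assoc, mul_assoc]
    exact hx
  · intro h
    unfold ι
    rw [(T.cn.eq).2 h]

theorem ι_gen (x : T.EE) : ∃ u v : ↥T.Dm, x = T.ι u - T.ι v := by
  obtain ⟨⟨a, b⟩, hab⟩ := (Localization.monoidOf (⊤ : Submonoid T.cn.Quotient)).surj
    (Additive.toMul x)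
  obtain ⟨u, rfl⟩ := Con.mk'_surjective a
  obtain ⟨b, hb⟩ := b
  obtain ⟨v, rfl⟩ := Con.mk'_surjective b
  refine ⟨u, v, ?_⟩
  rw [eq_sub_iff_add_eq]
  exact congrArg Additive.ofMul hab

theorem EE_ext {A : Type} [AddCommGroup A] {f g : T.EE →+ A} (h : ∀ u, f (T.ι u) = g (T.ι u))
    (x : T.EE) : f x = g x := by
  obtain ⟨u, v, rfl⟩ := T.ι_gen x
  rw [map_sub, map_sub, h, h]

/-- functoriality -/
noncomputable def mapE (f : ↥T.Dm →* ↥T.Dm) (hf : ∀ u v, T.cn u v → T.cn (f u) (f v)) :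
    T.EE →+ T.EE :=
  MonoidHom.toAdditive (Algebra.GrothendieckGroup.lift
    (Algebra.GrothendieckGroup.of.comp (T.cn.lift (T.cn.mk'.comp f) (fun u v huv => by
      change T.cn.mk' (f u) = T.cn.mk' (f v)
      exact (T.cn.eq).2 (hf u v huv)))))

theorem mapE_ι (f : ↥T.Dm →* ↥T.Dm) (hf : ∀ u v, T.cn u v → T.cn (f u) (f v)) (u : ↥T.Dm) :
    T.mapE f hf (T.ι u) = T.ι (f u) := by
  change Additive.ofMul (Algebra.GrothendieckGroup.lift _ (Algebra.GrothendieckGroup.of _)) = _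
  congr 1
  have h := DFunLike.congr_fun (Algebra.GrothendieckGroup.lift.symm_apply_apply
    (Algebra.GrothendieckGroup.of.comp (T.cn.lift (T.cn.mk'.comp f) (fun u v huv => by
      change T.cn.mk' (f u) = T.cn.mk' (f v)
      exact (T.cn.eq).2 (hf u v huv))))) ((u : T.cn.Quotient))
  exact h

/-- conjugation of scalars of augmentation one -/
noncomputable def cjD (h : Q) : ↥T.Dm →* ↥T.Dm where
  toFun u := ⟨T.cj h u, by
    change T.aug _ = 1
    rw [T.aug_cj]; exact u.2⟩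
  map_one' := Subtype.ext (T.cj_one_right h)
  map_mul' a b := Subtype.ext (T.cj_mul_right h _ _)

theorem coe_cjD (h : Q) (u : ↥T.Dm) : ((T.cjD h u : ↥T.Dm) : R) = T.cj h u := rfl

/-- elements moving the base point to a fraction of itself -/
def Lp : Subgroup Q where
  carrier := {h | ∃ a b : ↥T.Dm, (a : R) • T.act h T.c = (b : R) • T.c}
  mul_mem' := by
    rintro x y ⟨a, b, h⟩ ⟨a', b', h'⟩
    refine ⟨a * T.cjD x a', b * T.cjD x b', ?_⟩
    rw [Submonoid.coe_mul, Submonoid.coe_mul, coe_cjD, coe_cjD, mul_smul, T.act_mul,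
      ← T.cj_spec, h', T.cj_spec, smul_comm, h, mul_comm, mul_smul]
  one_mem' := ⟨1, 1, by rw [T.act_one]⟩
  inv_mem' := by
    rintro x ⟨a, b, h⟩
    refine ⟨T.cjD x⁻¹ b, T.cjD x⁻¹ a, ?_⟩
    rw [coe_cjD, coe_cjD, ← T.cj_spec, ← h, T.cj_spec, T.act_inv_act]

theorem mem_Lp {h : Q} : h ∈ T.Lp ↔ ∃ a b : ↥T.Dm, (a : R) • T.act h T.c = (b : R) • T.c :=
  Iff.rfl

theorem cjD_cn {h : Q} (hh : h ∈ T.Lp) (u v : ↥T.Dm) (huv : T.cn u v) :
    T.cn (T.cjD h u) (T.cjD h v) := by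
  obtain ⟨w, hw⟩ := T.cn_iff.1 huv
  obtain ⟨a, b, hab⟩ := hh
  refine T.cn_iff.2 ⟨b * T.cjD h w, ?_⟩
  rw [Submonoid.coe_mul, coe_cjD, coe_cjD, coe_cjD]
  have key : ∀ x : ↥T.Dm, ((b : R) * T.cj h w * T.cj h x) • T.c =
      (a : R) • T.act h (((w : R) * (x : R)) • T.c) := by
    intro x
    rw [T.cj_spec, smul_comm, hab, T.cj_mul_right, smul_smul]
    congr 1; ring
  rw [key, key, hw]

/-- the action on the group of fractions -/
noncomputable def mE (h : ↥T.Lp) : T.EE →+ T.EE := T.mapE (T.cjD h.1) (T.cjD_cn h.2)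

theorem mE_ι (h : ↥T.Lp) (u : ↥T.Dm) : T.mE h (T.ι u) = T.ι (T.cjD h.1 u) := T.mapE_ι _ _ _

/-- the linear action on the group of fractions -/
noncomputable def rhoE : ↥T.Lp →* Module.End ℤ T.EE where
  toFun h := (T.mE h).toIntLinearMap
  map_one' := by
    refine LinearMap.ext (fun x => ?_)
    refine T.EE_ext (f := T.mE 1) (g := AddMonoidHom.id _) (fun u => ?_) x
    rw [T.mE_ι]
    refine congrArg T.ι (Subtype.ext ?_)
    rw [coe_cjD]
    exact T.cj_one _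
  map_mul' a b := by
    refine LinearMap.ext (fun x => ?_)
    refine T.EE_ext (f := T.mE (a * b)) (g := (T.mE a).comp (T.mE b)) (fun u => ?_) x
    rw [AddMonoidHom.comp_apply, T.mE_ι, T.mE_ι, T.mE_ι]
    refine congrArg T.ι (Subtype.ext ?_)
    rw [coe_cjD, coe_cjD, coe_cjD]
    exact T.cj_mul _ _ _

theorem rhoE_ι (h : ↥T.Lp) (u : ↥T.Dm) : T.rhoE h (T.ι u) = T.ι (T.cjD h.1 u) := T.mE_ι _ _

/-- the value of the derivation -/
noncomputable def piE (h : ↥T.Lp) : T.EE :=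
  T.ι (T.mem_Lp.1 h.2).choose_spec.choose - T.ι (T.mem_Lp.1 h.2).choose

theorem piE_eq (h : ↥T.Lp) {a b : ↥T.Dm} (hab : (a : R) • T.act h.1 T.c = (b : R) • T.c) :
    T.piE h = T.ι b - T.ι a := by
  unfold piE
  have h1 := (T.mem_Lp.1 h.2).choose_spec.choose_spec
  set a' := (T.mem_Lp.1 h.2).choose
  set b' := (T.mem_Lp.1 h.2).choose_spec.choose
  rw [sub_eq_sub_iff_add_eq_add, ← T.ι_mul, ← T.ι_mul, T.ι_eq, T.cn_iff]
  refine ⟨1, ?_⟩
  rw [Submonoid.coe_mul, Submonoid.coe_mul, Submonoid.coe_one, one_mul, one_mul, mul_comm,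
    mul_smul, ← h1, mul_smul, smul_comm, hab]
  rw [smul_smul, smul_smul, mul_comm]

/-- the derivation with values in the group of fractions -/
noncomputable def derE : Der ↥T.Lp T.EE where
  ρ := T.rhoE
  π := T.piE
  map_mul x y := by
    obtain ⟨a, b, h⟩ := T.mem_Lp.1 x.2
    obtain ⟨a', b', h'⟩ := T.mem_Lp.1 y.2
    rw [T.piE_eq x h, T.piE_eq y h', map_sub, T.rhoE_ι, T.rhoE_ι,
      T.piE_eq (x * y) (a := a * T.cjD x.1 a') (b := b * T.cjD x.1 b') (by
        rw [Submonoid.coe_mul, coe_cjD, mul_smul, Subgroup.coe_mul,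
          T.act_mul, ← T.cj_spec, h', T.cj_spec, smul_comm, h, mul_comm, Submonoid.coe_mul,
          coe_cjD, mul_smul]),
      T.ι_mul, T.ι_mul]
    abel

/-- the submonoid of classes of scalars -/
noncomputable def SE : AddSubmonoid T.EE where
  carrier := Set.range T.ι
  zero_mem' := ⟨1, T.ι_one⟩
  add_mem' := by
    rintro _ _ ⟨u, rfl⟩ ⟨v, rfl⟩
    exact ⟨u * v, T.ι_mul u v⟩

theorem preE : PreD T.derE T.SE where
  inv a := by
    rintro _ ⟨u, rfl⟩
    exact ⟨T.cjD a.1 u, (T.rhoE_ι a u).symm⟩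
  val := by
    rintro _ ⟨u, rfl⟩
    obtain ⟨h, hh⟩ := T.trans ((u : R) • T.c) (by rw [T.eps_smul, T.eps_c, T.aug_Dm, mul_one])
    have h1 : ((1 : ↥T.Dm) : R) • T.act h T.c = (u : R) • T.c := by
      rw [Submonoid.coe_one, one_smul, hh]
    refine ⟨⟨h, 1, u, h1⟩, ?_⟩
    change T.piE _ = _
    rw [T.piE_eq _ h1, T.ι_one, sub_zero]
  gen x := by
    obtain ⟨u, v, rfl⟩ := T.ι_gen x
    exact ⟨_, ⟨u, rfl⟩, _, ⟨v, rfl⟩, rfl⟩

/-- **The group of fractions has finite rank.** -/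
theorem rank_EE [Group.IsSolvable Q] (hr : r0 Q < ℵ₀) : Module.rank ℤ T.EE < ℵ₀ := by
  let N : Subgroup ↥T.Lp := (T.κ.comp T.Lp.subtype).ker
  have hN : ∀ c ∈ N, T.derE.ρ c = 1 := by
    intro c hc
    have hc' : T.κ c.1 = 1 := hc
    refine LinearMap.ext (fun x => ?_)
    refine T.EE_ext (f := T.mE c) (g := AddMonoidHom.id _) (fun u => ?_) x
    rw [T.mE_ι]
    refine congrArg T.ι (Subtype.ext ?_)
    rw [coe_cjD]
    exact T.cj_of_K hc' _
  have hinv := inv_valN T.derE hN (MonoidHom.normal_ker _)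
  have hLr : r0 ↥T.Lp < ℵ₀ := lt_of_le_of_lt (r0_subgroup_le T.Lp) hr
  have h1 : Module.rank ℤ (valN T.derE N hN) < ℵ₀ :=
    lt_of_le_of_lt ((rank_valN_le T.derE hN).trans (r0_subgroup_le N)) hLr
  let f : ↥T.Lp →* ↥(T.κ.comp T.Lp.subtype).range := (T.κ.comp T.Lp.subtype).rangeRestrict
  have hf : ∀ g, f g = 1 → g ∈ N := fun g hg => congrArg Subtype.val hg
  have h2 : ra ↥(T.κ.comp T.Lp.subtype).range < ℵ₀ := by
    rw [← r0_comm]
    exact lt_of_le_of_lt (r0_le_of_surjective f (MonoidHom.rangeRestrict_surjective _)) hLr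
  obtain ⟨n, hn⟩ := Cardinal.lt_aleph0.1 h2
  have h3 : Module.rank ℤ (T.EE ⧸ valN T.derE N hN) < ℵ₀ := by
    refine rank_X (n + 1) _ _ _ _ ((T.preE.quot hinv).desc f
      (MonoidHom.rangeRestrict_surjective _) (fun g hg => ?_) (fun g hg => ?_)) ?_
    · refine LinearMap.ext (fun y => ?_)
      obtain ⟨x, rfl⟩ := Submodule.Quotient.mk_surjective _ y
      change Submodule.Quotient.mk (T.derE.ρ g x) = Submodule.Quotient.mk x
      rw [hN g (hf g hg)]
      rfl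
    · change Submodule.Quotient.mk (T.derE.π g) = 0
      rw [Submodule.Quotient.mk_eq_zero]
      exact (mem_valN T.derE).2 ⟨g, hf g hg, rfl⟩
    · rw [hn]
      exact_mod_cast Nat.lt_succ_self n
  have h4 := rank_quotient_add_rank_of_isDomain (valN T.derE N hN)
  rw [← h4]
  exact Cardinal.add_lt_aleph0 h3 h1

end TrS

end Pool.TFN
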