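import Mathlib
import Pool.Agent.TFN.Frac
import Pool.Agent.TFR.Tors

/-!
# The kernel acts by elements of finite order on every vector
-/

set_option autoImplicit false

namespace Pool.TFN

open Cardinal Pool.TFR Pool.TFM Polynomial

/-- injective endomorphisms of commutative groups of finite rank -/
theorem exists_pow_range {C : Type} [CommGroup C] (hr : ra C < ℵ₀) (φ : C →* C)
    (hφ : Function.Injective φ) (y : C) : ∃ n : ℕ, 0 < n ∧ ∃ x, φ x = y ^ n := by
  have h1 := ra_add (QuotientGroup.mk' φ.range) (QuotientGroup.mk'_surjective _)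
  rw [QuotientGroup.ker_mk'] at h1
  have h2 : ra C = ra ↥φ.range := ra_congr (MonoidHom.ofInjective hφ)
  rw [← h2] at h1
  have h3 : ra (C ⧸ φ.range) = 0 := by
    have h4 : ra C + ra (C ⧸ φ.range) = ra C + 0 := by rw [add_zero]; exact h1.symm
    exact Cardinal.eq_of_add_eq_add_left h4 hr
  unfold ra at h3
  rw [rank_eq_zero_iff] at h3
  obtain ⟨a, ha, hay⟩ := h3 (Additive.ofMul (QuotientGroup.mk y))
  have h5 : (QuotientGroup.mk y : C ⧸ φ.range) ^ a.natAbs = 1 := by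
    have h6 : (QuotientGroup.mk y : C ⧸ φ.range) ^ a = 1 := hay
    rcases Int.natAbs_eq a with h7 | h7
    · rw [h7, zpow_natCast] at h6
      exact h6
    · rw [h7, zpow_neg, zpow_natCast, inv_eq_one] at h6
      exact h6
  refine ⟨a.natAbs, Int.natAbs_pos.2 ha, ?_⟩
  rw [← QuotientGroup.mk_pow] at h5
  exact (QuotientGroup.eq_one_iff _).1 h5

namespace TrS

variable {p : ℕ} {Q Γ R V : Type} [Group Q] [CommGroup Γ] [CommRing R]
  [AddCommGroup V] [Module R V] (T : TrS p Q Γ R V)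

/-- the scalar of an element of the kernel -/
noncomputable def sc (k : ↥T.κ.ker) : R := (T.K_act k.1 k.2).choose

theorem sc_spec (k : ↥T.κ.ker) (v : V) : T.act k.1 v = T.sc k • v :=
  (T.K_act k.1 k.2).choose_spec v

theorem sc_one : T.sc 1 = 1 := T.eq_of_smul (fun v => by
  rw [← T.sc_spec, one_smul]; exact T.act_one v)

theorem sc_mul (a b : ↥T.κ.ker) : T.sc (a * b) = T.sc a * T.sc b := T.eq_of_smul (fun v => by
  rw [← T.sc_spec, mul_smul, ← T.sc_spec, ← T.sc_spec]; exact T.act_mul _ _ v)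

/-- the scalars as units -/
noncomputable def j : ↥T.κ.ker →* Rˣ where
  toFun k := ⟨T.sc k, T.sc k⁻¹, by rw [← T.sc_mul, mul_inv_cancel, T.sc_one],
    by rw [← T.sc_mul, inv_mul_cancel, T.sc_one]⟩
  map_one' := Units.ext T.sc_one
  map_mul' a b := Units.ext (T.sc_mul a b)

theorem coe_j (k : ↥T.κ.ker) : ((T.j k : Rˣ) : R) = T.sc k := rfl

theorem sc_pow (k : ↥T.κ.ker) (n : ℕ) : T.sc (k ^ n) = T.sc k ^ n := by
  rw [← coe_j, ← coe_j, map_pow, Units.val_pow_eq_pow_val]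

theorem aug_sc (k : ↥T.κ.ker) : T.aug (T.sc k) = 1 := by
  have h := congrArg T.eps (T.sc_spec k T.c)
  rw [T.eps_act, T.eps_smul, T.eps_c, mul_one] at h
  exact h.symm

/-- conjugation of scalars -/
noncomputable def cjR (h : Q) : R →+* R where
  toFun := T.cj h
  map_one' := T.cj_one_right h
  map_mul' := T.cj_mul_right h
  map_zero' := T.cj_zero_right h
  map_add' := T.cj_add_right h

/-- conjugation of unit scalars -/
noncomputable def cjV (h : Q) : Rˣ →* Rˣ := Units.map (T.cjR h : R →* R)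

theorem coe_cjV (h : Q) (u : Rˣ) : ((T.cjV h u : Rˣ) : R) = T.cj h u := rfl

theorem cj_inv_cj (h : Q) (r : R) : T.cj h⁻¹ (T.cj h r) = r := by
  rw [← T.cj_mul, inv_mul_cancel, T.cj_one]

theorem cj_cj_inv (h : Q) (r : R) : T.cj h (T.cj h⁻¹ r) = r := by
  rw [← T.cj_mul, mul_inv_cancel, T.cj_one]

theorem cj_pow (h : Q) (r : R) (n : ℕ) : T.cj h (r ^ n) = T.cj h r ^ n := map_pow (T.cjR h) r n

theorem cjV_inj (h : Q) : Function.Injective (T.cjV h) := by
  intro a b hab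
  refine Units.ext ?_
  have := congrArg (fun u : Rˣ => T.cj h⁻¹ (u : R)) hab
  simp only [coe_cjV, cj_inv_cj] at this
  exact this

theorem cjV_mem (h : Q) {u : Rˣ} (hu : u ∈ T.j.range) : T.cjV h u ∈ T.j.range := by
  obtain ⟨k, rfl⟩ := hu
  have hk : T.κ (h * k.1 * h⁻¹) = 1 := by
    have := k.2
    rw [MonoidHom.mem_ker] at this
    rw [map_mul, map_mul, this, mul_one, ← map_mul, mul_inv_cancel, map_one]
  refine ⟨⟨h * k.1 * h⁻¹, hk⟩, Units.ext ?_⟩
  rw [coe_cjV, coe_j, coe_j]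
  refine T.eq_of_smul_act h (fun v => ?_)
  rw [← T.cj_spec, ← T.sc_spec, ← T.sc_spec, ← T.act_mul, inv_mul_cancel_right, T.act_mul]

/-- the unit scalars of the kernel having finite order on the base point -/
def CC : Subgroup Rˣ where
  carrier := {u | u ∈ T.j.range ∧ ∃ m : ℕ, 0 < m ∧ ((u : R) ^ m) • T.c = T.c}
  mul_mem' := by
    rintro a b ⟨ha, m, hm, ham⟩ ⟨hb, n, hn, hbn⟩
    refine ⟨T.j.range.mul_mem ha hb, m * n, Nat.mul_pos hm hn, ?_⟩
    have key : ∀ {r : R} {m : ℕ}, (r ^ m) • T.c = T.c → ∀ n, (r ^ (m * n)) • T.c = T.c := by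
      intro r m h n
      induction n with
      | zero => rw [mul_zero, pow_zero, one_smul]
      | succ n ih => rw [Nat.mul_succ, pow_add, mul_smul, h, ih]
    rw [Units.val_mul, mul_pow, mul_smul, mul_comm m n, key hbn m, mul_comm n m, key ham n]
  one_mem' := ⟨T.j.range.one_mem, 1, one_pos, by rw [Units.val_one, one_pow, one_smul]⟩
  inv_mem' := by
    rintro a ⟨ha, m, hm, ham⟩
    refine ⟨T.j.range.inv_mem ha, m, hm, ?_⟩
    have h1 : ((a⁻¹ : Rˣ) : R) ^ m * (a : R) ^ m = 1 := by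
      rw [← mul_pow, Units.inv_mul, one_pow]
    conv_lhs => rw [← ham]
    rw [smul_smul, h1, one_smul]

/-- the order on a multiple of the base point -/
theorem order_mul [Group.IsSolvable Q] (hr : r0 Q < ℵ₀) {w : R} (hw : T.aug w = 1) {u : Rˣ}
    (hu : u ∈ T.j.range) {m : ℕ} (hm : 0 < m) (h : ((u : R) ^ m) • w • T.c = w • T.c) :
    ∃ n : ℕ, 0 < n ∧ ((u : R) ^ n) • T.c = T.c := by
  obtain ⟨g, hg⟩ := T.trans (w • T.c) (by rw [T.eps_smul, T.eps_c, hw, mul_one])
  -- conjugation maps elements of finite order on `w c` to elements of finite order on `c`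
  have key : ∀ (v : Rˣ), v ∈ T.j.range → ∀ n : ℕ, 0 < n → ((v : R) ^ n) • w • T.c = w • T.c →
      T.cjV g⁻¹ v ∈ T.CC := by
    intro v hv n hn hvn
    refine ⟨T.cjV_mem _ hv, n, hn, ?_⟩
    have h1 : T.act g ((T.cjV g⁻¹ v : R) ^ n • T.c) = T.act g T.c := by
      rw [T.cj_spec, T.cj_pow, coe_cjV, T.cj_cj_inv, hg, hvn]
    have h2 := congrArg (T.act g⁻¹) h1
    rwa [T.act_inv_act, T.act_inv_act] at h2
  have hC : ∀ v ∈ T.CC, T.cjV g⁻¹ v ∈ T.CC := by
    rintro v ⟨hv, n, hn, hvn⟩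
    refine key v hv n hn ?_
    rw [smul_comm, hvn]
  let φ : ↥T.CC →* ↥T.CC := ((T.cjV g⁻¹).comp T.CC.subtype).codRestrict T.CC
    (fun x => hC x.1 x.2)
  have hφ : Function.Injective φ := by
    intro a b hab
    exact Subtype.ext (T.cjV_inj _ (congrArg Subtype.val hab))
  have hra : ra ↥T.CC < ℵ₀ := by
    have h1 : ra ↥T.CC ≤ ra ↥T.j.range :=
      ra_le_of_injective (Subgroup.inclusion (fun x hx => hx.1)) (Subgroup.inclusion_injective _)
    refine lt_of_le_of_lt h1 ?_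
    rw [← r0_comm]
    exact lt_of_le_of_lt ((r0_le_of_surjective T.j.rangeRestrict
      (MonoidHom.rangeRestrict_surjective _)).trans (r0_subgroup_le _)) hr
  obtain ⟨n, hn, ⟨x, hx1, n', hn', hxn⟩, hxy⟩ := exists_pow_range hra φ hφ
    ⟨T.cjV g⁻¹ u, key u hu m hm h⟩
  have h1 : T.cjV g⁻¹ x = T.cjV g⁻¹ (u ^ n) := by
    have := congrArg Subtype.val hxy
    rw [map_pow]
    exact this
  have h2 := T.cjV_inj _ h1
  refine ⟨n * n', Nat.mul_pos hn hn', ?_⟩
  rw [h2, Units.val_pow_eq_pow_val, ← pow_mul] at hxn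
  exact hxn

theorem aeval_act {k : ↥T.κ.ker} (G : ℤ[X]) (x : V) :
    aeval (T.act k.1) G x = (aeval (T.sc k) G : R) • x := by
  refine Polynomial.induction_on' G (fun a b ha hb => ?_) (fun n a => ?_)
  · rw [map_add, map_add, LinearMap.add_apply, ha, hb, add_smul]
  · have h1 : ∀ n : ℕ, (T.act k.1 ^ n) x = (T.sc k ^ n) • x := by
      intro n
      rw [← map_pow, ← T.sc_pow]
      exact T.sc_spec (k ^ n) x
    rw [aeval_monomial, aeval_monomial, Module.End.mul_apply, h1, mul_smul]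
    change a • ((T.sc k ^ n) • x) = _
    rw [algebraMap_smul]

/-- **Local torsion.** -/
theorem per_c [Fact p.Prime] [Group.IsSolvable Q] (hr : r0 Q < ℵ₀) (k : ↥T.κ.ker) :
    ∃ m : ℕ, 0 < m ∧ (T.sc k ^ m) • T.c = T.c := by
  classical
  by_contra hcon
  push Not at hcon
  -- the sequence
  have haug : ∀ i, T.aug (1 + (T.sc k - 1) * seqP (T.sc k - 1) i) = 1 := by
    intro i
    rw [map_add, map_mul, map_sub, T.aug_sc, map_one, sub_self, zero_mul, add_zero]
  let g : ℕ → ↥T.Dm := fun i => ⟨_, haug i⟩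
  have hrk : ra (Algebra.GrothendieckGroup T.cn.Quotient) < ℵ₀ := T.rank_EE hr
  obtain ⟨a, b, hab, hd, hrel⟩ := exists_relation hrk
    (fun i => Algebra.GrothendieckGroup.of ((g i : T.cn.Quotient)))
  have hprod : ∀ a : ℕ →₀ ℕ, a.prod (fun i n =>
      (Algebra.GrothendieckGroup.of ((g i : T.cn.Quotient)) :
        Algebra.GrothendieckGroup T.cn.Quotient) ^ n) =
      Algebra.GrothendieckGroup.of (((a.prod (fun i n => g i ^ n) : ↥T.Dm) :
        T.cn.Quotient)) := by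
    intro a
    have h1 : ((a.prod (fun i n => g i ^ n) : ↥T.Dm) : T.cn.Quotient) =
        a.prod (fun i n => (g i : T.cn.Quotient) ^ n) := by
      change T.cn.mk' _ = _
      unfold Finsupp.prod
      rw [map_prod]
      rfl
    rw [h1]
    unfold Finsupp.prod
    rw [map_prod]
    refine Finset.prod_congr rfl (fun i _ => ?_)
    rw [map_pow]
  rw [hprod, hprod] at hrel
  have h1 : T.cn (a.prod (fun i n => g i ^ n)) (b.prod (fun i n => g i ^ n)) :=
    T.ι_eq.1 (congrArg Additive.ofMul hrel)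
  obtain ⟨w, hw⟩ := T.cn_iff.1 h1
  -- polynomials
  let G : (ℕ →₀ ℕ) → ℤ[X] := fun a => a.prod (fun i n => (1 + (X - 1) * seqP (X - 1 : ℤ[X]) i) ^ n)
  have hseq : ∀ i, aeval (T.sc k) (seqP (X - 1 : ℤ[X]) i) = seqP (T.sc k - 1) i := by
    intro i
    induction i with
    | zero => exact map_one _
    | succ i ih =>
      rw [seqP, seqP, map_mul, map_add, map_mul, map_sub, map_one, aeval_X, ih]
  have hG : ∀ a : ℕ →₀ ℕ, ((a.prod (fun i n => g i ^ n) : ↥T.Dm) : R) = aeval (T.sc k) (G a) := by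
    intro a
    change T.Dm.subtype (a.prod (fun i n => g i ^ n)) = aeval (T.sc k)
      (a.prod (fun i n => (1 + (X - 1) * seqP (X - 1 : ℤ[X]) i) ^ n))
    unfold Finsupp.prod
    rw [map_prod, map_prod]
    refine Finset.prod_congr rfl (fun i _ => ?_)
    rw [map_pow, map_pow, map_add, map_mul, map_sub, map_one, aeval_X, hseq]
    rfl
  have h2 : aeval (T.act k.1) (G a - G b) ((w : R) • T.c) = 0 := by
    rw [T.aeval_act, map_sub, sub_smul, sub_eq_zero, ← hG, ← hG, smul_smul, smul_smul, mul_comm,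
      hw, mul_comm]
  have hinj : Function.Injective (T.act k.1) := by
    intro x y hxy
    have := congrArg (T.act k.1⁻¹) hxy
    rwa [T.act_inv_act, T.act_inv_act] at this
  have hpV : (p : ℤ) • ((w : R) • T.c) = 0 := by
    rw [natCast_zsmul, ← Nat.cast_smul_eq_nsmul R, T.charp, zero_smul]
  have hne : (G a - G b).map (Int.castRingHom (ZMod p)) ≠ 0 := by
    let κ : ℤ[X] →+* (ZMod p)[X] := Polynomial.mapRingHom (Int.castRingHom (ZMod p))
    have hκ : ∀ G : ℤ[X], κ G = G.map (Int.castRingHom (ZMod p)) := fun _ => rfl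
    have h3 := coprime_ne (k := (ZMod p)[X]) 1
      (fun i => κ (1 + (X - 1) * seqP (X - 1 : ℤ[X]) i)) (fun i => isCoprime_one_right)
      (fun i j hij => (seq_coprime (X - 1 : ℤ[X]) hij).map κ) (fun i => by
        obtain ⟨-, hm, hdeg⟩ := seqP_monic i
        refine Polynomial.not_isUnit_of_natDegree_pos _ ?_
        rw [hκ, hm.natDegree_map]
        exact hdeg) a b hab hd
    intro h4
    apply h3
    rw [one_pow, one_pow, one_mul, one_mul]
    rw [← hκ, map_sub] at h4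
    have h5 : ∀ a : ℕ →₀ ℕ, κ (G a) =
        a.prod (fun i n => κ (1 + (X - 1) * seqP (X - 1 : ℤ[X]) i) ^ n) := by
      intro a
      change κ (a.prod (fun i n => (1 + (X - 1) * seqP (X - 1 : ℤ[X]) i) ^ n)) = _
      unfold Finsupp.prod
      rw [map_prod]
      refine Finset.prod_congr rfl (fun i _ => ?_)
      rw [map_pow]
    rw [h5, h5] at h4
    exact h4
  obtain ⟨d, hd0, hdw⟩ := period_prime (T.act k.1) hinj p _ hne _ hpV h2
  have h3 : ((T.j k : Rˣ) : R) ^ d • (w : R) • T.c = (w : R) • T.c := by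
    rw [← map_pow] at hdw
    have h4 : T.act (k ^ d : ↥T.κ.ker).1 ((w : R) • T.c) = (w : R) • T.c := hdw
    rw [T.sc_spec, T.sc_pow] at h4
    exact h4
  obtain ⟨n, hn, hn'⟩ := T.order_mul hr w.2 ⟨k, rfl⟩ hd0 h3
  exact hcon n hn hn'

/-- **Local torsion**, on every vector. -/
theorem per_all [Fact p.Prime] [Group.IsSolvable Q] (hr : r0 Q < ℵ₀) (k : ↥T.κ.ker) (v : V) :
    ∃ m : ℕ, 0 < m ∧ (T.sc k ^ m) • v = v := by
  have key : ∀ {r : R} {x : V} {m : ℕ}, (r ^ m) • x = x → ∀ n, (r ^ (m * n)) • x = x := by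
    intro r x m h n
    induction n with
    | zero => rw [mul_zero, pow_zero, one_smul]
    | succ n ih => rw [Nat.mul_succ, pow_add, mul_smul, h, ih]
  have h1 : ∀ x : V, T.eps x = 1 → ∃ m : ℕ, 0 < m ∧ (T.sc k ^ m) • x = x := by
    intro x hx
    obtain ⟨h, rfl⟩ := T.trans x hx
    have hk : T.κ (h⁻¹ * k.1 * h) = 1 := by
      have := k.2
      rw [MonoidHom.mem_ker] at this
      rw [map_mul, map_mul, this, mul_one, ← map_mul, inv_mul_cancel, map_one]
    obtain ⟨m, hm, hm'⟩ := T.per_c hr ⟨h⁻¹ * k.1 * h, hk⟩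
    refine ⟨m, hm, ?_⟩
    rw [← T.sc_pow, ← T.sc_spec] at hm' ⊢
    have e : (k ^ m : ↥T.κ.ker).1 * h = h * ((⟨h⁻¹ * k.1 * h, hk⟩ : ↥T.κ.ker) ^ m).1 := by
      change k.1 ^ m * h = h * (h⁻¹ * k.1 * h) ^ m
      have : h⁻¹ * k.1 * h = h⁻¹ * k.1 * (h⁻¹)⁻¹ := by rw [inv_inv]
      rw [this, conj_pow, inv_inv]
      group
    rw [← T.act_mul, e, T.act_mul, hm']
  obtain ⟨n, hn⟩ := T.exists_shift v
  obtain ⟨a, ha, ha'⟩ := h1 _ hn
  obtain ⟨b, hb, hb'⟩ := h1 _ T.eps_c
  refine ⟨a * b, Nat.mul_pos ha hb, ?_⟩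
  have h2 := key ha' b
  have h3 := key hb' a
  rw [mul_comm b a] at h3
  rw [smul_add, smul_comm, h3] at h2
  exact add_right_cancel h2

end TrS

end Pool.TFN
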