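import Mathlib
import Pool.Agent.TFN.Mult
import Pool.Agent.TFN.LocT

/-!
# Surjective derivations into elementary abelian groups
-/

set_option autoImplicit false

namespace Pool.TFN

open Cardinal Pool.TFR Pool.TFM
open scoped commutatorElement

section

variable {p : ℕ} [Fact p.Prime] {Q M Γ : Type} [Group Q] [AddCommGroup M] [CommGroup Γ]

/-- the extended module -/
abbrev Ext (p : ℕ) (M : Type) : Type := M × ZMod p

variable (D : Der Q M) (hpM : ∀ m : M, p • m = 0)

/-- the scalar action of `ZMod p` -/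
noncomputable def sca (hpM : ∀ m : M, p • m = 0) (m : M) : ZMod p →+ M :=
  ZMod.lift p ⟨zmultiplesHom M m, by
    change (p : ℤ) • m = 0
    rw [natCast_zsmul, hpM]⟩

theorem sca_natCast (m : M) (n : ℕ) : sca hpM m (n : ZMod p) = n • m := by
  have h1 : sca hpM m ((n : ℤ) : ZMod p) = (n : ℤ) • m := ZMod.lift_coe p _ _
  rw [natCast_zsmul] at h1
  rw [← h1]
  congr 1
  push_cast
  rfl

theorem sca_one (m : M) : sca hpM m 1 = m := by
  have := sca_natCast hpM m 1
  rwa [Nat.cast_one, one_smul] at this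

theorem sca_add (m m' : M) (t : ZMod p) : sca hpM (m + m') t = sca hpM m t + sca hpM m' t := by
  obtain ⟨n, rfl⟩ := ZMod.natCast_zmod_surjective t
  rw [sca_natCast, sca_natCast, sca_natCast, smul_add]

theorem sca_map (f : Module.End ℤ M) (m : M) (t : ZMod p) :
    f (sca hpM m t) = sca hpM (f m) t := by
  obtain ⟨n, rfl⟩ := ZMod.natCast_zmod_surjective t
  rw [sca_natCast, sca_natCast, map_nsmul]

theorem sca_zero (t : ZMod p) : sca hpM 0 t = 0 := by
  obtain ⟨n, rfl⟩ := ZMod.natCast_zmod_surjective t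
  rw [sca_natCast, smul_zero]

/-- the action on the extended module -/
noncomputable def eact : Q →* Module.End ℤ (Ext p M) where
  toFun q := AddMonoidHom.toIntLinearMap
    { toFun := fun v => (D.ρ q v.1 + sca hpM (D.π q) v.2, v.2)
      map_zero' := by
        rw [Prod.fst_zero, Prod.snd_zero, map_zero, map_zero, add_zero]
        rfl
      map_add' := by
        intro v w
        refine Prod.ext ?_ rfl
        change D.ρ q (v.1 + w.1) + sca hpM (D.π q) (v.2 + w.2) =
          D.ρ q v.1 + sca hpM (D.π q) v.2 + (D.ρ q w.1 + sca hpM (D.π q) w.2)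
        rw [map_add, map_add]
        abel }
  map_one' := by
    refine LinearMap.ext (fun v => ?_)
    refine Prod.ext ?_ rfl
    change D.ρ 1 v.1 + sca hpM (D.π 1) v.2 = v.1
    rw [D.map_one, sca_zero, add_zero, map_one]
    rfl
  map_mul' := by
    intro a b
    refine LinearMap.ext (fun v => ?_)
    refine Prod.ext ?_ rfl
    change D.ρ (a * b) v.1 + sca hpM (D.π (a * b)) v.2 =
      D.ρ a (D.ρ b v.1 + sca hpM (D.π b) v.2) + sca hpM (D.π a) v.2
    rw [D.map_mul, sca_add, map_mul, map_add, sca_map]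
    change D.ρ a (D.ρ b v.1) + _ = _
    abel

theorem eact_apply (q : Q) (v : Ext p M) :
    eact D hpM q v = (D.ρ q v.1 + sca hpM (D.π q) v.2, v.2) := rfl

theorem eact_base (q : Q) : eact D hpM q ((0 : M), (1 : ZMod p)) = (D.π q, 1) := by
  rw [eact_apply, map_zero, sca_one, zero_add]

/-- the ring generated by the kernel of `κ` -/
def RS (κ : Q →* Γ) : Subring (Module.End ℤ (Ext p M)) :=
  Subring.closure {x | ∃ a, κ a = 1 ∧ eact D hpM a = x}

end

section Ring

variable {p : ℕ} [Fact p.Prime] {Q M Γ : Type} [Group Q] [AddCommGroup M] [CommGroup Γ]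
  (D : Der Q M) (hpM : ∀ m : M, p • m = 0) (κ : Q →* Γ)

theorem RS_conj (h : Q) {r : Module.End ℤ (Ext p M)} (hr : r ∈ RS D hpM κ) :
    eact D hpM h * r * eact D hpM h⁻¹ ∈ RS D hpM κ := by
  have hinv : eact D hpM h⁻¹ * eact D hpM h = 1 := by rw [← map_mul, inv_mul_cancel, map_one]
  have hinv' : eact D hpM h * eact D hpM h⁻¹ = 1 := by rw [← map_mul, mul_inv_cancel, map_one]
  refine Subring.closure_induction (p := fun r _ => eact D hpM h * r * eact D hpM h⁻¹ ∈
    RS D hpM κ) ?_ ?_ ?_ ?_ ?_ ?_ hr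
  · rintro _ ⟨a, ha, rfl⟩
    refine Subring.subset_closure ⟨h * a * h⁻¹, ?_, ?_⟩
    · rw [map_mul, map_mul, ha, mul_one, ← map_mul, mul_inv_cancel, map_one]
    · rw [map_mul, map_mul]
  · rw [mul_zero, zero_mul]
    exact (RS D hpM κ).zero_mem
  · rw [mul_one, hinv']
    exact (RS D hpM κ).one_mem
  · intro x y _ _ hx hy
    rw [mul_add, add_mul]
    exact (RS D hpM κ).add_mem hx hy
  · intro x _ hx
    rw [mul_neg, neg_mul]
    exact (RS D hpM κ).neg_mem hx
  · intro x y _ _ hx hy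
    have : eact D hpM h * (x * y) * eact D hpM h⁻¹ =
        (eact D hpM h * x * eact D hpM h⁻¹) * (eact D hpM h * y * eact D hpM h⁻¹) := by
      calc eact D hpM h * (x * y) * eact D hpM h⁻¹ =
          eact D hpM h * x * 1 * y * eact D hpM h⁻¹ := by
            rw [mul_one]; simp only [mul_assoc]
        _ = eact D hpM h * x * (eact D hpM h⁻¹ * eact D hpM h) * y * eact D hpM h⁻¹ := by
          rw [hinv]
        _ = _ := by simp only [mul_assoc]
    rw [this]
    exact (RS D hpM κ).mul_mem hx hy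

theorem RS_eps {r : Module.End ℤ (Ext p M)} (hr : r ∈ RS D hpM κ) :
    ∀ v, (r v).2 = (r ((0 : M), (1 : ZMod p))).2 * v.2 := by
  refine Subring.closure_induction (p := fun r _ => ∀ v, (r v).2 =
    (r ((0 : M), (1 : ZMod p))).2 * v.2) ?_ ?_ ?_ ?_ ?_ ?_ hr
  · rintro _ ⟨a, ha, rfl⟩ v
    rw [eact_apply, eact_apply, one_mul]
  · intro v
    change (0 : ZMod p) = 0 * v.2
    rw [zero_mul]
  · intro v
    change v.2 = 1 * v.2
    rw [one_mul]
  · intro x y _ _ hx hy v
    change (x v).2 + (y v).2 = ((x _).2 + (y _).2) * v.2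
    rw [hx v, hy v, add_mul]
  · intro x _ hx v
    change -(x v).2 = -(x _).2 * v.2
    rw [hx v, neg_mul]
  · intro x y _ _ hx hy v
    change (x (y v)).2 = (x (y _)).2 * v.2
    rw [hx (y v), hy v, hx (y ((0 : M), (1 : ZMod p))), mul_assoc]

end Ring

/-- periodicity of integral elements in positive characteristic -/
theorem per_of_integral {A : Type} [CommRing A] {p : ℕ} [Fact p.Prime] (hp : ∀ x : A, p • x = 0)
    {r : A} (hr : IsIntegral ℤ r) : ∃ i j : ℕ, i < j ∧ r ^ i = r ^ j := by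
  have h1 := hr.fg_adjoin_singleton
  have h2 : Module.Finite ℤ ↥(Algebra.adjoin ℤ {r}) := Module.Finite.iff_fg.2 h1
  have h3 : Finite ↥(Algebra.adjoin ℤ {r}) := by
    refine Module.finite_of_fg_torsion _ (fun x => ?_)
    refine ⟨⟨(p : ℤ), mem_nonZeroDivisors_of_ne_zero
      (by exact_mod_cast (Fact.out : p.Prime).ne_zero)⟩, ?_⟩
    refine Subtype.ext ?_
    change (p : ℤ) • x.1 = 0
    rw [natCast_zsmul]
    exact hp x.1
  obtain ⟨i, j, hij, h⟩ := Finite.exists_ne_map_eq_of_infinite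
    (fun n : ℕ => (⟨r ^ n, pow_mem (Algebra.self_mem_adjoin_singleton ℤ r) n⟩ :
      ↥(Algebra.adjoin ℤ {r})))
  have h' : r ^ i = r ^ j := congrArg Subtype.val h
  rcases Nat.lt_or_gt_of_ne hij with h4 | h4
  · exact ⟨i, j, h4, h'⟩
  · exact ⟨j, i, h4, h'.symm⟩

/-- data for the ring construction -/
structure RData (p : ℕ) [Fact p.Prime] (Q M Γ : Type) [Group Q] [AddCommGroup M] [CommGroup Γ] where
  D : Der Q M
  hpM : ∀ m : M, p • m = 0
  κ : Q →* Γ
  comm : ∀ a b, κ a = 1 → κ b = 1 → ∀ v : Ext p M, eact D hpM (a * b) v = eact D hpM (b * a) v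
  surj : Function.Surjective D.π

namespace RData

variable {p : ℕ} [Fact p.Prime] {Q M Γ : Type} [Group Q] [AddCommGroup M] [CommGroup Γ]
  (X : RData p Q M Γ)

/-- the ring generated by the kernel -/
abbrev S0 : Subring (Module.End ℤ (Ext p M)) := RS X.D X.hpM X.κ

theorem S0_comm {a b : Module.End ℤ (Ext p M)} (ha : a ∈ X.S0) (hb : b ∈ X.S0) :
    a * b = b * a := by
  have h : IsMulCommutative (RS X.D X.hpM X.κ) := by
    refine Subring.isMulCommutative_closure ?_
    rintro _ ⟨a, ha, rfl⟩ _ ⟨b, hb, rfl⟩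
    rw [← map_mul, ← map_mul]
    exact LinearMap.ext (X.comm a b ha hb)
  exact congrArg Subtype.val (h.is_comm.comm ⟨a, ha⟩ ⟨b, hb⟩)

/-- the endomorphisms agreeing locally with elements of the ring -/
def S : Subring (Module.End ℤ (Ext p M)) where
  carrier := {f | ∀ F : Finset (Ext p M), ∃ r ∈ X.S0, ∀ v ∈ F, f v = r v}
  mul_mem' := by
    classical
    intro f g hf hg F
    obtain ⟨s, hs, hs'⟩ := hg F
    obtain ⟨r, hr, hr'⟩ := hf (F.image s)
    refine ⟨r * s, X.S0.mul_mem hr hs, fun v hv => ?_⟩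
    rw [Module.End.mul_apply, Module.End.mul_apply, hs' v hv,
      hr' _ (Finset.mem_image_of_mem _ hv)]
  one_mem' := fun F => ⟨1, X.S0.one_mem, fun v _ => rfl⟩
  add_mem' := by
    classical
    intro f g hf hg F
    obtain ⟨s, hs, hs'⟩ := hg F
    obtain ⟨r, hr, hr'⟩ := hf F
    refine ⟨r + s, X.S0.add_mem hr hs, fun v hv => ?_⟩
    rw [LinearMap.add_apply, LinearMap.add_apply, hs' v hv, hr' v hv]
  zero_mem' := fun F => ⟨0, X.S0.zero_mem, fun v _ => rfl⟩
  neg_mem' := by
    intro f hf F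
    obtain ⟨r, hr, hr'⟩ := hf F
    refine ⟨-r, X.S0.neg_mem hr, fun v hv => ?_⟩
    rw [LinearMap.neg_apply, LinearMap.neg_apply, hr' v hv]

theorem S0_le : X.S0 ≤ X.S := fun r hr _ => ⟨r, hr, fun _ _ => rfl⟩

theorem S_comm : ∀ a b : ↥X.S, a * b = b * a := by
  classical
  rintro ⟨f, hf⟩ ⟨g, hg⟩
  refine Subtype.ext (LinearMap.ext (fun v => ?_))
  obtain ⟨r, hr, hr'⟩ := hf {v, g v}
  obtain ⟨s, hs, hs'⟩ := hg {v, f v}
  change f (g v) = g (f v)
  rw [hr' (g v) (by simp), hs' v (by simp), hs' (f v) (by simp), hr' v (by simp),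
    ← Module.End.mul_apply, X.S0_comm hr hs, Module.End.mul_apply]

noncomputable instance : CommRing ↥X.S :=
  { (inferInstance : Ring ↥X.S) with mul_comm := X.S_comm }

theorem S_eps {r : Module.End ℤ (Ext p M)} (hr : r ∈ X.S) :
    ∀ v, (r v).2 = (r ((0 : M), (1 : ZMod p))).2 * v.2 := by
  classical
  intro v
  obtain ⟨s, hs, hs'⟩ := hr {v, ((0 : M), (1 : ZMod p))}
  rw [hs' v (by simp), hs' ((0 : M), (1 : ZMod p)) (by simp)]
  exact RS_eps X.D X.hpM X.κ hs v

/-- the augmentation -/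
noncomputable def aug : ↥X.S →+* ZMod p where
  toFun r := (r.1 ((0 : M), (1 : ZMod p))).2
  map_one' := rfl
  map_mul' a b := by
    change (a.1 (b.1 _)).2 = _
    rw [X.S_eps a.2]
  map_zero' := rfl
  map_add' a b := rfl

theorem S_char (r : ↥X.S) : p • r = 0 := by
  refine Subtype.ext (LinearMap.ext (fun v => ?_))
  change p • (r.1 v) = 0
  refine Prod.ext ?_ ?_
  · exact X.hpM _
  · change p • (r.1 v).2 = 0
    rw [nsmul_eq_mul, CharP.cast_eq_zero, zero_mul]

theorem S_conj (h : Q) {r : Module.End ℤ (Ext p M)} (hr : r ∈ X.S) :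
    eact X.D X.hpM h * r * eact X.D X.hpM h⁻¹ ∈ X.S := by
  classical
  intro F
  obtain ⟨s, hs, hs'⟩ := hr (F.image (eact X.D X.hpM h⁻¹))
  refine ⟨_, RS_conj X.D X.hpM X.κ h hs, fun v hv => ?_⟩
  rw [Module.End.mul_apply, Module.End.mul_apply, Module.End.mul_apply, Module.End.mul_apply,
    hs' _ (Finset.mem_image_of_mem _ hv)]

/-- the transitive action -/
noncomputable def toTrS : TrS p Q Γ ↥X.S (Ext p M) where
  act := eact X.D X.hpM
  κ := X.κ
  eps := AddMonoidHom.snd M (ZMod p)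
  aug := X.aug
  eps_smul r v := X.S_eps r.2 v
  eps_act h v := rfl
  conj h r := by
    refine ⟨⟨_, X.S_conj h r.2⟩, fun v => ?_⟩
    change eact X.D X.hpM h (r.1 v) =
      eact X.D X.hpM h (r.1 (eact X.D X.hpM h⁻¹ (eact X.D X.hpM h v)))
    rw [← Module.End.mul_apply (eact X.D X.hpM h⁻¹), ← map_mul, inv_mul_cancel, map_one]
    rfl
  c := (0, 1)
  eps_c := rfl
  trans x hx := by
    obtain ⟨h, hh⟩ := X.surj x.1
    refine ⟨h, ?_⟩
    rw [eact_base, hh]
    exact Prod.ext rfl hx.symm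
  K_act k hk := ⟨⟨_, X.S0_le (Subring.subset_closure ⟨k, hk, rfl⟩)⟩, fun v => rfl⟩
  faith r hr := Subtype.ext (LinearMap.ext hr)
  charp := by
    have h := X.S_char 1
    rwa [nsmul_eq_mul, mul_one] at h

/-- the annihilator of a vector -/
def ann (v : Ext p M) : Ideal ↥X.S where
  carrier := {r | r.1 v = 0}
  add_mem' := by
    intro a b ha hb
    change a.1 v + b.1 v = 0
    have ha' : a.1 v = 0 := ha
    have hb' : b.1 v = 0 := hb
    rw [ha', hb', add_zero]
  zero_mem' := rfl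
  smul_mem' := by
    intro c a ha
    change c.1 (a.1 v) = 0
    have ha' : a.1 v = 0 := ha
    rw [ha', map_zero]

theorem mk_integral [Group.IsSolvable Q] (hr : r0 Q < ℵ₀) (v : Ext p M) (r : ↥X.S) :
    IsIntegral ℤ (Ideal.Quotient.mk (X.ann v) r) := by
  have h0 : ∀ (s : Module.End ℤ (Ext p M)) (hs : s ∈ X.S0),
      IsIntegral ℤ (Ideal.Quotient.mk (X.ann v) (⟨s, X.S0_le hs⟩ : ↥X.S)) := by
    intro s hs
    refine Subring.closure_induction (p := fun s hs => IsIntegral ℤ
      (Ideal.Quotient.mk (X.ann v) (⟨s, X.S0_le hs⟩ : ↥X.S))) ?_ ?_ ?_ ?_ ?_ ?_ hs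
    · rintro _ ⟨a, ha, rfl⟩
      obtain ⟨m, hm, hm'⟩ := X.toTrS.per_all hr ⟨a, ha⟩ v
      refine IsIntegral.of_pow hm ?_
      rw [← map_pow]
      have h1 : Ideal.Quotient.mk (X.ann v)
          ((⟨eact X.D X.hpM a, X.S0_le (Subring.subset_closure ⟨a, ha, rfl⟩)⟩ : ↥X.S) ^ m) =
          1 := by
        rw [← map_one (Ideal.Quotient.mk (X.ann v)), Ideal.Quotient.mk_eq_mk_iff_sub_mem]
        change (eact X.D X.hpM a ^ m) v - v = 0
        rw [← X.toTrS.sc_pow, ← X.toTrS.sc_spec] at hm'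
        have h2 : eact X.D X.hpM (a ^ m) v = v := hm'
        rw [← map_pow, h2, sub_self]
      rw [h1]
      exact isIntegral_one
    · exact isIntegral_zero
    · exact isIntegral_one
    · intro x y hx hy h1 h2
      exact h1.add h2
    · intro x hx h1
      exact h1.neg
    · intro x y hx hy h1 h2
      exact h1.mul h2
  obtain ⟨s, hs, hs'⟩ := r.2 {v}
  have h1 : Ideal.Quotient.mk (X.ann v) r =
      Ideal.Quotient.mk (X.ann v) (⟨s, X.S0_le hs⟩ : ↥X.S) := by
    rw [Ideal.Quotient.mk_eq_mk_iff_sub_mem]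
    change r.1 v - s v = 0
    rw [hs' v (by simp), sub_self]
  rw [h1]
  exact h0 s hs

theorem S_per [Group.IsSolvable Q] (hr : r0 Q < ℵ₀) (r : ↥X.S) (v : Ext p M) :
    ∃ i j : ℕ, i < j ∧ r ^ i • v = r ^ j • v := by
  obtain ⟨i, j, hij, h⟩ := per_of_integral (p := p) (fun x => by
    obtain ⟨x, rfl⟩ := Ideal.Quotient.mk_surjective x
    rw [← map_nsmul, X.S_char, map_zero]) (X.mk_integral hr v r)
  refine ⟨i, j, hij, ?_⟩
  rw [← map_pow, ← map_pow, Ideal.Quotient.mk_eq_mk_iff_sub_mem] at h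
  have h1 : (r ^ i - r ^ j) • v = 0 := h
  rwa [sub_smul, sub_eq_zero] at h1

/-- the transitive action with periodicity -/
noncomputable def toTrR [Group.IsSolvable Q] (hr : r0 Q < ℵ₀) : TrR p Q Γ ↥X.S (Ext p M) where
  toTrS := X.toTrS
  per := X.S_per hr
  clo f hf := by
    classical
    let f' : Ext p M →+ Ext p M :=
      { toFun := f
        map_zero' := by
          obtain ⟨r, hr'⟩ := hf {0}
          rw [hr' 0 (by simp), smul_zero]
        map_add' := fun v w => by
          obtain ⟨r, hr'⟩ := hf {v, w, v + w}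
          rw [hr' v (by simp), hr' w (by simp), hr' (v + w) (by simp), smul_add] }
    refine ⟨⟨f'.toIntLinearMap, fun F => ?_⟩, fun v => rfl⟩
    obtain ⟨r, hr'⟩ := hf F
    obtain ⟨s, hs, hs'⟩ := r.2 F
    refine ⟨s, hs, fun v hv => ?_⟩
    rw [← hs' v hv]
    exact hr' v hv

theorem stc_eq [Group.IsSolvable Q] (hr : r0 Q < ℵ₀) :
    (X.toTrR hr).stc = X.D.stab X.D.inv_bot := by
  ext h
  rw [TrR.mem_stc]
  change eact X.D X.hpM h ((0 : M), (1 : ZMod p)) = (0, 1) ↔ X.D.π h ∈ (⊥ : Submodule ℤ M)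
  rw [eact_base, Submodule.mem_bot]
  constructor
  · intro h1; exact congrArg Prod.fst h1
  · intro h1; rw [h1]

theorem r0_stab [Group.IsSolvable Q] (hr : r0 Q < ℵ₀) (hFR : FR Γ) (hD : DCC p Γ) :
    r0 ↥(X.D.stab X.D.inv_bot) = r0 Q := by
  rw [← X.stc_eq hr]
  exact (X.toTrR hr).r0_stc hr hFR hD

end RData

/-- **The rank of the stabiliser** for a surjective derivation into an elementary abelian group,
when the group is soluble of finite torsion-free rank and acts as an extension of an abelian group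
by an abelian group of finite torsion-free rank whose `p`-torsion sections are Artinian. -/
theorem der_main {p : ℕ} [Fact p.Prime] {Q M Γ : Type} [Group Q] [AddCommGroup M] [CommGroup Γ]
    [Group.IsSolvable Q] (hr : r0 Q < ℵ₀) (hFR : FR Γ) (hD : DCC p Γ) (D : Der Q M)
    (hpM : ∀ m : M, p • m = 0) (κ : Q →* Γ)
    (hcomm : ∀ a b, κ a = 1 → κ b = 1 → D.ρ ⁅a, b⁆ = 1)
    (hs : Function.Surjective D.π) : r0 Q = r0 ↥(D.stab D.inv_bot) := by
  have htriv : ∀ x, D.ρ x = 1 → (D.quot D.inv_kerVal).ρ x = 1 ∧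
      (D.quot D.inv_kerVal).π x = 0 := by
    intro x hx
    constructor
    · refine LinearMap.ext (fun y => ?_)
      obtain ⟨m, rfl⟩ := Submodule.Quotient.mk_surjective _ y
      change Submodule.Quotient.mk (D.ρ x m) = Submodule.Quotient.mk m
      rw [hx]; rfl
    · change Submodule.Quotient.mk (D.π x) = 0
      rw [Submodule.Quotient.mk_eq_zero]
      exact ⟨x, hx, rfl⟩
  have hpM' : ∀ m : M ⧸ D.kerVal, p • m = 0 := by
    intro m
    obtain ⟨m, rfl⟩ := Submodule.Quotient.mk_surjective _ m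
    rw [← Submodule.Quotient.mk_smul, hpM]; rfl
  have hact : ∀ x, D.ρ x = 1 → ∀ v : Ext p (M ⧸ D.kerVal),
      eact (D.quot D.inv_kerVal) hpM' x v = v := by
    intro x hx v
    obtain ⟨h1, h2⟩ := htriv x hx
    rw [eact_apply, h1, h2, sca_zero, add_zero]
    rfl
  let X : RData p Q (M ⧸ D.kerVal) Γ :=
    { D := D.quot D.inv_kerVal
      hpM := hpM'
      κ := κ
      comm := by
        intro a b ha hb v
        have e : a * b = ⁅a, b⁆ * (b * a) := by rw [commutatorElement_def]; group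
        rw [e, map_mul, Module.End.mul_apply, hact _ (hcomm a b ha hb)]
      surj := D.quot_surj D.inv_kerVal hs }
  have h1 := X.r0_stab hr hFR hD
  have h2 : X.D.stab X.D.inv_bot = D.stab D.inv_kerVal := D.r0_quot_stab_bot D.inv_kerVal
  rw [h2, D.r0_stab_kerVal] at h1
  have h3 : Module.rank ℤ D.kerVal = 0 := by
    rw [rank_eq_zero_iff]
    intro x
    refine ⟨(p : ℤ), by exact_mod_cast (Fact.out : p.Prime).ne_zero, Subtype.ext ?_⟩
    change (p : ℤ) • x.1 = 0
    rw [natCast_zsmul]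
    exact hpM x.1
  rw [h3, add_zero] at h1
  exact h1.symm

end Pool.TFN
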