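import Mathlib
import Pool.Agent.TFN.Step

/-!
# The product formula: only one factor has to act as a metabelian group
-/

set_option autoImplicit false

namespace Pool.TFN

open Cardinal Pool.TFR Pool.TFM
open scoped commutatorElement

theorem reduceZ {p : ℕ} [Fact p.Prime] {G Γ : Type} [Group G] [Group.IsSolvable G] [CommGroup Γ]
    (hr : r0 G < ℵ₀)
    (N : Subgroup G) [hN : N.Normal] (hc : ∀ x y : N, x * y = y * x) (hp : ∀ x ∈ N, x ^ p = 1)
    (A B : Subgroup G) (hFR : FR Γ) (hD : DCC p Γ) (κ : ↥(A ⊓ (N ⊔ B)) →* Γ)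
    (hcomm : ∀ a b, κ a = 1 → κ b = 1 → ∀ n ∈ N, ⁅a.1, b.1⁆ * n = n * ⁅a.1, b.1⁆)
    (hAB : ∀ g : G, ∃ a ∈ A, ∃ b ∈ B, g = a * b) :
    r0 ↥(A ⊓ (N ⊔ B)) = r0 ↥(A ⊓ B) := by
  let _ : CommGroup ↥N := cg ↥N hc
  let B' : Subgroup ↥N := B.subgroupOf N
  let Q : Subgroup G := A ⊓ (N ⊔ B)
  let ρ₁ : ↥Q → (↥N ⧸ B' →* ↥N ⧸ B') := fun q =>
    QuotientGroup.map B' B' (MulAut.conjNormal q.1 : MulAut ↥N).toMonoidHom
      (fun x hx => conj_mem_inf N B hc q.2.2 x hx)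
  have hρ₁ : ∀ (q : ↥Q) (x : ↥N), ρ₁ q (x : ↥N ⧸ B') =
      ((MulAut.conjNormal q.1 x : N) : ↥N ⧸ B') := fun q x => rfl
  let E : Der ↥Q (Additive (↥N ⧸ B')) :=
    { ρ :=
        { toFun := fun q => (MonoidHom.toAdditive (ρ₁ q)).toIntLinearMap
          map_one' := by
            ext x
            obtain ⟨n, hn⟩ := QuotientGroup.mk_surjective (Additive.toMul x)
            have : x = Additive.ofMul ((n : ↥N ⧸ B')) := hn.symm
            rw [this]
            change Additive.ofMul (ρ₁ 1 (n : ↥N ⧸ B')) = Additive.ofMul ((n : ↥N ⧸ B'))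
            rw [hρ₁]
            simp
          map_mul' := by
            intro a b
            ext x
            obtain ⟨n, hn⟩ := QuotientGroup.mk_surjective (Additive.toMul x)
            have : x = Additive.ofMul ((n : ↥N ⧸ B')) := hn.symm
            rw [this]
            change Additive.ofMul (ρ₁ (a * b) (n : ↥N ⧸ B')) =
              Additive.ofMul (ρ₁ a (ρ₁ b (n : ↥N ⧸ B')))
            rw [hρ₁, hρ₁, hρ₁]
            simp }
      π := fun q => Additive.ofMul ((nPart N A B q : N) : ↥N ⧸ B')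
      map_mul := by
        intro a b
        obtain ⟨c, hc1, hc2⟩ := nPart_spec N A B a
        obtain ⟨d, hd1, hd2⟩ := nPart_spec N A B b
        change Additive.ofMul ((nPart N A B (a * b) : N) : ↥N ⧸ B') =
          Additive.ofMul (((nPart N A B a : N) : ↥N ⧸ B') *
            ρ₁ a ((nPart N A B b : N) : ↥N ⧸ B'))
        congr 1
        rw [hρ₁, ← QuotientGroup.mk_mul]
        refine nPart_eq N A B (a * b) _ (c * d) (B.mul_mem hc1 hd1) ?_
        rw [Subgroup.coe_mul, MulAut.conjNormal_apply]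
        change _ = a.1 * b.1
        have h1 : a.1 * (nPart N A B b : G) * a.1⁻¹ ∈ N := hN.conj_mem _ (nPart N A B b).2 a.1
        have h2 : (nPart N A B a : G) * (a.1 * (nPart N A B b : G) * a.1⁻¹) =
            (a.1 * (nPart N A B b : G) * a.1⁻¹) * (nPart N A B a : G) :=
          congrArg Subtype.val (hc (nPart N A B a) ⟨_, h1⟩)
        rw [h2]
        have h3 : a.1⁻¹ * (nPart N A B a : G) * c = 1 := by
          rw [mul_assoc, hc2]; group
        have h4 : (a.1 * (nPart N A B b : G) * a.1⁻¹) * (nPart N A B a : G) * (c * d) =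
            a.1 * (nPart N A B b : G) * (a.1⁻¹ * (nPart N A B a : G) * c) * d := by group
        rw [h4, h3, mul_one, mul_assoc, hd2] }
  have hEπ : ∀ q : ↥Q, E.π q = Additive.ofMul ((nPart N A B q : N) : ↥N ⧸ B') := fun _ => rfl
  have hs : Function.Surjective E.π := by
    intro m
    obtain ⟨n, hn⟩ := QuotientGroup.mk_surjective (Additive.toMul m)
    obtain ⟨a, ha, b, hb, hab⟩ := hAB n.1
    have hq : a ∈ Q := by
      refine ⟨ha, Subgroup.mem_sup_of_normal_left.2 ⟨n.1, n.2, b⁻¹, B.inv_mem hb, ?_⟩⟩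
      rw [hab]; group
    refine ⟨⟨a, hq⟩, ?_⟩
    rw [hEπ]
    have := nPart_eq N A B ⟨a, hq⟩ n b⁻¹ (B.inv_mem hb) (by rw [hab]; group)
    rw [this]
    exact hn
  have hQr : r0 ↥Q < ℵ₀ := lt_of_le_of_lt (r0_subgroup_le Q) hr
  -- elements acting trivially
  have htriv : ∀ q : ↥Q, (∀ n ∈ N, q.1 * n = n * q.1) → E.ρ q = 1 := by
    intro q hq
    refine LinearMap.ext (fun v => ?_)
    obtain ⟨n, hn⟩ := QuotientGroup.mk_surjective (Additive.toMul v)
    have hvn : v = Additive.ofMul ((n : ↥N ⧸ B')) := hn.symm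
    rw [hvn]
    change Additive.ofMul (ρ₁ q (n : ↥N ⧸ B')) = Additive.ofMul ((n : ↥N ⧸ B'))
    rw [hρ₁]
    have h5 : MulAut.conjNormal (q : G) n = n := by
      refine Subtype.ext ?_
      rw [MulAut.conjNormal_apply, hq n.1 n.2]; group
    rw [h5]
  have hform : r0 ↥Q = r0 ↥(E.stab E.inv_bot) := by
    refine der_main (p := p) hQr hFR hD E ?_ κ ?_ hs
    · intro m
      obtain ⟨n, hn⟩ := QuotientGroup.mk_surjective (Additive.toMul m)
      have hvn : m = Additive.ofMul ((n : ↥N ⧸ B')) := hn.symm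
      rw [hvn]
      change Additive.ofMul (((n : ↥N ⧸ B')) ^ p) = 0
      rw [← QuotientGroup.mk_pow]
      have : n ^ p = 1 := Subtype.ext (by rw [Subgroup.coe_pow, hp n.1 n.2]; rfl)
      rw [this]
      rfl
    · intro a b ha hb
      exact htriv _ (fun n hn => hcomm a b ha hb n hn)
  have hst : r0 (E.stab E.inv_bot) = r0 ↥(A ⊓ B) := by
    refine r0_congr ?_
    have hk : ∀ q : ↥Q, q ∈ E.stab E.inv_bot ↔ q.1 ∈ B := by
      intro q
      rw [E.mem_stab, Submodule.mem_bot, hEπ]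
      obtain ⟨b, hb, hb'⟩ := nPart_spec N A B q
      constructor
      · intro h
        have h1 : nPart N A B q ∈ B' := (QuotientGroup.eq_one_iff _).1 h
        rw [← hb']
        exact B.mul_mem h1 hb
      · intro h
        have := nPart_eq N A B q 1 q.1 h (by simp)
        rw [this]; rfl
    exact
      { toFun := fun x => ⟨x.1.1, x.1.2.1, (hk _).1 x.2⟩
        invFun := fun x => ⟨⟨x.1, x.2.1, Subgroup.mem_sup_right x.2.2⟩, (hk _).2 x.2.2⟩
        left_inv := fun x => rfl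
        right_inv := fun x => rfl
        map_mul' := fun x y => rfl }
  rw [← hst]
  exact hform


/-- one step, with a condition on the first factor only -/
theorem stepZ {G : Type} [Group G] [Group.IsSolvable G] (hr : r0 G < ℵ₀)
    (T : Subgroup G) (hTt : IsTor T) (A B : Subgroup G)
    (hAB : ∀ g : G, ∃ a ∈ A, ∃ b ∈ B, g = a * b) (N : Subgroup G) (hN : N.Normal) (hNT : N < T)
    (p : ℕ) (hp : p.Prime)
    (N'' : Subgroup G) (hN''n : N''.Normal) (hlt'' : N < N'')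
    (hab : ∀ x ∈ N'', ∀ y ∈ N'', ⁅x, y⁆ ∈ N) (hpow : ∀ x ∈ N'', x ^ p ∈ N)
    (K : Subgroup ↥A) (hKn : K.Normal) (hK : commutator ↥A ≤ K)
    (hfin : {y : ↥A ⧸ K | y ^ p = 1}.Finite)
    (hcomm : ∀ a ∈ K, ∀ b ∈ K, ∀ x ∈ N'', ⁅⁅(a : G), (b : G)⁆, x⁆ ∈ N) :
    r0 ↥(A ⊓ (N'' ⊔ B)) = r0 ↥(A ⊓ (N ⊔ B)) := by
  have := Fact.mk hp
  let f : G →* G ⧸ N := QuotientGroup.mk' N
  have hf : Function.Surjective f := QuotientGroup.mk'_surjective N
  have hker : f.ker = N := QuotientGroup.ker_mk' N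
  have hkt : IsTor f.ker := fun x hx => hTt x (hNT.le (hker ▸ hx))
  have hmem : ∀ x, f x = 1 ↔ x ∈ N := fun x => QuotientGroup.eq_one_iff x
  let F : Subgroup (G ⧸ N) := N''.map f
  have hFn : F.Normal := hN''n.map f hf
  let fA : ↥A →* ↥(A.map f) := f.subgroupMap A
  have hfA : Function.Surjective fA := f.subgroupMap_surjective A
  have hKfn : (K.map fA).Normal := hKn.map fA hfA
  have hcomm' : ∀ u v : G, ⁅u, v⁆ ∈ N → f u * f v = f v * f u := by
    intro u v huv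
    rw [← hmem, map_commutatorElement, commutatorElement_eq_one_iff_mul_comm] at huv
    exact huv
  have hKf : commutator ↥(A.map f) ≤ K.map fA := by
    have h1 : commutator ↥(A.map f) = (commutator ↥A).map fA := by
      rw [commutator_def, commutator_def, Subgroup.map_commutator,
        Subgroup.map_top_of_surjective fA hfA]
    rw [h1]
    exact Subgroup.map_mono hK
  let g : ↥A ⧸ K →* ↥(A.map f) ⧸ K.map fA :=
    QuotientGroup.lift K ((QuotientGroup.mk' (K.map fA)).comp fA) (by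
      intro x hx
      change (QuotientGroup.mk (fA x) : ↥(A.map f) ⧸ K.map fA) = 1
      rw [QuotientGroup.eq_one_iff]
      exact ⟨x, hx, rfl⟩)
  have hg : Function.Surjective g := by
    intro y
    obtain ⟨z, rfl⟩ := QuotientGroup.mk_surjective y
    obtain ⟨w, rfl⟩ := hfA z
    exact ⟨(w : ↥A ⧸ K), rfl⟩
  have hrA : r0 ↥A < ℵ₀ := lt_of_le_of_lt (r0_subgroup_le A) hr
  have hra : @ra (↥A ⧸ K) (cgq K hK) < ℵ₀ := by
    have h1 := @r0_comm (↥A ⧸ K) (cgq K hK)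
    rw [← h1]
    exact lt_of_le_of_lt (r0_le_of_surjective (QuotientGroup.mk' K)
      (QuotientGroup.mk'_surjective K)) hrA
  have hFR0 : @FR (↥A ⧸ K) (cgq K hK) := @FR_of_ra (↥A ⧸ K) (cgq K hK) hra
  have hD0 : @DCC p (↥A ⧸ K) (cgq K hK) := @dcc_of (↥A ⧸ K) (cgq K hK) hFR0 p hp hfin
  have hFR1 : @FR (↥(A.map f) ⧸ K.map fA) (cgq (K.map fA) hKf) :=
    @FR.of_surjective (↥A ⧸ K) (↥(A.map f) ⧸ K.map fA) (cgq K hK) (cgq (K.map fA) hKf) g hg hFR0
  have hD1 : @DCC p (↥(A.map f) ⧸ K.map fA) (cgq (K.map fA) hKf) :=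
    @DCC.of_surjective p (↥A ⧸ K) (↥(A.map f) ⧸ K.map fA) (cgq K hK) (cgq (K.map fA) hKf) g hg hD0
  let _ : CommGroup (↥(A.map f) ⧸ K.map fA) := cgq (K.map fA) hKf
  let κ : ↥(A.map f ⊓ (F ⊔ B.map f)) →* ↥(A.map f) ⧸ K.map fA :=
    (QuotientGroup.mk' (K.map fA)).comp (Subgroup.inclusion inf_le_left)
  have hκ : ∀ q, κ q = 1 → ∃ k ∈ K, f k.1 = q.1 := by
    intro q hq
    obtain ⟨k, hk, hk'⟩ := (QuotientGroup.eq_one_iff _).1 hq
    exact ⟨k, hk, congrArg Subtype.val hk'⟩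
  have hred := reduceZ (p := p) (lt_of_le_of_lt (r0_le_of_surjective f hf) hr) F
    (by
      rintro ⟨_, x, hx, rfl⟩ ⟨_, y, hy, rfl⟩
      exact Subtype.ext (hcomm' x y (hab x hx y hy)))
    (by
      rintro _ ⟨x, hx, rfl⟩
      rw [← map_pow]
      exact (hmem _).2 (hpow x hx))
    (A.map f) (B.map f) hFR1 hD1 κ
    (by
      rintro a b ha hb _ ⟨x, hx, rfl⟩
      obtain ⟨k, hk, hk'⟩ := hκ a ha
      obtain ⟨l, hl, hl'⟩ := hκ b hb
      rw [← hk', ← hl', ← map_commutatorElement]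
      exact hcomm' _ _ (hcomm k hk l hl x hx))
    (by
      intro y
      obtain ⟨g, rfl⟩ := hf y
      obtain ⟨a, ha, b, hb, rfl⟩ := hAB g
      exact ⟨f a, ⟨a, ha, rfl⟩, f b, ⟨b, hb, rfl⟩, by rw [map_mul]⟩)
  rw [r0_map_tor f hkt (A ⊓ (N'' ⊔ B)), map_inf_sup f N'' A B (by rw [hker]; exact hlt''.le),
    hred, ← map_inf_ker f A B N hker, ← r0_map_tor f hkt]

/-- the two mixed intersections have the same rank -/
theorem r0_swap {G : Type} [Group G] [Group.IsSolvable G] (N : Subgroup G) [N.Normal]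
    (hNt : IsTor N) (A B : Subgroup G) : r0 ↥(A ⊓ (N ⊔ B)) = r0 ↥(B ⊓ (N ⊔ A)) := by
  let f : G →* G ⧸ N := QuotientGroup.mk' N
  have hker : f.ker = N := QuotientGroup.ker_mk' N
  have hkt : IsTor f.ker := fun x hx => hNt x (hker ▸ hx)
  rw [r0_map_tor f hkt (A ⊓ (N ⊔ B)), map_inf_ker f A B N hker,
    r0_map_tor f hkt (B ⊓ (N ⊔ A)), map_inf_ker f B A N hker, inf_comm]

/-- the condition on one factor -/
def OneF {G : Type} [Group G] (N N' : Subgroup G) (X : Subgroup G) : Prop :=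
  ∃ (K : Subgroup ↥X) (_ : K.Normal), commutator ↥X ≤ K ∧
    (∀ p : ℕ, p.Prime → (∃ x ∈ N', x ∉ N ∧ x ^ p ∈ N) → {y : ↥X ⧸ K | y ^ p = 1}.Finite) ∧
    (∀ a ∈ K, ∀ b ∈ K, ∀ x ∈ N', ⁅⁅(a : G), (b : G)⁆, x⁆ ∈ N)

theorem stepZ' {G : Type} [Group G] [Group.IsSolvable G] (hr : r0 G < ℵ₀)
    (T : Subgroup G) (hTt : IsTor T) (A B : Subgroup G)
    (hAB : ∀ g : G, ∃ a ∈ A, ∃ b ∈ B, g = a * b) (N : Subgroup G) (hN : N.Normal) (hNT : N < T)
    (N' : Subgroup G) (hN' : N'.Normal) (hlt : N < N') (hN'T : N' ≤ T)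
    (hab : ∀ x ∈ N', ∀ y ∈ N', ⁅x, y⁆ ∈ N) (h : OneF N N' A ∨ OneF N N' B) :
    ∃ N' : Subgroup G, N'.Normal ∧ N < N' ∧
      N' ≤ T ∧ r0 ↥(A ⊓ (N' ⊔ B)) = r0 ↥(A ⊓ (N ⊔ B)) := by
  obtain ⟨p, N'', hp, hpx, hN''n, hlt'', hle'', hpow⟩ := exists_elementary N N' hN hN' hlt hab
    (fun x hx => by
      obtain ⟨k, hk, hk'⟩ := hTt x (hN'T hx)
      exact ⟨k, hk, by rw [hk']; exact N.one_mem⟩)
  refine ⟨N'', hN''n, hlt'', hle''.trans hN'T, ?_⟩
  rcases h with ⟨K, hKn, hK, hfin, hcomm⟩ | ⟨K, hKn, hK, hfin, hcomm⟩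
  · exact stepZ hr T hTt A B hAB N hN hNT p hp N'' hN''n hlt''
      (fun x hx y hy => hab x (hle'' hx) y (hle'' hy)) hpow K hKn hK (hfin p hp hpx)
      (fun a ha b hb x hx => hcomm a ha b hb x (hle'' hx))
  · have hBA : ∀ g : G, ∃ b ∈ B, ∃ a ∈ A, g = b * a := by
      intro g
      obtain ⟨a, ha, b, hb, hab⟩ := hAB g⁻¹
      refine ⟨b⁻¹, B.inv_mem hb, a⁻¹, A.inv_mem ha, ?_⟩
      rw [← mul_inv_rev, ← hab, inv_inv]
    have h1 := stepZ hr T hTt B A hBA N hN hNT p hp N'' hN''n hlt''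
      (fun x hx y hy => hab x (hle'' hx) y (hle'' hy)) hpow K hKn hK (hfin p hp hpx)
      (fun a ha b hb x hx => hcomm a ha b hb x (hle'' hx))
    rw [r0_swap N'' (fun x hx => hTt x ((hle''.trans hN'T) hx)) A B, h1,
      r0_swap N (fun x hx => hTt x (hNT.le hx)) B A]

/-- the formula for one factorisation lifts from the quotient by a torsion normal subgroup -/
theorem formula_of_quotient' {G : Type} [Group G] [Group.IsSolvable G]
    (T : Subgroup G) [T.Normal] (hTt : IsTor T) (h2 : ProdFormula (G ⧸ T))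
    (A B : Subgroup G) (hAB : ∀ g : G, ∃ a ∈ A, ∃ b ∈ B, g = a * b)
    (h1 : r0 ↥(A ⊓ (T ⊔ B)) = r0 ↥(A ⊓ B)) : r0 G + r0 ↥(A ⊓ B) = r0 ↥A + r0 ↥B := by
  let f : G →* G ⧸ T := QuotientGroup.mk' T
  have hf : Function.Surjective f := QuotientGroup.mk'_surjective T
  have hker : f.ker = T := QuotientGroup.ker_mk' T
  have hkt : IsTor f.ker := fun x hx => hTt x (hker ▸ hx)
  have h3 := h2 (A.map f) (B.map f) (by
      intro y
      obtain ⟨g, rfl⟩ := hf y
      obtain ⟨a, ha, b, hb, rfl⟩ := hAB g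
      exact ⟨f a, ⟨a, ha, rfl⟩, f b, ⟨b, hb, rfl⟩, by rw [map_mul]⟩)
  have hG : r0 G = r0 (G ⧸ T) := by
    rw [r0_add_quotient T, r0_of_isTor T hTt, zero_add]
  rw [hG, r0_map_tor f hkt A, r0_map_tor f hkt B, ← h1,
    r0_map_tor f hkt (A ⊓ (T ⊔ B)), map_inf_ker f A B T hker]
  exact h3

/-- **Main theorem.** -/
theorem mainZ (G : Type) [Group G] [Group.IsSolvable G] (hr : r0 G < ℵ₀)
    (A B : Subgroup G) (hAB : ∀ g : G, ∃ a ∈ A, ∃ b ∈ B, g = a * b)
    (T : Subgroup G) (hTn : T.Normal) (hTt : IsTor T)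
    (hTmax : ∀ S : Subgroup G, S.Normal → IsTor S → S ≤ T)
    (hstar : ∀ N : Subgroup G, N.Normal → N < T → ∃ N' : Subgroup G, N'.Normal ∧ N < N' ∧
      N' ≤ T ∧ (∀ x ∈ N', ∀ y ∈ N', ⁅x, y⁆ ∈ N) ∧ (OneF N N' A ∨ OneF N N' B)) :
    r0 G + r0 ↥(A ⊓ B) = r0 ↥A + r0 ↥B := by
  refine formula_of_quotient' T hTt ?_ A B hAB (radical_zorn hr T A B (fun N hN hNT => ?_))
  · have hno : NoTor (G ⧸ T) := by
      refine noTor_of_surj (QuotientGroup.mk' T) (QuotientGroup.mk'_surjective T) ?_ ?_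
      · rw [QuotientGroup.ker_mk']; exact hTt
      · rintro x ⟨S, hS, hSt, hx⟩
        rw [QuotientGroup.ker_mk']
        exact hTmax S hS hSt hx
    obtain ⟨m, hm⟩ := (Group.isSolvable_def (G ⧸ T)).1 inferInstance
    exact formula_noTor m (G ⧸ T) hm (lt_of_le_of_lt
      (r0_le_of_surjective (QuotientGroup.mk' T) (QuotientGroup.mk'_surjective T)) hr) hno
  · obtain ⟨N', hN', hlt, hN'T, hab, h⟩ := hstar N hN hNT
    exact stepZ' hr T hTt A B hAB N hN hNT N' hN' hlt hN'T hab h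

end Pool.TFN
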