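import Mathlib
import Pool.Agent.TFN.Step

/-!
# Groups whose third derived subgroup contains no torsion normal subgroup
-/

set_option autoImplicit false

namespace Pool.TFN

open Cardinal Pool.TFR Pool.TFM
open scoped commutatorElement

/-- **Groups whose third derived subgroup contains no torsion normal subgroup.** -/
theorem main_d3 (G : Type) [Group G] [Group.IsSolvable G] (hr : r0 G < ℵ₀)
    (hfin : ∀ p : ℕ, p.Prime → {y : G ⧸ commutator G | y ^ p = 1}.Finite)
    (h3 : ∀ S : Subgroup G, S.Normal → S ≤ derivedSeries G 3 → IsTor S → S = ⊥) :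
    ProdFormula G := by
  have h3' : torRad G ⊓ derivedSeries G 3 = ⊥ := by
    have := torRad_normal G
    exact h3 _ inferInstance inf_le_right (fun x hx => torRad_isTor G x hx.1)
  have h2c : ∀ x ∈ derivedSeries G 2, ∀ y ∈ torRad G ⊓ derivedSeries G 2, ⁅x, y⁆ = 1 := by
    intro x hx y hy
    have h4 : ⁅x, y⁆ ∈ torRad G := by
      rw [commutatorElement_def]
      exact (torRad G).mul_mem ((torRad_normal G).conj_mem _ hy.1 x) ((torRad G).inv_mem hy.1)
    have h5 : ⁅x, y⁆ ∈ derivedSeries G 3 := by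
      rw [derivedSeries_succ]
      exact Subgroup.commutator_mem_commutator hx hy.2
    have h6 : ⁅x, y⁆ ∈ torRad G ⊓ derivedSeries G 3 := ⟨h4, h5⟩
    rw [h3'] at h6
    exact Subgroup.mem_bot.1 h6
  have h1 : ∀ x ∈ commutator G, ∀ y ∈ commutator G, ⁅x, y⁆ ∈ derivedSeries G 2 := by
    intro x hx y hy
    rw [derivedSeries_succ, derivedSeries_one]
    exact Subgroup.commutator_mem_commutator hx hy
  have h0 : ∀ x y : G, ⁅x, y⁆ ∈ commutator G := fun x y =>
    Subgroup.commutator_mem_commutator (Subgroup.mem_top x) (Subgroup.mem_top y)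
  have hle : derivedSeries G 2 ≤ commutator G := by
    rw [← derivedSeries_one]
    exact derivedSeries_antitone G (by norm_num)
  have hn2 : (derivedSeries G 2).Normal := inferInstance
  refine mainN G hr (torRad G) (torRad_normal G) (torRad_isTor G)
    (fun S hS hSt x hx => ⟨S, hS, hSt, hx⟩) (fun N hN hNT => ?_)
  have hTn := torRad_normal G
  -- reduction: it is enough to find `N'` containing `N` with the right commutators
  suffices h : ∃ N' : Subgroup G, N'.Normal ∧ N < N' ∧ N' ≤ torRad G ∧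
      (∀ x ∈ N', ∀ y ∈ N', ⁅x, y⁆ ∈ N) ∧ ∀ a ∈ derivedSeries G 2, ∀ x ∈ N', ⁅a, x⁆ ∈ N by
    obtain ⟨N', hN', hlt, hN'T, hab, hc⟩ := h
    exact ⟨N', hN', hlt, hN'T, hab, commutator G, inferInstance, le_rfl,
      fun p hp _ => hfin p hp, fun a ha b hb x hx => hc _ (h1 a ha b hb) x hx⟩
  -- a general construction
  have build : ∀ X : Subgroup G, X.Normal → X ≤ torRad G → ¬ X ≤ N →
      (∀ x ∈ X, ∀ y ∈ X, ⁅x, y⁆ ∈ N) → (∀ a ∈ derivedSeries G 2, ∀ x ∈ X, ⁅a, x⁆ ∈ N) →
      ∃ N' : Subgroup G, N'.Normal ∧ N < N' ∧ N' ≤ torRad G ∧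
      (∀ x ∈ N', ∀ y ∈ N', ⁅x, y⁆ ∈ N) ∧ ∀ a ∈ derivedSeries G 2, ∀ x ∈ N', ⁅a, x⁆ ∈ N := by
    intro X hX hXT hXN hXX hX2
    have hker : ∀ x, QuotientGroup.mk' N x = 1 ↔ x ∈ N := fun x => QuotientGroup.eq_one_iff x
    have hred : ∀ x ∈ X ⊔ N, ∃ x' ∈ X, QuotientGroup.mk' N x = QuotientGroup.mk' N x' := by
      intro x hx
      obtain ⟨x', hx', n, hn, rfl⟩ := Subgroup.mem_sup_of_normal_left.1 hx
      exact ⟨x', hx', by rw [map_mul, (hker n).2 hn, mul_one]⟩
    refine ⟨X ⊔ N, inferInstance, ?_, sup_le hXT hNT.le, ?_, ?_⟩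
    · exact lt_of_le_of_ne le_sup_right (fun h => hXN (h ▸ le_sup_left))
    · intro x hx y hy
      obtain ⟨x', hx', ex⟩ := hred x hx
      obtain ⟨y', hy', ey⟩ := hred y hy
      rw [← hker, map_commutatorElement, ex, ey, ← map_commutatorElement, hker]
      exact hXX x' hx' y' hy'
    · intro a ha x hx
      obtain ⟨x', hx', ex⟩ := hred x hx
      rw [← hker, map_commutatorElement, ex, ← map_commutatorElement, hker]
      exact hX2 a ha x' hx'
  by_cases c2 : torRad G ⊓ derivedSeries G 2 ≤ N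
  · by_cases c1 : torRad G ⊓ commutator G ≤ N
    · refine build (torRad G) hTn le_rfl (fun h => (not_le_of_gt hNT) h) (fun x hx y hy => ?_)
        (fun a ha x hx => ?_)
      · refine c1 ⟨?_, h0 x y⟩
        rw [commutatorElement_def]
        exact (torRad G).mul_mem (hTn.conj_mem _ hy x) ((torRad G).inv_mem hy)
      · refine c1 ⟨?_, h0 a x⟩
        rw [commutatorElement_def]
        exact (torRad G).mul_mem (hTn.conj_mem _ hx a) ((torRad G).inv_mem hx)
    · refine build (torRad G ⊓ commutator G) inferInstance inf_le_left c1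
        (fun x hx y hy => ?_) (fun a ha x hx => ?_)
      · refine c2 ⟨?_, h1 x hx.2 y hy.2⟩
        rw [commutatorElement_def]
        exact (torRad G).mul_mem (by
          have := hTn.conj_mem _ hy.1 x
          exact this) ((torRad G).inv_mem hy.1)
      · refine c2 ⟨?_, ?_⟩
        · rw [commutatorElement_def]
          exact (torRad G).mul_mem (hTn.conj_mem _ hx.1 a) ((torRad G).inv_mem hx.1)
        · have : ⁅a, x⁆ = a * (x * a⁻¹ * x⁻¹) := by rw [commutatorElement_def]; group
          rw [this]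
          exact (derivedSeries G 2).mul_mem ha
            (hn2.conj_mem _ ((derivedSeries G 2).inv_mem ha) x)
  · refine build (torRad G ⊓ derivedSeries G 2) inferInstance inf_le_left c2
      (fun x hx y hy => ?_) (fun a ha x hx => ?_)
    · rw [h2c x hx.2 y hy]; exact N.one_mem
    · rw [h2c a ha x hx]; exact N.one_mem

end Pool.TFN
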